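import Pool.Agent.Lib.MP_1211f9_al.BK.B0

section

/-! Campaign BK (MP_1211f9_al), task B1: lowering a walk in a closed set -/

set_option autoImplicit false

namespace Pool.Agent.Lib.MP_1211f9_al.BK

open Relation

variable {V : Type*} {X : SimpleGraph V}

private theorem B1_pair (hX : Bucolic X) {H : Set V} (hH : NbrClosed X H) (z : V) (M : ℕ)
    {a c t x : V} (hc : X.dist z c = M + 1) (ht : t ∈ H) (hx : x ∈ H) (htc : X.Adj t c)
    (hxc : X.Adj x c) (ft : X.dist z t = M) (fx : X.dist z x = M)
    (h : ReflTransGen (LStep X H z M) a x) : ReflTransGen (LStep X H z M) a t := by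
  by_cases h1 : t = x
  · rw [h1]
    exact h
  by_cases h2 : X.Adj x t
  · exact h.tail ⟨h2, hx, ht, fx.le, ft.le⟩
  cases M with
  | zero =>
    have h3 : z = t := hX.conn.dist_eq_zero_iff.1 ft
    have h4 : z = x := hX.conn.dist_eq_zero_iff.1 fx
    exact absurd (h3.symm.trans h4) h1
  | succ k =>
    obtain ⟨w, hw1, hw2, hw3⟩ := hX.qc z c t x k hc ft fx htc.symm hxc.symm h1 fun h3 => h2 h3.symm
    have hw : w ∈ H := hH w t x ht hx h1 hw1 hw2
    exact (h.tail ⟨hw2.symm, hx, hw, fx.le, by omega⟩).tail ⟨hw1, hw, ht, by omega, ft.le⟩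

/-- Lowering of walks by one level. PROOF. `f = X.dist z`, `R` the relation of the conclusion. Prove by induction on the walk (`ReflTransGen` built at its end `b`) the
invariant P(c): `c ∈ H`, `f c ≤ M + 1`, and (1) if `f c ≤ M` then `R a c`; (2) if `f c = M + 1` then for every `t ∈ H`, `t ~ c`, `f t = M`: `R a t`. (If `a = b` use `ReflTransGen.refl`.)
Step `c ~ c'`. (i) `f c ≤ M`, `f c' ≤ M`: one more step. (ii) `f c ≤ M`, `f c' = M + 1`: `f c = M`; let `t ∈ H`, `t ~ c'`, `f t = M`: `t = c` clear; `t ~ c`: one more step; otherwise `t, c` are nonadjacent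
(`M ≥ 1`, since for `M = 0` both are `z`), QC (from `z`, top `c'`) gives `x ~ t, c` with `f x = M - 1`; `x ∈ H` by `hH` (two distinct neighbours); `R`-steps `c, x, t`. (iii) `f c = M + 1`, `f c' ≤ M`: `f c' = M` and (2) for `c`.
(iv) `f c = f c' = M + 1`: TC gives `x ~ c, c'`, `f x = M`, `x ∈ H` by `hH` (`c ≠ c'`); `R a x` by (2) for `c`; then for `t` as in (ii) with `x` in place of `c`. -/
theorem low_step (hX : Bucolic X) {H : Set V} (hH : NbrClosed X H) (z : V) (M : ℕ) {a b : V}
    (ha : a ∈ H) (h : ReflTransGen (LStep X H z (M + 1)) a b) (h1 : X.dist z a ≤ M)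
    (h2 : X.dist z b ≤ M) : ReflTransGen (LStep X H z M) a b := by
  have key : b ∈ H ∧ (X.dist z b ≤ M → ReflTransGen (LStep X H z M) a b) ∧
      (X.dist z b = M + 1 → ∀ t ∈ H, X.Adj t b → X.dist z t = M →
        ReflTransGen (LStep X H z M) a t) := by
    clear h2
    induction h with
    | refl => exact ⟨ha, fun _ => ReflTransGen.refl, fun h => by omega⟩
    | @tail c c' _ hs ih =>
      obtain ⟨hcH, ih1, ih2⟩ := ih
      obtain ⟨hadj, -, hc'H, hc, hc'⟩ := hs
      have e1 := dist_le_succ hX.conn z hadj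
      have e2 := dist_le_succ hX.conn z hadj.symm
      refine ⟨hc'H, ?_, ?_⟩
      · intro h3
        rcases Nat.lt_or_ge M (X.dist z c) with h4 | h4
        · exact ih2 (by omega) c' hc'H hadj.symm (by omega)
        · exact (ih1 h4).tail ⟨hadj, hcH, hc'H, h4, h3⟩
      · intro h3 t ht htc ft
        rcases Nat.lt_or_ge M (X.dist z c) with h4 | h4
        · have h5 : X.dist z c = M + 1 := by omega
          obtain ⟨w, hw1, hw2, hw3⟩ := hX.tc z c c' M h5 h3 hadj
          have hw : w ∈ H := hH w c c' hcH hc'H hadj.ne hw1 hw2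
          exact B1_pair hX hH z M h3 ht hw htc hw2 ft hw3 (ih2 h5 w hw hw1 hw3)
        · exact B1_pair hX hH z M h3 ht hcH htc hadj ft (by omega) (ih1 h4)
  exact key.2.1 h2

end Pool.Agent.Lib.MP_1211f9_al.BK
end

section

/-! Campaign BK (MP_1211f9_al), task B2: connectedness of the sublevel sets -/

set_option autoImplicit false

namespace Pool.Agent.Lib.MP_1211f9_al.BK

open Relation

variable {V : Type*} {X : SimpleGraph V}

private theorem B2_mono {H : Set V} {z : V} {N N' : ℕ} (hN : N ≤ N') {a b : V}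
    (h : ReflTransGen (LStep X H z N) a b) : ReflTransGen (LStep X H z N') a b :=
  ReflTransGen.mono (r := LStep X H z N) (p := LStep X H z N')
    (fun _ _ h => ⟨h.1, h.2.1, h.2.2.1, h.2.2.2.1.trans hN, h.2.2.2.2.trans hN⟩) _ _ h

private theorem B2_exists {H : Set V} (z : V) (M : ℕ) {a b : V}
    (h : ReflTransGen (fun u v => X.Adj u v ∧ u ∈ H ∧ v ∈ H) a b) :
    ∃ N, ReflTransGen (LStep X H z (M + N)) a b := by
  induction h with
  | refl => exact ⟨0, ReflTransGen.refl⟩
  | @tail c d _ hcd ih =>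
    obtain ⟨N, hN⟩ := ih
    refine ⟨N + X.dist z c + X.dist z d, ?_⟩
    refine ReflTransGen.tail (B2_mono (by omega) hN) ⟨hcd.1, hcd.2.1, hcd.2.2, ?_, ?_⟩
    · omega
    · omega

/-- PROOF. The walk has a maximal level: by induction on the walk there is `N ≥ M` with `ReflTransGen (LStep X H z N) a b` (`LStep` is monotone in the level: `ReflTransGen.mono`).
Then lower `N` to `M` with `low_step` (induction on `N - M`; if `a = b` all is trivial, otherwise `a ∈ H` from the first step). -/
theorem low_all (hX : Bucolic X) {H : Set V} (hH : NbrClosed X H) (z : V) (M : ℕ) {a b : V}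
    (h : ReflTransGen (fun u v => X.Adj u v ∧ u ∈ H ∧ v ∈ H) a b) (h1 : X.dist z a ≤ M)
    (h2 : X.dist z b ≤ M) : ReflTransGen (LStep X H z M) a b := by
  obtain ⟨N, hN⟩ := B2_exists z M h
  rcases ReflTransGen.cases_head h with rfl | ⟨c, hc, _⟩
  · exact ReflTransGen.refl
  · have ha : a ∈ H := hc.2.1
    clear h hc
    induction N with
    | zero => exact hN
    | succ N ih => exact ih (low_step hX hH z (M + N) ha hN (h1.trans (by omega)) (h2.trans (by omega)))

end Pool.Agent.Lib.MP_1211f9_al.BK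
end

section

/-! Campaign BK (MP_1211f9_al), task B3: Chepoi: connected and closed sets are gated -/

set_option autoImplicit false

namespace Pool.Agent.Lib.MP_1211f9_al.BK

open Relation

variable {V : Type*} {X : SimpleGraph V}

/-- Chepoi's lemma. PROOF. Fix `y`, `f = X.dist y`, `p ∈ H` with minimal `f p = m` (`Nat.find` or `WellFounded.min`). (1) If `p' ∈ H` and `f p' = m` then `p' = p`: by `low_all` (level `m`) a walk from `p` to `p'` inside `H ∩ {f ≤ m}`,
so with all levels `= m`; its first step `p ~ p₁` (if `p ≠ p'`) has `f p = f p₁ = m`, `m ≥ 1` (otherwise both are `y`), TC gives `x ~ p, p₁` with `f x = m - 1`, `x ∈ H` (`hH`), a contradiction.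
(2) If `h ∈ H`, `f h = k > m`, then some `h' ∈ H`, `h' ~ h`, has `f h' = k - 1`: a walk from `h` to `p` inside `H ∩ {f ≤ k}` (`low_all`), first step `h ~ h₁`: if `f h₁ < k` take it, otherwise TC and `hH` as before.
(3) By induction on `f h - m`: `X.dist p h ≤ f h - m` for all `h ∈ H`; with the triangle inequality `f h = m + X.dist p h`. -/
theorem chepoi (hX : Bucolic X) {H : Set V} (hne : H.Nonempty) (hc : SetConn X H)
    (hH : NbrClosed X H) : Gated X H := by
  classical
  intro y
  have hex : ∃ m : ℕ, ∃ p ∈ H, X.dist y p = m := by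
    obtain ⟨p, hp⟩ := hne
    exact ⟨_, p, hp, rfl⟩
  obtain ⟨p, hpH, hpm⟩ := Nat.find_spec hex
  have hmin : ∀ h ∈ H, Nat.find hex ≤ X.dist y h := fun h hh => Nat.find_min' hex ⟨h, hh, rfl⟩
  set m := Nat.find hex with hm
  clear_value m
  have tri : ∀ (k : ℕ) (u v : V), u ∈ H → v ∈ H → X.Adj u v → X.dist y u = k + 1 →
      X.dist y v = k + 1 → ∃ w ∈ H, X.Adj w u ∧ X.dist y w = k := by
    intro k u v hu hv huv h1 h2
    obtain ⟨w, hw1, hw2, hw3⟩ := hX.tc y u v k h1 h2 huv
    exact ⟨w, hH w u v hu hv huv.ne hw1 hw2, hw1, hw3⟩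
  have uniq : ∀ p' ∈ H, X.dist y p' = m → p' = p := by
    intro p' hp' hd
    by_contra hne'
    have hw := low_all hX hH y m (hc p hpH p' hp') hpm.le hd.le
    rcases hw.cases_head with h | ⟨p1, h1, -⟩
    · exact hne' h.symm
    · obtain ⟨hadj, -, hp1, -, hle⟩ := h1
      have hge := hmin p1 hp1
      have heq : X.dist y p1 = m := le_antisymm hle hge
      rcases Nat.eq_zero_or_pos m with h0 | h0
      · rw [h0] at hpm heq
        have e1 := hX.conn.dist_eq_zero_iff.mp hpm
        have e2 := hX.conn.dist_eq_zero_iff.mp heq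
        exact hadj.ne (e1.symm.trans e2)
      · obtain ⟨k, rfl⟩ := Nat.exists_eq_succ_of_ne_zero h0.ne'
        obtain ⟨w, hw1, -, hw3⟩ := tri k p p1 hpH hp1 hadj hpm heq
        have := hmin w hw1
        omega
  have desc : ∀ (k : ℕ) (h : V), h ∈ H → X.dist y h = k + 1 → m ≤ k →
      ∃ h' ∈ H, X.Adj h' h ∧ X.dist y h' = k := by
    intro k h hh hd hmk
    have hw := low_all hX hH y (k + 1) (hc h hh p hpH) hd.le (by omega)
    rcases hw.cases_head with h1 | ⟨h1, hs, -⟩
    · exfalso
      rw [h1] at hd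
      omega
    · obtain ⟨hadj, -, hh1, -, hle⟩ := hs
      rcases Nat.lt_or_ge (X.dist y h1) (k + 1) with hlt | hge
      · have := dist_le_succ hX.conn y hadj
        exact ⟨h1, hh1, hadj.symm, by omega⟩
      · obtain ⟨w, hw1, hw2, hw3⟩ := tri k h h1 hh hh1 hadj hd (le_antisymm hle hge)
        exact ⟨w, hw1, hw2, hw3⟩
  have main : ∀ (j : ℕ) (h : V), h ∈ H → X.dist y h = m + j → X.dist p h ≤ j := by
    intro j
    induction j with
    | zero =>
      intro h hh hd
      rw [uniq h hh (by omega)]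
      simp
    | succ j ih =>
      intro h hh hd
      obtain ⟨h', hh', hadj, hd'⟩ := desc (m + j) h hh (by omega) (by omega)
      have h1 := ih h' hh' hd'
      have h2 := dist_le_succ hX.conn p hadj.symm
      omega
  refine ⟨p, hpH, fun h hh => ?_⟩
  have h1 := hmin h hh
  have h2 := main (X.dist y h - m) h hh (by omega)
  have h3 := hX.conn.dist_triangle (u := y) (v := p) (w := h)
  omega

end Pool.Agent.Lib.MP_1211f9_al.BK
end

section

/-! Campaign BK (MP_1211f9_al), task B5: opposite vertices of a square are in different components of the link -/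

set_option autoImplicit false

namespace Pool.Agent.Lib.MP_1211f9_al.BK

open Relation

variable {V : Type*} {X : SimpleGraph V}

/-- PROOF. `ReflTransGen.head_induction_on` (`y`, `v` fixed), with the statement for all `w`: if `Sq X v x w y` then `False`. Base `x = y`: excluded by `Sq`. Step `x ~ z` in the link of `v`, and the claim holds for `z`:
`z` is not adjacent to `w` (otherwise `z` is a common neighbour of `v, w`, so `z = x` or `z = y` by `FC`; but `z ~ x`), `z ≠ y` (as `x, y` are not adjacent), `z` is not adjacent to `y` (otherwise `z` is a common neighbour of `x, y`, so `z = v` or `z = w` by `FC`, but `v ~ z`, and `v, w` are not adjacent).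
So `d(z, w) = d(z, y) = 2` (common neighbours `x` and `v`), `w ~ y`: TC from `z` gives `w₁ ~ w, y` with `d(z, w₁) = 1`. `w₁` is not adjacent to `v` (otherwise `w₁ ∈ {x, y}` by `FC`; `w₁ ~ y` but `x, y` are not adjacent), `w₁ ≠ v` (as `v, w` are not adjacent).
So `Sq X v z w₁ y`: contradiction with the claim for `z`. -/
theorem square_comp (hX : Bucolic X) {v x w y : V} (h : Sq X v x w y) :
    ¬ ReflTransGen (LinkStep X v) x y := by
  intro hr
  revert w
  induction hr using ReflTransGen.head_induction_on with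
  | refl =>
    intro w h
    exact h.2.2.2.2.2.1 rfl
  | head hstep hrest ih =>
    rename_i x' z
    intro w h
    obtain ⟨hxz, hvx, hvz⟩ := hstep
    have h' := h
    obtain ⟨-, hxw, hwy, hyv, hvw, hxy, hnvw, hnxy⟩ := h'
    have hzw : ¬ X.Adj z w := by
      intro hadj
      rcases hX.fc v x' w y z h hvz.symm hadj with h1 | h1
      · subst h1
        exact hxz.ne rfl
      · subst h1
        exact hnxy hxz
    have hzy : z ≠ y := by
      rintro rfl
      exact hnxy hxz
    have hnzy : ¬ X.Adj z y := by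
      intro hadj
      rcases hX.fc x' w y v z (sq_rot h) hxz.symm hadj with h1 | h1
      · subst h1
        exact hnvw hvz
      · subst h1
        exact hvz.ne rfl
    have hnezw : z ≠ w := by
      rintro rfl
      exact hnvw hvz
    have d1 : X.dist z w = 2 := dist_two hX.conn hxz.symm hxw hnezw hzw
    have d2 : X.dist z y = 2 := dist_two hX.conn hvz.symm hyv.symm hzy hnzy
    obtain ⟨w₁, hw1, hw2, hw3⟩ := hX.tc z w y 1 (by rw [d1]) (by rw [d2]) hwy
    have hzw1 : X.Adj z w₁ := SimpleGraph.dist_eq_one_iff_adj.mp hw3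
    have hnv : ¬ X.Adj w₁ v := by
      intro hadj
      rcases hX.fc v x' w y w₁ h hadj hw1 with h1 | h1
      · subst h1
        exact hnxy hw2
      · subst h1
        exact hw2.ne rfl
    have hnev : v ≠ w₁ := by
      rintro rfl
      exact hnvw hw1
    exact ih (w := w₁) ⟨hvz, hzw1, hw2, hyv, hnev, hzy, fun h1 => hnv h1.symm, hnzy⟩

end Pool.Agent.Lib.MP_1211f9_al.BK
end

section

/-! Campaign BK (MP_1211f9_al), task B6: lowering of germ walks -/

set_option autoImplicit false

namespace Pool.Agent.Lib.MP_1211f9_al.BK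

open Relation

variable {V : Type*} {X : SimpleGraph V}

private theorem B6_adj {v a b : V} (h : ReflTransGen (LinkStep X v) a b) (ha : X.Adj v a) :
    X.Adj v b := by
  induction h with
  | refl => exact ha
  | tail _ h _ => exact h.2.2

private theorem B6_K (hX : Bucolic X) (z : V) (M : ℕ) {u s t : V} (hu : X.dist z u = M + 1)
    (hs : X.Adj u s) (ht : X.Adj u t) (hfs : X.dist z s = M) (hft : X.dist z t = M)
    (h : ReflTransGen (LinkStep X u) s t) :
    ReflTransGen (RStep X z M) (s, u) (t, u) := by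
  by_cases hst : s = t
  · rw [hst]
  by_cases hadj : X.Adj s t
  · have h1 : RStep X z M (s, u) (s, t) :=
      ⟨hs.symm, Or.inl ⟨rfl, ReflTransGen.single ⟨ht, hs.symm, hadj⟩⟩⟩
    have h2 : RStep X z M (s, t) (t, s) :=
      ⟨hadj, Or.inr ⟨rfl, rfl, hfs.le, hft.le⟩⟩
    have h3 : RStep X z M (t, s) (t, u) :=
      ⟨hadj.symm, Or.inl ⟨rfl, ReflTransGen.single ⟨hs.symm, hadj.symm, ht.symm⟩⟩⟩
    exact ((ReflTransGen.single h1).tail h2).tail h3
  · exfalso
    rcases M with _ | k
    · have hzs : z = s := (hX.conn.dist_eq_zero_iff).1 hfs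
      have hzt : z = t := (hX.conn.dist_eq_zero_iff).1 hft
      exact hst (hzs.symm.trans hzt)
    · obtain ⟨w, hws, hwt, hw⟩ := hX.qc z u s t k hu hfs hft hs ht hst hadj
      refine square_comp hX (v := u) (x := s) (w := w) (y := t) ?_ h
      refine ⟨hs, hws.symm, hwt, ht.symm, ?_, hst, ?_, hadj⟩
      · rintro rfl
        omega
      · intro huw
        have := dist_le_succ hX.conn z huw
        omega

private theorem B6_inv (hX : Bucolic X) (z : V) (M : ℕ) {p q : V × V} (hp : X.Adj p.1 p.2)
    (h : ReflTransGen (RStep X z (M + 1)) p q) (h1 : X.dist z p.1 ≤ M) :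
    X.Adj q.1 q.2 ∧ X.dist z q.1 ≤ M + 1 ∧
      (X.dist z q.1 ≤ M → ReflTransGen (RStep X z M) p q) ∧
      (X.dist z q.1 = M + 1 → ∀ t, X.Adj q.1 t → ReflTransGen (LinkStep X q.1) q.2 t →
        X.dist z t = M → ReflTransGen (RStep X z M) p (t, q.1)) := by
  induction h with
  | refl => exact ⟨hp, by omega, fun _ => ReflTransGen.refl, fun h => by omega⟩
  | @tail d d' _ hs ih =>
    obtain ⟨u, x⟩ := d
    obtain ⟨u', x'⟩ := d'
    obtain ⟨i1, i2, i3, i4⟩ := ih
    obtain ⟨_, hs⟩ := hs
    simp only at i1 i2 i3 i4 hs ⊢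
    rcases hs with ⟨rfl, hs⟩ | ⟨rfl, rfl, hu, hx⟩
    · refine ⟨B6_adj hs i1, i2, fun h => ?_, fun h t ht1 ht2 ht3 => ?_⟩
      · exact (i3 h).tail ⟨i1, Or.inl ⟨rfl, hs⟩⟩
      · exact i4 h t ht1 (hs.trans ht2) ht3
    · refine ⟨i1.symm, hx, fun h => ?_, fun h t ht1 ht2 ht3 => ?_⟩
      · by_cases hu' : X.dist z x' ≤ M
        · exact (i3 hu').tail ⟨i1, Or.inr ⟨rfl, rfl, hu', h⟩⟩
        · have h5 : X.dist z x' = M + 1 := by omega
          have h6 := dist_le_succ hX.conn z i1
          exact i4 h5 u' i1 ReflTransGen.refl (by omega)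
      · by_cases hu' : X.dist z x' ≤ M
        · have h6 := dist_le_succ hX.conn z i1.symm
          exact (i3 hu').trans (B6_K hX z M h i1.symm ht1 (by omega) ht3 ht2)
        · have h5 : X.dist z x' = M + 1 := by omega
          obtain ⟨t0, ht0, ht0', hft0⟩ := hX.tc z x' u' M h5 h i1
          have h7 := i4 h5 t0 ht0.symm (ReflTransGen.single ⟨ht0'.symm, i1, ht0.symm⟩) hft0
          have h8 : RStep X z M (t0, x') (t0, u') :=
            ⟨ht0, Or.inl ⟨rfl, ReflTransGen.single ⟨i1, ht0, ht0'⟩⟩⟩
          have h9 : ReflTransGen (LinkStep X u') t0 t :=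
            (ReflTransGen.single (show LinkStep X u' t0 x' from ⟨ht0, ht0'.symm, i1.symm⟩)).trans ht2
          exact (h7.tail h8).trans (B6_K hX z M h ht0'.symm ht1 hft0 ht3 h9)

/-- PROOF. `f = X.dist z`, `R = ReflTransGen (RStep X z M)`; `LinkStep` is symmetric. Invariant for a dart `d = (u, x)` (with `X.Adj u x`, `f u ≤ M + 1`) reached from `p` by `RStep X z (M + 1)`:
(1) if `f u ≤ M` then `R p d`; (2) if `f u = M + 1` then for every `t` with `X.Adj u t`, `ReflTransGen (LinkStep X u) x t` and `f t = M`: `R p (t, u)`.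
Claim K: if `u` has `f u = M + 1` and `s, t` are neighbours of `u` with `f s = f t = M` and `ReflTransGen (LinkStep X u) s t`, then `s = t` or `s ~ t`: otherwise (`M ≥ 1`, as for `M = 0` both are `z`) QC from `z` gives `w ~ s, t`, `f w = M - 1`, and
`Sq X u s w t` contradicts `square_comp`. In both cases `R (s, u) (t, u)`: `(s, u)` turn to `(s, t)` (`u ~ t`), flip to `(t, s)`, turn to `(t, u)`.
Turn at `u`: (1) one more step (turns have no level condition); (2) the component of the link is the same. Flip `(u, x)` to `(x, u)` with `f u, f x ≤ M + 1`: (i) both `≤ M`: one more step. (ii) `f u = M`, `f x = M + 1`: `t` in the component of `u` in the link of `x`, `f t = M`: `R p (u, x)` and claim K at `x` give `R p (t, x)`.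
(iii) `f u = M + 1`, `f x ≤ M`: `x` itself in (2). (iv) `f u = f x = M + 1`: TC gives `t₀ ~ u, x`, `f t₀ = M`; (2) for `(u, x)`: `R p (t₀, u)`; turn to `(t₀, x)`; for `t` in the component of `u` in the link of `x` with `f t = M` (so in that of `t₀`): claim K at `x`. -/
theorem germ_low (hX : Bucolic X) (z : V) (M : ℕ) {p q : V × V} (hp : X.Adj p.1 p.2)
    (h : ReflTransGen (RStep X z (M + 1)) p q) (h1 : X.dist z p.1 ≤ M) (h2 : X.dist z q.1 ≤ M) :
    ReflTransGen (RStep X z M) p q := by
  exact (B6_inv hX z M hp h h1).2.2.1 h2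

end Pool.Agent.Lib.MP_1211f9_al.BK
end

section

/-! Campaign BK (MP_1211f9_al), task B7: germ walks of bounded level, symmetry -/

set_option autoImplicit false

namespace Pool.Agent.Lib.MP_1211f9_al.BK

open Relation

variable {V : Type*} {X : SimpleGraph V}

private theorem B7_gstep_symm {p q : V × V} (h : GStep X p q) : GStep X q p := by
  obtain ⟨h0, h | h⟩ := h
  · obtain ⟨h1, h2, h3⟩ := h
    refine ⟨h2, Or.inl ⟨h1.symm, h0, h3.symm⟩⟩
  · obtain ⟨h1, h2⟩ := h
    refine ⟨?_, Or.inr ⟨h2.symm, h1.symm⟩⟩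
    rw [h1, h2]
    exact h0.symm

theorem germ_adj {p q : V × V} (hp : X.Adj p.1 p.2) (h : ReflTransGen (GStep X) p q) :
    X.Adj q.1 q.2 := by
  induction h with
  | refl => exact hp
  | tail _ hs _ => exact (B7_gstep_symm hs).1

/-- PROOF. `GStep` is symmetric. -/
theorem germ_symm {p q : V × V} (h : ReflTransGen (GStep X) p q) :
    ReflTransGen (GStep X) q p := by
  induction h with
  | refl => exact ReflTransGen.refl
  | tail _ hs ih => exact ReflTransGen.head (B7_gstep_symm hs) ih

theorem link_germ {u x y : V} (hx : X.Adj u x) (h : ReflTransGen (LinkStep X u) x y) :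
    ReflTransGen (GStep X) (u, x) (u, y) := by
  induction h with
  | refl => exact ReflTransGen.refl
  | tail _ hs ih => exact ih.tail ⟨hs.2.1, Or.inl ⟨rfl, hs.2.2, hs.1⟩⟩

private theorem B7_rstep_one {z : V} {M : ℕ} {p q : V × V} (h : RStep X z M p q) :
    ReflTransGen (GStep X) p q := by
  obtain ⟨h0, h | h⟩ := h
  · obtain ⟨h1, h2⟩ := h
    have := link_germ h0 h2
    have hq : (p.1, q.2) = q := Prod.ext h1.symm rfl
    rw [hq] at this
    exact this
  · exact ReflTransGen.single ⟨h0, Or.inr ⟨h.1, h.2.1⟩⟩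

/-- A walk of `RStep`s is a germ walk. -/
theorem rstep_germ {z : V} {M : ℕ} {p q : V × V} (hp : X.Adj p.1 p.2)
    (h : ReflTransGen (RStep X z M) p q) : ReflTransGen (GStep X) p q := by
  induction h with
  | refl => exact ReflTransGen.refl
  | tail _ hs ih => exact ih.trans (B7_rstep_one hs)

private theorem B7_mono {z : V} {M N : ℕ} (hMN : M ≤ N) {p q : V × V}
    (h : ReflTransGen (RStep X z M) p q) : ReflTransGen (RStep X z N) p q := by
  induction h with
  | refl => exact ReflTransGen.refl
  | tail _ hs ih =>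
    refine ih.tail ⟨hs.1, ?_⟩
    rcases hs.2 with h | h
    · exact Or.inl h
    · exact Or.inr ⟨h.1, h.2.1, h.2.2.1.trans hMN, h.2.2.2.trans hMN⟩

private theorem B7_lift {z : V} {p q : V × V} (h : ReflTransGen (GStep X) p q) :
    ∃ N, ReflTransGen (RStep X z N) p q := by
  induction h with
  | refl => exact ⟨0, ReflTransGen.refl⟩
  | @tail b c _ hs ih =>
    obtain ⟨N, hN⟩ := ih
    obtain ⟨h0, h | h⟩ := hs
    · refine ⟨N, hN.tail ⟨h0, Or.inl ⟨h.1, ReflTransGen.single ⟨h.2.2, h0, ?_⟩⟩⟩⟩
      rw [← h.1]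
      exact h.2.1
    · refine ⟨max N (max (X.dist z b.1) (X.dist z b.2)), (B7_mono (le_max_left _ _) hN).tail
        ⟨h0, Or.inr ⟨h.1, h.2, ?_, ?_⟩⟩⟩
      · exact (le_max_left _ _).trans (le_max_right _ _)
      · exact (le_max_right _ _).trans (le_max_right _ _)

private theorem B7_low (hX : Bucolic X) (z : V) (M : ℕ) {p q : V × V} (hp : X.Adj p.1 p.2)
    (h1 : X.dist z p.1 ≤ M) (h2 : X.dist z q.1 ≤ M) (k : ℕ) :
    ReflTransGen (RStep X z (M + k)) p q → ReflTransGen (RStep X z M) p q := by
  induction k with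
  | zero => exact fun h => h
  | succ k ih =>
    intro h
    exact ih (germ_low hX z (M + k) hp h (h1.trans (Nat.le_add_right _ _))
      (h2.trans (Nat.le_add_right _ _)))

/-- PROOF. By induction on the walk there is `N ≥ M` with `ReflTransGen (RStep X z N) p q` (`RStep` is monotone in the level; a `GStep` turn is an `RStep` turn with one `LinkStep`). Then lower `N` to `M` by `germ_low`. -/
theorem germ_low_all (hX : Bucolic X) (z : V) (M : ℕ) {p q : V × V} (hp : X.Adj p.1 p.2)
    (h : ReflTransGen (GStep X) p q) (h1 : X.dist z p.1 ≤ M) (h2 : X.dist z q.1 ≤ M) :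
    ReflTransGen (RStep X z M) p q := by
  obtain ⟨N, hN⟩ := B7_lift (z := z) h
  exact B7_low hX z M hp h1 h2 N (B7_mono (Nat.le_add_left _ _) hN)

end Pool.Agent.Lib.MP_1211f9_al.BK
end

section

/-! Campaign BK (MP_1211f9_al), task B8: germs at a vertex, adjacent vertices of a germ class -/

set_option autoImplicit false

namespace Pool.Agent.Lib.MP_1211f9_al.BK

open Relation

variable {V : Type*} {X : SimpleGraph V}

/-- The darts of a germ class at `u` form one component of the link of `u`. PROOF. `germ_low_all` with `z = u`, `M = 0`: no flip is possible (both end points would be `u`), so the walk consists of turns at `u`; they compose. -/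
theorem germ_link (hX : Bucolic X) {u x y : V} (hx : X.Adj u x)
    (h : ReflTransGen (GStep X) (u, x) (u, y)) : ReflTransGen (LinkStep X u) x y := by
  have h1 := germ_low_all hX u 0 (p := (u, x)) (q := (u, y)) hx h (by simp) (by simp)
  have key : ∀ q : V × V, ReflTransGen (RStep X u 0) (u, x) q →
      q.1 = u ∧ ReflTransGen (LinkStep X u) x q.2 := by
    intro q hq
    induction hq with
    | refl => exact ⟨rfl, ReflTransGen.refl⟩
    | tail _ hst ih =>
      obtain ⟨ih1, ih2⟩ := ih
      obtain ⟨hadj, (⟨h2, h3⟩ | ⟨_, _, h4, h5⟩)⟩ := hst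
      · refine ⟨h2.trans ih1, ih2.trans ?_⟩
        rwa [ih1] at h3
      · exfalso
        have e1 := (hX.conn.dist_eq_zero_iff).1 (Nat.le_zero.1 h4)
        have e2 := (hX.conn.dist_eq_zero_iff).1 (Nat.le_zero.1 h5)
        rw [← e1, ← e2] at hadj
        exact X.irrefl hadj
  exact (key _ h1).2

/-- PROOF. `(a, x)` and `(b, y)` are in the class of `p`; `germ_low_all` with `z = a`, `M = 1` gives a walk of `RStep X a 1` from `(a, x)` to `(b, y)`. Invariant along the walk for the dart `(v, w)` reached: `(a, x)` and `(v, w)` are germ equivalent (`rstep_germ`), and `v = a` or (`X.Adj a v` and `(a, x)`, `(a, v)` are germ equivalent).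
Turns: clear. Flip from `(v, w)` to `(w, v)` (both of level `≤ 1`): if `w = a` fine. If `v = a`: `(a, x) ~ (a, w)`, fine. Otherwise `v, w` are adjacent neighbours of `a` and `(a, v)` turns to `(a, w)`. At the end `v = b ≠ a`. -/
theorem cop_adj (hX : Bucolic X) {p : V × V} (hp : X.Adj p.1 p.2) {a b : V} (ha : a ∈ Cop X p)
    (hb : b ∈ Cop X p) (hab : X.Adj a b) : ReflTransGen (GStep X) p (a, b) := by
  obtain ⟨x, hx⟩ := ha
  obtain ⟨y, hy⟩ := hb
  have hax : X.Adj a x := germ_adj hp hx
  have hw : ReflTransGen (GStep X) (a, x) (b, y) := (germ_symm hx).trans hy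
  have h1 := germ_low_all hX a 1 (p := (a, x)) (q := (b, y)) hax hw (by simp)
    (by rw [SimpleGraph.dist_eq_one_iff_adj.2 hab])
  have key : ∀ q : V × V, ReflTransGen (RStep X a 1) (a, x) q →
      q.1 = a ∨ (X.Adj a q.1 ∧ ReflTransGen (GStep X) (a, x) (a, q.1)) := by
    intro q hq
    induction hq with
    | refl => exact Or.inl rfl
    | @tail q q' hqq hst ih =>
      obtain ⟨hadj, (⟨h2, _⟩ | ⟨h2, h3, h4, h5⟩)⟩ := hst
      · rw [h2]
        exact ih
      · rw [h2]
        by_cases hqa : q.2 = a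
        · exact Or.inl hqa
        · right
          have haw : X.Adj a q.2 := by
            rw [← SimpleGraph.dist_eq_one_iff_adj]
            have h6 : X.dist a q.2 ≠ 0 := fun h0 => hqa ((hX.conn.dist_eq_zero_iff).1 h0).symm
            omega
          refine ⟨haw, ?_⟩
          rcases ih with ih | ⟨ih1, ih2⟩
          · have h7 : ReflTransGen (GStep X) (a, x) q := rstep_germ (p := (a, x)) hax hqq
            have h8 : q = (a, q.2) := Prod.ext ih rfl
            rw [h8] at h7
            exact h7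
          · exact ih2.tail ⟨ih1, Or.inl ⟨rfl, haw, hadj⟩⟩
  rcases key _ h1 with h2 | ⟨_, h3⟩
  · exfalso
    have h2' : b = a := h2
    rw [h2'] at hab
    exact X.irrefl hab
  · exact hx.trans h3

end Pool.Agent.Lib.MP_1211f9_al.BK
end

section

/-! Campaign BK (MP_1211f9_al), task B9: germ classes are closed -/

set_option autoImplicit false

namespace Pool.Agent.Lib.MP_1211f9_al.BK

open Relation

variable {V : Type*} {X : SimpleGraph V}

private theorem B9_aux (hX : Bucolic X) {p : V × V} {y a : V}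
    (hya : X.Adj y a) {r : V × V} (hr : r.1 ≠ a) {q : V × V}
    (h : ReflTransGen (RStep X y 1) q r) :
    q.1 = a → ReflTransGen (GStep X) p q → y ∈ Cop X p := by
  induction h using ReflTransGen.head_induction_on with
  | refl => intro h1; exact absurd h1 hr
  | @head q q' hst _ ih =>
    intro h1 h2
    obtain ⟨hadj, hcase⟩ := hst
    rcases hcase with ⟨e1, hl⟩ | ⟨e1, e2, _, d2⟩
    · apply ih (e1.trans h1)
      have h3 := link_germ hadj hl
      have h4 : q' = (q.1, q'.2) := Prod.ext e1 rfl
      rw [h4]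
      exact h2.trans h3
    · by_cases hw : q.2 = y
      · refine ⟨a, ?_⟩
        refine h2.tail ⟨hadj, Or.inr ⟨hw.symm, h1.symm⟩⟩
      · have h5 : X.dist y q.2 = 1 := by
          have h6 : X.dist y q.2 ≠ 0 := by
            intro h0
            exact hw ((hX.conn.dist_eq_zero_iff.mp h0).symm)
          omega
        have h7 : X.Adj y q.2 := SimpleGraph.dist_eq_one_iff_adj.mp h5
        refine ⟨a, ?_⟩
        have hs1 : GStep X q (a, y) := ⟨hadj, Or.inl ⟨h1.symm, hya.symm, h7.symm⟩⟩
        have hs2 : GStep X (a, y) (y, a) := ⟨hya.symm, Or.inr ⟨rfl, rfl⟩⟩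
        exact (h2.tail hs1).tail hs2

/-- PROOF. Let `a ≠ b` in `Cop X p` be neighbours of `y`. `(a, x)`, `(b, x')` in the class of `p`; `germ_low_all` with `z = y`, `M = 1` gives a walk of `RStep X y 1` from `(a, x)` to `(b, x')`. Look at its first flip (there is one, since turns do not change the source and `a ≠ b`; `head_induction_on`): a turn leads to `(a, w)`, and then the flip to `(w, a)`, `w` of level `≤ 1`.
If `w = y`: `y ∈ Cop X p`. Otherwise `w ~ y`, `w ~ a`: `(a, w)` turns to `(a, y)`, flip: `(y, a)` is in the class of `p`. -/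
theorem cop_nbrClosed (hX : Bucolic X) {p : V × V} (hp : X.Adj p.1 p.2) :
    NbrClosed X (Cop X p) := by
  intro y a b ha hb hab hya hyb
  obtain ⟨x, hx⟩ := ha
  obtain ⟨x', hx'⟩ := hb
  have hax : X.Adj a x := germ_adj hp hx
  have h1 : ReflTransGen (GStep X) (a, x) (b, x') := (germ_symm hx).trans hx'
  have h2 : X.dist y a ≤ 1 := (SimpleGraph.dist_eq_one_iff_adj.mpr hya).le
  have h3 : X.dist y b ≤ 1 := (SimpleGraph.dist_eq_one_iff_adj.mpr hyb).le
  have h4 := germ_low_all hX y 1 (p := (a, x)) (q := (b, x')) hax h1 h2 h3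
  exact B9_aux hX hya (r := (b, x')) (fun h => hab h.symm) h4 rfl hx

end Pool.Agent.Lib.MP_1211f9_al.BK
end

section

/-! Campaign BK (MP_1211f9_al), task B10: germ classes are gated and have no induced squares -/

set_option autoImplicit false

namespace Pool.Agent.Lib.MP_1211f9_al.BK

open Relation

variable {V : Type*} {X : SimpleGraph V}

theorem cop_fst (p : V × V) : p.1 ∈ Cop X p := by
  exact ⟨p.2, ReflTransGen.refl⟩

theorem cop_snd {p : V × V} (hp : X.Adj p.1 p.2) : p.2 ∈ Cop X p := by
  exact ⟨p.1, ReflTransGen.single ⟨hp, Or.inr ⟨rfl, rfl⟩⟩⟩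

theorem cop_conn {p : V × V} (hp : X.Adj p.1 p.2) : SetConn X (Cop X p) := by
  have key : ∀ q : V × V, ReflTransGen (GStep X) p q →
      ReflTransGen (fun u v => X.Adj u v ∧ u ∈ Cop X p ∧ v ∈ Cop X p) p.1 q.1 := by
    intro q hq
    induction hq with
    | refl => exact ReflTransGen.refl
    | @tail q q' hq hs ih =>
      obtain ⟨hadj, ⟨h1, -⟩ | ⟨h1, h2⟩⟩ := hs
      · rw [h1]
        exact ih
      · refine ih.tail ⟨?_, ⟨q.2, hq⟩, ⟨q'.2, hq.tail ⟨hadj, Or.inr ⟨h1, h2⟩⟩⟩⟩
        rw [h1]
        exact hadj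
  have hsymm : ∀ a b, ReflTransGen (fun u v => X.Adj u v ∧ u ∈ Cop X p ∧ v ∈ Cop X p) a b →
      ReflTransGen (fun u v => X.Adj u v ∧ u ∈ Cop X p ∧ v ∈ Cop X p) b a := by
    intro a b hab
    induction hab with
    | refl => exact ReflTransGen.refl
    | tail _ hs ih => exact ReflTransGen.head ⟨hs.1.symm, hs.2.2, hs.2.1⟩ ih
  rintro a ⟨x, hx⟩ b ⟨y, hy⟩
  exact (hsymm _ _ (key _ hx)).trans (key _ hy)

/-- `chepoi`. -/
theorem cop_gated (hX : Bucolic X) {p : V × V} (hp : X.Adj p.1 p.2) : Gated X (Cop X p) := by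
  exact chepoi hX ⟨p.1, cop_fst p⟩ (cop_conn hp) (cop_nbrClosed hX hp)

/-- PROOF. A square `a b c d`: `(a, b)` and `(a, d)` are in the class (`cop_adj`), so `b` and `d` are in the same component of the link of `a` (`germ_link`), a contradiction to `square_comp`. -/
theorem cop_noSq (hX : Bucolic X) {p : V × V} (hp : X.Adj p.1 p.2) : NoSqIn X (Cop X p) := by
  intro a b c d ha hb hc hd hsq
  have h1 := cop_adj hX hp ha hb hsq.1
  have h2 := cop_adj hX hp ha hd hsq.2.2.2.1.symm
  exact square_comp hX hsq (germ_link hX hsq.1 ((germ_symm h1).trans h2))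

/-- A gated set which contains the end points of the edge `p` contains its germ class. PROOF. `gated_nbrClosed`: induction on the walk, both end points of the darts stay in `H`. -/
theorem cop_subset (hX : Bucolic X) {H : Set V} (hH : NbrClosed X H) {p : V × V}
    (hp : X.Adj p.1 p.2) (h1 : p.1 ∈ H) (h2 : p.2 ∈ H) : Cop X p ⊆ H := by
  have key : ∀ q : V × V, ReflTransGen (GStep X) p q → q.1 ∈ H ∧ q.2 ∈ H := by
    intro q hq
    induction hq with
    | refl => exact ⟨h1, h2⟩
    | @tail q q' hq hs ih =>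
      obtain ⟨hadj, ⟨e1, e2, e3⟩ | ⟨e1, e2⟩⟩ := hs
      · refine ⟨by rw [e1]; exact ih.1, ?_⟩
        rw [e1] at e2
        exact hH q'.2 q.1 q.2 ih.1 ih.2 hadj.ne e2.symm e3.symm
      · rw [e1, e2]
        exact ⟨ih.2, ih.1⟩
  rintro u ⟨x, hx⟩
  exact (key _ hx).1

end Pool.Agent.Lib.MP_1211f9_al.BK
end
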