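import Pool.Agent.Lib.MP_1211f9_al.BK.B0
import Pool.Agent.Lib.MP_1211f9_al.Mg.G001

section

/-! Campaign BK (MP_1211f9_al), task B4: gates -/

set_option autoImplicit false

namespace Pool.Agent.Lib.MP_1211f9_al.BK

open Relation

variable {V : Type*} {X : SimpleGraph V}

private theorem B4_ex {C : Set V} (hC : Gated X C) (y : V) :
    gate X C y ∈ C ∧ ∀ h ∈ C, X.dist y h = X.dist y (gate X C y) + X.dist (gate X C y) h := by
  have h := hC y
  have h1 : gate X C y = h.choose := by
    unfold gate
    rw [dif_pos h]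
  rw [h1]
  exact h.choose_spec

private theorem B4_zero (hX : X.Connected) {a b : V} (h : X.dist a b = 0) : a = b :=
  (hX.dist_eq_zero_iff).mp h

theorem gate_mem {C : Set V} (hC : Gated X C) (y : V) : gate X C y ∈ C := (B4_ex hC y).1

theorem gate_dist {C : Set V} (hC : Gated X C) (y : V) {h : V} (hh : h ∈ C) :
    X.dist y h = X.dist y (gate X C y) + X.dist (gate X C y) h := (B4_ex hC y).2 h hh

theorem gate_unique (hX : X.Connected) {C : Set V} (hC : Gated X C) {y p : V} (hp : p ∈ C)
    (h : ∀ h ∈ C, X.dist y h = X.dist y p + X.dist p h) : gate X C y = p := by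
  have h1 := gate_dist hC y hp
  have h2 := h _ (gate_mem hC y)
  exact B4_zero hX (by omega)

theorem gate_of_mem (hX : X.Connected) {C : Set V} (hC : Gated X C) {y : V} (hy : y ∈ C) :
    gate X C y = y := by
  refine gate_unique hX hC hy fun h _ => ?_
  rw [SimpleGraph.dist_self, zero_add]

theorem gate_eq_of_le (hX : X.Connected) {C : Set V} (hC : Gated X C) {y p : V} (hp : p ∈ C)
    (h : X.dist y p ≤ X.dist y (gate X C y)) : gate X C y = p := by
  have h1 := gate_dist hC y hp
  exact B4_zero hX (by omega)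

/-- If `w` is on a geodesic from `y` to its gate, then `w` has the same gate. -/
theorem gate_between (hX : X.Connected) {C : Set V} (hC : Gated X C) {y w : V}
    (h : X.dist y (gate X C y) = X.dist y w + X.dist w (gate X C y)) :
    gate X C w = gate X C y := by
  have h1 := gate_dist hC w (gate_mem hC y)
  have h2 := gate_dist hC y (gate_mem hC w)
  have h3 : X.dist y (gate X C w) ≤ X.dist y w + X.dist w (gate X C w) := hX.dist_triangle
  have h4 : X.dist (gate X C y) (gate X C w) = X.dist (gate X C w) (gate X C y) := SimpleGraph.dist_comm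
  exact B4_zero hX (by omega)

theorem gate_lip (hX : X.Connected) {C : Set V} (hC : Gated X C) (u v : V) :
    X.dist (gate X C u) (gate X C v) ≤ X.dist u v := by
  have h1 := gate_dist hC u (gate_mem hC v)
  have h2 := gate_dist hC v (gate_mem hC u)
  have h3 : X.dist u (gate X C v) ≤ X.dist u v + X.dist v (gate X C v) := hX.dist_triangle
  have h4 : X.dist v (gate X C u) ≤ X.dist v u + X.dist u (gate X C u) := hX.dist_triangle
  have h5 : X.dist (gate X C v) (gate X C u) = X.dist (gate X C u) (gate X C v) := SimpleGraph.dist_comm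
  have h6 : X.dist v u = X.dist u v := SimpleGraph.dist_comm
  omega

/-- PROOF. `d(u, gate v) = d(u, gate u) + d(gate u, gate v)` and the same with `u`, `v` exchanged. -/
theorem gate_adj (hX : X.Connected) {C : Set V} (hC : Gated X C) {u v : V} (h : X.Adj u v)
    (hne : gate X C u ≠ gate X C v) :
    X.Adj (gate X C u) (gate X C v) ∧ X.dist u (gate X C u) = X.dist v (gate X C v) := by
  have h0 : X.dist u v = 1 := SimpleGraph.dist_eq_one_iff_adj.mpr h
  have h1 := gate_dist hC u (gate_mem hC v)
  have h2 := gate_dist hC v (gate_mem hC u)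
  have h3 : X.dist u (gate X C v) ≤ X.dist u v + X.dist v (gate X C v) := hX.dist_triangle
  have h4 : X.dist v (gate X C u) ≤ X.dist v u + X.dist u (gate X C u) := hX.dist_triangle
  have h5 : X.dist (gate X C v) (gate X C u) = X.dist (gate X C u) (gate X C v) := SimpleGraph.dist_comm
  have h6 : X.dist v u = X.dist u v := SimpleGraph.dist_comm
  have h7 : X.dist (gate X C u) (gate X C v) ≠ 0 := fun h => hne (B4_zero hX h)
  refine ⟨SimpleGraph.dist_eq_one_iff_adj.mp (by omega), by omega⟩

theorem gated_convex (hX : X.Connected) {C : Set V} (hC : Gated X C) {a b c : V} (ha : a ∈ C)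
    (hb : b ∈ C) (h : X.dist a b = X.dist a c + X.dist c b) : c ∈ C := by
  have h1 := gate_dist hC c ha
  have h2 := gate_dist hC c hb
  have h3 : X.dist a b ≤ X.dist a (gate X C c) + X.dist (gate X C c) b := hX.dist_triangle
  have h4 : X.dist a (gate X C c) = X.dist (gate X C c) a := SimpleGraph.dist_comm
  have h5 : X.dist a c = X.dist c a := SimpleGraph.dist_comm
  have h6 : c = gate X C c := B4_zero hX (by omega)
  rw [h6]
  exact gate_mem hC c

theorem gated_nbrClosed (hX : X.Connected) {C : Set V} (hC : Gated X C) : NbrClosed X C := by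
  intro y a b ha hb hne hya hyb
  have h1 := gate_dist hC y ha
  have h2 := gate_dist hC y hb
  have h3 : X.dist y a = 1 := SimpleGraph.dist_eq_one_iff_adj.mpr hya
  have h4 : X.dist y b = 1 := SimpleGraph.dist_eq_one_iff_adj.mpr hyb
  have h5 : X.dist y (gate X C y) = 0 := by
    by_contra h6
    have h7 : gate X C y = a := B4_zero hX (by omega)
    have h8 : gate X C y = b := B4_zero hX (by omega)
    exact hne (h7.symm.trans h8)
  have h6 : y = gate X C y := B4_zero hX h5
  rw [h6]
  exact gate_mem hC y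

/-- The intersection of two gated sets with a common point is gated. -/
theorem gated_inter (hX : X.Connected) {C C' : Set V} (hC : Gated X C) (hC' : Gated X C')
    (h : (C ∩ C').Nonempty) : Gated X (C ∩ C') := by
  obtain ⟨h0, h0C, h0C'⟩ := h
  intro y
  have hq : gate X C' (gate X C y) ∈ C :=
    gated_convex hX hC (gate_mem hC y) h0C (gate_dist hC' (gate X C y) h0C')
  refine ⟨gate X C' (gate X C y), ⟨hq, gate_mem hC' _⟩, ?_⟩
  rintro x ⟨hxC, hxC'⟩
  have h1 := gate_dist hC y hxC
  have h2 := gate_dist hC' (gate X C y) hxC'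
  have h3 := gate_dist hC y hq
  omega

end Pool.Agent.Lib.MP_1211f9_al.BK
end

section

/-! Campaign BK (MP_1211f9_al), task B11: two neighbours with the same gate -/

set_option autoImplicit false

namespace Pool.Agent.Lib.MP_1211f9_al.BK

open Relation

variable {V : Type*} {X : SimpleGraph V}

/-- (G1). PROOF. Write `q = gate u`, `p = gate u₁ = gate u₂`, `p ≠ q`; by `gate_adj` `p ~ q` and `u, u₁, u₂` have the same distance `k` to their gates. If `k = 0`: `u₁ = p = u₂`. Let `k ≥ 1` and `u₁ ≠ u₂`. `d(p, u₁) = d(p, u₂) = k`, `d(p, u) = k + 1`. If `u₁ ~ u₂`, TC from `p`, otherwise QC from `p` with top `u`, give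
`x ~ u₁, u₂` with `d(p, x) = k - 1`. Then `gate x = p` (`gate_between` for `u₁`, `x`) and `d(q, x) = d(x, p) + 1 = k`, `d(q, u) = k`, `d(q, u₁) = d(q, u₂) = k + 1`. `u ≠ x` (different gates), `u` is not adjacent to `x` (`gate_adj`: different gates, distances `k` and `k - 1` to the gates). QC from `q` with top `u₁` gives
`w ~ u, x`, `d(q, w) = k - 1`; `w` is not adjacent to `u₁` and `w ≠ u₁`, `w ≠ u₂` (levels). So `Sq X u w x u₁` and `u₂ ~ u, x`: `FC` gives `u₂ = w` or `u₂ = u₁`. -/
theorem gate_inj (hX : Bucolic X) {C : Set V} (hC : Gated X C) {u u₁ u₂ : V} (h1 : X.Adj u u₁)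
    (h2 : X.Adj u u₂) (h : gate X C u₁ = gate X C u₂) (hne : gate X C u₁ ≠ gate X C u) :
    u₁ = u₂ := by
  have hc := hX.conn
  by_contra hu
  have hq : gate X C u ∈ C := gate_mem hC u
  have hp : gate X C u₁ ∈ C := gate_mem hC u₁
  obtain ⟨a1, a2⟩ := gate_adj hc hC h1 hne.symm
  obtain ⟨b1, b2⟩ := gate_adj hc hC h2 (by rw [← h]; exact hne.symm)
  rw [← h] at b1 b2
  -- distances
  have hk : X.dist u₁ (gate X C u₁) ≠ 0 := by
    intro h0
    rw [h0] at a2
    rw [a2] at b2
    have e1 := hc.dist_eq_zero_iff.1 h0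
    have e2 := hc.dist_eq_zero_iff.1 b2.symm
    exact hu (e1.trans e2.symm)
  obtain ⟨j, hj⟩ := Nat.exists_eq_succ_of_ne_zero hk
  have d1 : X.dist (gate X C u₁) u₁ = j + 1 := by rw [SimpleGraph.dist_comm]; exact hj
  have d2 : X.dist (gate X C u₁) u₂ = j + 1 := by
    rw [SimpleGraph.dist_comm, ← b2, a2]; exact hj
  have hpq : X.dist (gate X C u) (gate X C u₁) = 1 := SimpleGraph.dist_eq_one_iff_adj.2 a1
  have hqp : X.dist (gate X C u₁) (gate X C u) = 1 := SimpleGraph.dist_eq_one_iff_adj.2 a1.symm
  have d3 : X.dist (gate X C u₁) u = j + 2 := by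
    rw [SimpleGraph.dist_comm, gate_dist hC u hp, hpq, a2, hj]
  obtain ⟨x, hx1, hx2, hx3⟩ : ∃ x, X.Adj x u₁ ∧ X.Adj x u₂ ∧ X.dist (gate X C u₁) x = j := by
    by_cases hadj : X.Adj u₁ u₂
    · exact hX.tc (gate X C u₁) u₁ u₂ j d1 d2 hadj
    · exact hX.qc (gate X C u₁) u u₁ u₂ j d3 d1 d2 h1 h2 hu hadj
  have hgx : gate X C x = gate X C u₁ := by
    apply gate_between hc hC
    have e1 : X.dist u₁ x = 1 := SimpleGraph.dist_eq_one_iff_adj.2 hx1.symm
    have e2 : X.dist x (gate X C u₁) = j := by rw [SimpleGraph.dist_comm]; exact hx3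
    rw [e1, e2, hj]
    omega
  have hux : u ≠ x := by
    intro e
    rw [← e] at hgx
    exact hne hgx.symm
  have hnux : ¬ X.Adj u x := by
    intro hadj
    have e3 := (gate_adj hc hC hadj (by rw [hgx]; exact hne.symm)).2
    rw [hgx, a2, hj, SimpleGraph.dist_comm, hx3] at e3
    omega
  have c1 : X.dist (gate X C u) u₁ = j + 2 := by
    rw [SimpleGraph.dist_comm, gate_dist hC u₁ hq, hqp, hj]
  have c2 : X.dist (gate X C u) u = j + 1 := by
    rw [SimpleGraph.dist_comm, a2, hj]
  have c3 : X.dist (gate X C u) x = j + 1 := by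
    rw [SimpleGraph.dist_comm, gate_dist hC x hq, hgx, hqp, SimpleGraph.dist_comm, hx3]
  have c4 : X.dist (gate X C u) u₂ = j + 2 := by
    rw [SimpleGraph.dist_comm, gate_dist hC u₂ hq, ← h, hqp, ← b2, a2, hj]
  obtain ⟨w, hw1, hw2, hw3⟩ := hX.qc (gate X C u) u₁ u x j c1 c2 c3 h1.symm hx1.symm hux hnux
  have hwu1 : w ≠ u₁ := by
    rintro rfl
    omega
  have hwu2 : w ≠ u₂ := by
    rintro rfl
    omega
  have hnw : ¬ X.Adj w u₁ := by
    intro hadj
    have := dist_le_succ hc (gate X C u) hadj.symm
    omega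
  have hsq : Sq X u w x u₁ := ⟨hw1.symm, hw2, hx1, h1.symm, hux, hwu1, hnux, hnw⟩
  rcases hX.fc u w x u₁ u₂ hsq h2.symm hx2.symm with e | e
  · exact hwu2 e.symm
  · exact hu e.symm

end Pool.Agent.Lib.MP_1211f9_al.BK
end

section

/-! Campaign BK (MP_1211f9_al), task B12: gates of triangles and squares -/

set_option autoImplicit false

namespace Pool.Agent.Lib.MP_1211f9_al.BK

open Relation

variable {V : Type*} {X : SimpleGraph V}

/-- PROOF. `gate_inj` with centre `v` (if `gate w = gate u`) and with centre `u` (if `gate w = gate v`). -/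
theorem gate_tri (hX : Bucolic X) {C : Set V} (hC : Gated X C) {u v w : V} (h1 : X.Adj u v)
    (h2 : X.Adj u w) (h3 : X.Adj v w) (hne : gate X C u ≠ gate X C v) :
    gate X C u ≠ gate X C w ∧ gate X C v ≠ gate X C w := by
  constructor
  · intro e
    exact h2.ne (gate_inj hX hC h1.symm h3 e hne)
  · intro e
    exact h3.ne (gate_inj hX hC h1 h2 e (Ne.symm hne))

private theorem B12_aux (hX : Bucolic X) {C : Set V} (hC : Gated X C) (hS : NoSqIn X C)
    {a b c d : V} (h : Sq X a b c d) (hne : gate X C a ≠ gate X C b) :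
    gate X C c = gate X C b := by
  obtain ⟨hab, hbc, hcd, hda, hac, hbd, nac, nbd⟩ := h
  by_contra hBG
  have hconn := hX.conn
  obtain ⟨aAB, kAB⟩ := gate_adj hconn hC hab hne
  obtain ⟨aBG, kBG⟩ := gate_adj hconn hC hbc (fun e => hBG e.symm)
  have hAG : gate X C a ≠ gate X C c := fun e =>
    hac (gate_inj hX hC hab.symm hbc e hne)
  have mA := gate_mem hC a
  have mB := gate_mem hC b
  have mG := gate_mem hC c
  have mE := gate_mem hC d
  by_cases aAG : X.Adj (gate X C a) (gate X C c)
  · -- case (i)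
    have e1 := gate_dist hC b mA
    have e2 := gate_dist hC c mA
    have e3 : X.dist (gate X C b) (gate X C a) = 1 := SimpleGraph.dist_eq_one_iff_adj.2 aAB.symm
    have e4 : X.dist (gate X C c) (gate X C a) = 1 := SimpleGraph.dist_eq_one_iff_adj.2 aAG.symm
    obtain ⟨x, hxb, hxc, hx⟩ := hX.tc (gate X C a) b c (X.dist b (gate X C b))
      (by rw [SimpleGraph.dist_comm]; omega) (by rw [SimpleGraph.dist_comm]; omega) hbc
    have e5 := gate_dist hC x mA
    rw [SimpleGraph.dist_comm (u := x) (v := gate X C a), hx] at e5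
    by_cases hxB : gate X C x = gate X C b
    · have hxG : gate X C x ≠ gate X C c := by
        rw [hxB]
        exact fun e => hBG e.symm
      obtain ⟨-, e6⟩ := gate_adj hconn hC hxc hxG
      rw [hxB] at e5 e6
      omega
    · obtain ⟨-, e6⟩ := gate_adj hconn hC hxb hxB
      have e7 : X.dist (gate X C x) (gate X C a) = 0 := by omega
      have e8 : gate X C x = gate X C a := (hconn.dist_eq_zero_iff).1 e7
      have e9 : a = x := gate_inj hX hC hab.symm hxb.symm e8.symm hne
      rw [← e9] at hxc
      exact nac hxc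
  · -- case (ii)
    have hEA : gate X C d ≠ gate X C a := by
      intro e
      have hdc : gate X C d ≠ gate X C c := by
        rw [e]
        exact hAG
      obtain ⟨h1, -⟩ := gate_adj hconn hC hcd.symm hdc
      rw [e] at h1
      exact aAG h1
    obtain ⟨aEA, kEA⟩ := gate_adj hconn hC hda hEA
    have hEG : gate X C d ≠ gate X C c := by
      intro e
      rw [e] at aEA
      exact aAG aEA.symm
    obtain ⟨aEG, -⟩ := gate_adj hconn hC hcd.symm hEG
    have hEB : gate X C d ≠ gate X C b := by
      intro e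
      exact hbd (gate_inj hX hC hab hda.symm e.symm (Ne.symm hne))
    have aEB : X.Adj (gate X C d) (gate X C b) := by
      by_contra hn
      exact hS _ _ _ _ mA mB mG mE ⟨aAB, aBG, aEG.symm, aEA, hAG, hEB.symm, aAG,
        fun h => hn h.symm⟩
    have e1 := gate_dist hC a mE
    have e2 := gate_dist hC b mE
    have e3 : X.dist (gate X C a) (gate X C d) = 1 := SimpleGraph.dist_eq_one_iff_adj.2 aEA.symm
    have e4 : X.dist (gate X C b) (gate X C d) = 1 := SimpleGraph.dist_eq_one_iff_adj.2 aEB.symm
    obtain ⟨x, hxa, hxb, hx⟩ := hX.tc (gate X C d) a b (X.dist b (gate X C b))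
      (by rw [SimpleGraph.dist_comm]; omega) (by rw [SimpleGraph.dist_comm]; omega) hab
    have e5 := gate_dist hC x mE
    rw [SimpleGraph.dist_comm (u := x) (v := gate X C d), hx] at e5
    by_cases hxB : gate X C x = gate X C b
    · have hxA : gate X C x ≠ gate X C a := by
        rw [hxB]
        exact Ne.symm hne
      obtain ⟨-, e6⟩ := gate_adj hconn hC hxa hxA
      rw [hxB] at e5 e6
      omega
    · obtain ⟨-, e6⟩ := gate_adj hconn hC hxb hxB
      have e7 : X.dist (gate X C x) (gate X C d) = 0 := by omega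
      have e8 : gate X C x = gate X C d := (hconn.dist_eq_zero_iff).1 e7
      have e9 : x = d := gate_inj hX hC hxa.symm hda.symm e8 (by rw [e8]; exact hEA)
      rw [e9] at hxb
      exact nbd hxb.symm

/-- PROOF (for the gate of `c`; the second claim follows with `sq_flip`, `sq_rot`, exchanging `a` and `b`). Gates `A, B, G, E` of `a, b, c, d`; `A ~ B`; `k` the distance of `a` and of `b` to their gates. Suppose `B ≠ G`. Then `B ~ G`, `c` has the distance `k` to its gate, and `A ≠ G` (`gate_inj` with centre `b`: `a ≠ c`).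
(i) `A ~ G`: `d(A, b) = d(A, c) = k + 1`, TC from `A` gives `x ~ b, c` with `d(A, x) = k`. If `gate x = B`: `d(x, gate x) = k - 1` (`d(x, A) = d(x, B) + 1`), but `x ~ c`, different gates: it is `k`. Contradiction. So `gate x ≠ B`, `x` has the distance `k` to its gate, `d(x, A) = k`, so `gate x = A`;
`gate_inj` with centre `b`: `x = a`, so `a ~ c`, a contradiction. (ii) `A, G` not adjacent: `d ~ a`, `d ~ c` give (`gate_adj`) `E ~ A` and `E ~ G` (`E = A` would give `A = G` or `A ~ G`, etc.). If `E = B`: `gate_inj` with centre `a` gives `d = b`, a contradiction. If `E ≠ B`: `E ~ B`, otherwise `Sq X A B G E` inside `C`.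
Then `d(E, a) = d(E, b) = k + 1`, TC from `E` gives `x ~ a, b` with `d(E, x) = k`; as before `gate x = E` (if `gate x = B` then `d(x, gate x) = k - 1`, but `gate x ≠ A`, `x ~ a` give `k`); `gate_inj` with centre `a`: `x = d`, so `d ~ b`, a contradiction. -/
theorem gate_sq (hX : Bucolic X) {C : Set V} (hC : Gated X C) (hS : NoSqIn X C) {a b c d : V}
    (h : Sq X a b c d) (hne : gate X C a ≠ gate X C b) :
    gate X C c = gate X C b ∧ gate X C d = gate X C a :=
  ⟨B12_aux hX hC hS h hne, B12_aux hX hC hS (sq_flip (sq_rot h)) (Ne.symm hne)⟩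

end Pool.Agent.Lib.MP_1211f9_al.BK
end

section

/-! Campaign BK (MP_1211f9_al), task B0c: classes of edges -/

set_option autoImplicit false

namespace Pool.Agent.Lib.MP_1211f9_al.BK

open Relation

variable {V : Type*} {X : SimpleGraph V}

theorem cl_flip {u v : V} (h : X.Adj u v) : cl X u v h = cl X v u h.symm := by
  exact Quot.sound (Or.inl ⟨rfl, rfl⟩)

theorem cl_tri {u v w : V} (h1 : X.Adj u v) (h2 : X.Adj u w) (h3 : X.Adj v w) :
    cl X u v h1 = cl X u w h2 := by
  exact Quot.sound (Or.inr (Or.inl ⟨rfl, h3⟩))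

/-- Opposite edges of an induced square. -/
theorem cl_sq {a b c d : V} (h : Sq X a b c d) (h1 : X.Adj a b) (h2 : X.Adj d c) :
    cl X a b h1 = cl X d c h2 := by
  exact Quot.sound (Or.inr (Or.inr h))

/-- A property of edges which is preserved by the elementary steps is preserved in a class. PROOF. `Quot.lift` to `Prop` (each elementary step can be reversed, `propext`), or `Quot.eqvGen_exact` and induction. -/
theorem cl_invariant (P : V → V → Prop) (hflip : ∀ u v, X.Adj u v → P u v → P v u)
    (htri : ∀ u v w, X.Adj u v → X.Adj u w → X.Adj v w → P u v → P u w)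
    (hsq : ∀ a b c d, Sq X a b c d → P a b → P d c) {u v u' v' : V} (h : X.Adj u v)
    (h' : X.Adj u' v') (e : cl X u v h = cl X u' v' h') (hP : P u v) : P u' v' := by
  have key : ∀ d e : X.Dart, Relation.EqvGen
      (fun d e : X.Dart => EStep X (d.fst, d.snd) (e.fst, e.snd)) d e →
      (P d.fst d.snd ↔ P e.fst e.snd) := by
    intro d e hde
    induction hde with
    | rel d e hr =>
      have hd := d.adj
      have he := e.adj
      rcases hr with ⟨h1, h2⟩ | ⟨h1, h2⟩ | h1
      · have h1' : e.fst = d.snd := h1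
        have h2' : e.snd = d.fst := h2
        rw [h1', h2']
        exact ⟨hflip _ _ hd, hflip _ _ hd.symm⟩
      · have h1' : e.fst = d.fst := h1
        have h2' : X.Adj d.snd e.snd := h2
        have he' : X.Adj d.fst e.snd := by
          rw [← h1']
          exact he
        rw [h1']
        exact ⟨htri _ _ _ hd he' h2', htri _ _ _ he' hd h2'.symm⟩
      · have h1' : Sq X d.fst d.snd e.snd e.fst := h1
        obtain ⟨a1, a2, a3, a4, a5, a6, a7, a8⟩ := h1'
        exact ⟨hsq _ _ _ _ ⟨a1, a2, a3, a4, a5, a6, a7, a8⟩,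
          hsq _ _ _ _ ⟨a3.symm, a2.symm, a1.symm, a4.symm, a6.symm, a5.symm,
            fun h => a8 h.symm, fun h => a7 h.symm⟩⟩
    | refl d => exact Iff.rfl
    | symm d e _ ih => exact ih.symm
    | trans d e f _ _ ih1 ih2 => exact ih1.trans ih2
  exact (key _ _ (Quot.eqvGen_exact e)).1 hP

/-- A germ walk stays in the class of edges. -/
theorem germ_cl {p q : V × V} (hp : X.Adj p.1 p.2) (hq : X.Adj q.1 q.2)
    (h : ReflTransGen (GStep X) p q) : cl X p.1 p.2 hp = cl X q.1 q.2 hq := by
  induction h with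
  | refl => rfl
  | @tail b c _ hbc ih =>
    have hb : X.Adj b.1 b.2 := hbc.1
    refine (ih hb).trans ?_
    rcases hbc.2 with ⟨h1, h2, h3⟩ | ⟨h1, h2⟩
    · have h4 : X.Adj b.1 c.2 := by
        rw [← h1]
        exact h2
      refine (cl_tri hb h4 h3).trans ?_
      congr 1
      exact h1.symm
    · refine (cl_flip hb).trans ?_
      congr 1
      · exact h1.symm
      · exact h2.symm

theorem src_adj (i : Cls X) : X.Adj (src X i) (tgt X i) := by
  exact (Quot.out i).adj

theorem cl_src (i : Cls X) : cl X (src X i) (tgt X i) (src_adj i) = i := by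
  exact Quot.out_eq i

end Pool.Agent.Lib.MP_1211f9_al.BK
end

section

/-! Campaign BK (MP_1211f9_al), task B13: an edge with different gates is parallel to an edge of the gated set -/

set_option autoImplicit false

namespace Pool.Agent.Lib.MP_1211f9_al.BK

open Relation

variable {V : Type*} {X : SimpleGraph V}

private theorem B13_aux (hX : Bucolic X) {C : Set V} (hC : Gated X C) {A B : V} (hAB : X.Adj A B) (k : ℕ) :
    ∀ (u v : V) (h : X.Adj u v), gate X C u = A → gate X C v = B → X.dist u A = k → cl X u v h = cl X A B hAB := by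
  induction k with
  | zero =>
    intro u v h hu hv hk
    have hne : gate X C u ≠ gate X C v := by
      rw [hu, hv]
      exact hAB.ne
    have h2 := (gate_adj hX.conn hC h hne).2
    rw [hu, hv, hk] at h2
    have e1 : u = A := (hX.conn.dist_eq_zero_iff).1 hk
    have e2 : v = B := (hX.conn.dist_eq_zero_iff).1 h2.symm
    subst e1
    subst e2
    rfl
  | succ k ih =>
    intro u v h hu hv hk
    have hne : gate X C u ≠ gate X C v := by
      rw [hu, hv]
      exact hAB.ne
    have hvB := (gate_adj hX.conn hC h hne).2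
    rw [hu, hv, hk] at hvB
    have hBC : B ∈ C := hv ▸ gate_mem hC v
    have hAB1 : X.dist A B = 1 := SimpleGraph.dist_eq_one_iff_adj.2 hAB
    obtain ⟨x, hux, hAx⟩ := exists_closer hX.conn (x := A) (y := u) (k := k) (by rw [SimpleGraph.dist_comm]; exact hk)
    have hux1 : X.dist u x = 1 := SimpleGraph.dist_eq_one_iff_adj.2 hux
    have hxA : X.dist x A = k := by rw [SimpleGraph.dist_comm]; exact hAx
    have hgx : gate X C x = A := by
      rw [← hu]
      refine gate_between hX.conn hC ?_
      rw [hu, hk, hux1, hxA]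
      omega
    have hxv : ¬ X.Adj x v := by
      intro hxv
      have hne2 : gate X C x ≠ gate X C v := by
        rw [hgx, hv]
        exact hAB.ne
      have h3 := (gate_adj hX.conn hC hxv hne2).2
      rw [hgx, hv, hxA, ← hvB] at h3
      omega
    have hxv' : x ≠ v := by
      intro e
      rw [e, hv] at hgx
      exact hAB.ne hgx.symm
    have d1 : X.dist B u = k + 2 := by
      rw [SimpleGraph.dist_comm, gate_dist hC u hBC, hu, hk, hAB1]
    have d2 : X.dist B v = k + 1 := by
      rw [SimpleGraph.dist_comm]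
      exact hvB.symm
    have d3 : X.dist B x = k + 1 := by
      rw [SimpleGraph.dist_comm, gate_dist hC x hBC, hgx, hxA, hAB1]
    obtain ⟨y, hyv, hyx, hBy⟩ := hX.qc B u v x k d1 d2 d3 h hux hxv'.symm (fun h5 => hxv h5.symm)
    have hgy : gate X C y = B := by
      rw [← hv]
      refine gate_between hX.conn hC ?_
      rw [hv, ← hvB, SimpleGraph.dist_eq_one_iff_adj.2 hyv.symm, SimpleGraph.dist_comm, hBy]
      omega
    have hsq : Sq X u v y x := by
      refine ⟨h, hyv.symm, hyx, hux.symm, ?_, hxv'.symm, ?_, fun h5 => hxv h5.symm⟩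
      · intro e
        rw [← e, d1] at hBy
        omega
      · intro h5
        have := dist_le_succ hX.conn B h5
        omega
    rw [cl_sq hsq h hyx.symm]
    exact ih x y hyx.symm hgx hgy hxA

/-- PROOF. Induction on `k`, the common distance of `u` and `v` to their gates `A`, `B` (`gate_adj`). `k = 0`: `u = A`, `v = B` (generalise the two gates before substituting). `k ≥ 1`: `x ~ u` with `d(x, A) = k - 1` (`exists_closer` from `A`), so `gate x = A` (`gate_between`), `x` not adjacent to `v` and `x ≠ v` (`gate_adj`: the distances to the gates are `k - 1` and `k`).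
`d(B, u) = k + 1`, `d(B, v) = k`, `d(B, x) = k`: QC from `B` with top `u` gives `y ~ v, x` with `d(B, y) = k - 1`; so `gate y = B` (`gate_between` for `v`). `Sq X u v y x` (`u` and `y` have levels `k + 1`, `k - 1` from `B`): `cl u v = cl x y` (`cl_sq`), and induction for the edge `x y` with the same gates `A`, `B`. -/
theorem chain (hX : Bucolic X) {C : Set V} (hC : Gated X C) {u v : V} (h : X.Adj u v)
    (hne : gate X C u ≠ gate X C v) (h' : X.Adj (gate X C u) (gate X C v)) :
    cl X u v h = cl X (gate X C u) (gate X C v) h' := by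
  exact B13_aux hX hC h' _ u v h rfl rfl rfl

end Pool.Agent.Lib.MP_1211f9_al.BK
end

section

/-! Campaign BK (MP_1211f9_al), task B14: the class of an edge is the set of the edges with different gates -/

set_option autoImplicit false

namespace Pool.Agent.Lib.MP_1211f9_al.BK

open Relation

variable {V : Type*} {X : SimpleGraph V}

/-- PROOF. Left to right: `cl_invariant` for `P u v = (gate u ≠ gate v)` (`gate_tri`, `gate_sq` with `cop_gated`, `cop_noSq`), starting at `p` (`gate_of_mem`). Right to left: `chain`, then `cop_adj` and `germ_cl`. -/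
theorem cl_eq_iff (hX : Bucolic X) {p : V × V} (hp : X.Adj p.1 p.2) {u v : V} (h : X.Adj u v) :
    cl X u v h = cl X p.1 p.2 hp ↔ gate X (Cop X p) u ≠ gate X (Cop X p) v := by
  have hC : Gated X (Cop X p) := cop_gated hX hp
  have hS : NoSqIn X (Cop X p) := cop_noSq hX hp
  constructor
  · intro e
    refine cl_invariant (X := X) (fun a b => gate X (Cop X p) a ≠ gate X (Cop X p) b) ?_ ?_ ?_ hp h e.symm ?_
    · intro a b _ hne
      exact hne.symm
    · intro a b c h1 h2 h3 hne
      exact (gate_tri hX hC h1 h2 h3 hne).1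
    · intro a b c d hsq hne
      obtain ⟨h1, h2⟩ := gate_sq hX hC hS hsq hne
      show gate X (Cop X p) d ≠ gate X (Cop X p) c
      rw [h1, h2]
      exact hne
    · show gate X (Cop X p) p.1 ≠ gate X (Cop X p) p.2
      rw [gate_of_mem hX.conn hC (cop_fst p), gate_of_mem hX.conn hC (cop_snd hp)]
      exact hp.ne
  · intro hne
    have h' := (gate_adj hX.conn hC h hne).1
    rw [chain hX hC h hne h']
    exact (germ_cl hp h' (cop_adj hX hp (gate_mem hC u) (gate_mem hC v) h')).symm

end Pool.Agent.Lib.MP_1211f9_al.BK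
end

section

/-! Campaign BK (MP_1211f9_al), task B15: sectors do not depend on the copy -/

set_option autoImplicit false

namespace Pool.Agent.Lib.MP_1211f9_al.BK

open Relation

variable {V : Type*} {X : SimpleGraph V}

private theorem B15_step (hX : Bucolic X) {p : V × V} (hp : X.Adj p.1 p.2) (a b : V) :
    (∃ h : X.Adj a b, cl X a b h ≠ cl X p.1 p.2 hp) ↔
      X.Adj a b ∧ gate X (Cop X p) a = gate X (Cop X p) b := by
  constructor
  · rintro ⟨h, hne⟩
    refine ⟨h, ?_⟩
    by_contra hg
    exact hne ((cl_eq_iff hX hp h).2 hg)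
  · rintro ⟨h, hg⟩
    exact ⟨h, fun e => (cl_eq_iff hX hp h).1 e hg⟩

private theorem B15_symm (hX : Bucolic X) {p : V × V} (hp : X.Adj p.1 p.2) :
    ∀ a b : V, (∃ h : X.Adj a b, cl X a b h ≠ cl X p.1 p.2 hp) →
      ∃ h : X.Adj b a, cl X b a h ≠ cl X p.1 p.2 hp := by
  intro a b h
  obtain ⟨h1, h2⟩ := (B15_step hX hp a b).1 h
  exact (B15_step hX hp b a).2 ⟨h1.symm, h2.symm⟩

private theorem B15_rsymm {α : Type*} {r : α → α → Prop} (hr : ∀ a b, r a b → r b a) {a b : α}
    (h : ReflTransGen r a b) : ReflTransGen r b a := by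
  induction h with
  | refl => exact ReflTransGen.refl
  | tail _ h2 ih => exact ReflTransGen.head (hr _ _ h2) ih

private theorem B15_down (hX : Bucolic X) {p : V × V} (hp : X.Adj p.1 p.2) (n : ℕ) :
    ∀ x : V, X.dist x (gate X (Cop X p) x) = n →
      ReflTransGen (fun a b => ∃ h : X.Adj a b, cl X a b h ≠ cl X p.1 p.2 hp) x
        (gate X (Cop X p) x) := by
  have hC := cop_gated hX hp
  induction n with
  | zero =>
    intro x hx
    have h1 := (hX.conn.dist_eq_zero_iff).1 hx
    rw [← h1]
  | succ n ih =>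
    intro x hx
    have hx' : X.dist (gate X (Cop X p) x) x = n + 1 := by rw [SimpleGraph.dist_comm]; exact hx
    obtain ⟨w, hw1, hw2⟩ := exists_closer hX.conn hx'
    have h1 : X.dist x w = 1 := SimpleGraph.dist_eq_one_iff_adj.2 hw1
    have h2 : X.dist w (gate X (Cop X p) x) = n := by rw [SimpleGraph.dist_comm]; exact hw2
    have h3 : gate X (Cop X p) w = gate X (Cop X p) x := gate_between hX.conn hC (by omega)
    have h4 := ih w (by rw [h3]; exact h2)
    rw [h3] at h4
    exact ReflTransGen.head ((B15_step hX hp x w).2 ⟨hw1, h3.symm⟩) h4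

/-- PROOF. Left to right: every vertex on a geodesic from `x` to `A = gate x` has the gate `A` (`gate_between`; induction on the distance with `exists_closer`), so its edges are not in the class (`cl_eq_iff`); the same for `y`; the relation is symmetric. Right to left: induction on the walk, `cl_eq_iff`. -/
theorem sector_conn (hX : Bucolic X) {p : V × V} (hp : X.Adj p.1 p.2) (x y : V) :
    gate X (Cop X p) x = gate X (Cop X p) y ↔
      ReflTransGen (fun a b => ∃ h : X.Adj a b, cl X a b h ≠ cl X p.1 p.2 hp) x y := by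
  constructor
  · intro h
    have h1 := B15_down hX hp _ x rfl
    have h2 := B15_down hX hp _ y rfl
    rw [← h] at h2
    exact h1.trans (B15_rsymm (B15_symm hX hp) h2)
  · intro h
    induction h with
    | refl => rfl
    | tail _ h2 ih => exact ih.trans ((B15_step hX hp _ _).1 h2).2

theorem CC_gated (hX : Bucolic X) (i : Cls X) : Gated X (CC X i) :=
  cop_gated hX (p := (src X i, tgt X i)) (src_adj i)

theorem CC_noSq (hX : Bucolic X) (i : Cls X) : NoSqIn X (CC X i) :=
  cop_noSq hX (p := (src X i, tgt X i)) (src_adj i)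

private theorem B15_cls (i : Cls X) :
    cl X (src X i, tgt X i).1 (src X i, tgt X i).2 (src_adj i) = i := cl_src i

private theorem B15_sec (hX : Bucolic X) (i : Cls X) (x y : V) :
    Sec X i x y ↔ ReflTransGen (fun a b => ∃ h : X.Adj a b, cl X a b h ≠ i) x y := by
  have h := sector_conn hX (p := (src X i, tgt X i)) (src_adj i) x y
  rw [B15_cls i] at h
  exact h

/-- PROOF. `sector_conn` for `p` and for `(src i, tgt i)`, `cl_src`. -/
theorem sec_iff (hX : Bucolic X) {p : V × V} (hp : X.Adj p.1 p.2) (x y : V) :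
    Sec X (cl X p.1 p.2 hp) x y ↔ gate X (Cop X p) x = gate X (Cop X p) y := by
  rw [sector_conn hX hp x y]
  exact B15_sec hX _ x y

/-- PROOF. `cl_eq_iff` for `(src i, tgt i)`, `cl_src`. -/
theorem cl_eq_iff_sec (hX : Bucolic X) (i : Cls X) {u v : V} (h : X.Adj u v) :
    cl X u v h = i ↔ ¬ Sec X i u v := by
  have h1 := cl_eq_iff hX (p := (src X i, tgt X i)) (src_adj i) h
  rw [B15_cls i] at h1
  exact h1

theorem sec_rho (hX : Bucolic X) (i : Cls X) (x : V) : Sec X i (rho X i x) x :=
  gate_of_mem hX.conn (CC_gated hX i) (gate_mem (CC_gated hX i) x)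

/-- PROOF. Let `ρ` be the gate map to `Cop X p`, `ρ'` the one to `CC X i`. `x` and `ρ x` have the same `ρ`, so the same sector (`sec_iff`), so the same `ρ'`; `d(ρ' x, ρ' y) = d(ρ' (ρ x), ρ' (ρ y)) ≤ d(ρ x, ρ y)` (`gate_lip`), and conversely. -/
theorem NN_eq (hX : Bucolic X) {p : V × V} (hp : X.Adj p.1 p.2) (x y : V) :
    NN X (cl X p.1 p.2 hp) x y = X.dist (gate X (Cop X p) x) (gate X (Cop X p) y) := by
  have hC := cop_gated hX hp
  have h1 : ∀ z, rho X (cl X p.1 p.2 hp) (gate X (Cop X p) z) = rho X (cl X p.1 p.2 hp) z :=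
    fun z => (sec_iff hX hp (gate X (Cop X p) z) z).2
      (gate_of_mem hX.conn hC (gate_mem hC z))
  have h2 : ∀ z, gate X (Cop X p) (rho X (cl X p.1 p.2 hp) z) = gate X (Cop X p) z :=
    fun z => (sec_iff hX hp (rho X (cl X p.1 p.2 hp) z) z).1 (sec_rho hX _ z)
  refine le_antisymm ?_ ?_
  · have h3 := gate_lip hX.conn (CC_gated hX (cl X p.1 p.2 hp)) (gate X (Cop X p) x)
      (gate X (Cop X p) y)
    have h4 : X.dist (rho X (cl X p.1 p.2 hp) (gate X (Cop X p) x))
        (rho X (cl X p.1 p.2 hp) (gate X (Cop X p) y)) ≤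
        X.dist (gate X (Cop X p) x) (gate X (Cop X p) y) := h3
    rw [h1, h1] at h4
    exact h4
  · have h3 := gate_lip hX.conn hC (rho X (cl X p.1 p.2 hp) x) (rho X (cl X p.1 p.2 hp) y)
    rw [h2, h2] at h3
    exact h3

end Pool.Agent.Lib.MP_1211f9_al.BK
end

section

/-! Campaign BK (MP_1211f9_al), task B24: Helly property -/

set_option autoImplicit false

namespace Pool.Agent.Lib.MP_1211f9_al.BK

open Relation

variable {V : Type*} {X : SimpleGraph V}

/-- PROOF. `Finset.induction`: `v` in all `A i`, `i ∈ s`; new set `B`: `p = gate X B v`. For `i ∈ s` take `z ∈ A i ∩ B`: `d(v, z) = d(v, p) + d(p, z)`, so `p ∈ A i` by `gated_convex`. -/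
theorem helly (hX : X.Connected) {ι : Type*} (s : Finset ι) (A : ι → Set V)
    (hne : s.Nonempty) (hg : ∀ i ∈ s, Gated X (A i))
    (hi : ∀ i ∈ s, ∀ j ∈ s, (A i ∩ A j).Nonempty) : ∃ v, ∀ i ∈ s, v ∈ A i := by
  classical
  induction s using Finset.induction_on with
  | empty => exact absurd hne Finset.not_nonempty_empty
  | insert B s hB ih =>
    rcases s.eq_empty_or_nonempty with hs | hs
    · obtain ⟨v, hv⟩ := hi B (Finset.mem_insert_self _ _) B (Finset.mem_insert_self _ _)
      refine ⟨v, ?_⟩
      intro i h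
      rcases Finset.mem_insert.mp h with h1 | h1
      · rw [h1]
        exact hv.1
      · rw [hs] at h1
        exact absurd h1 (Finset.notMem_empty i)
    · obtain ⟨v, hv⟩ := ih hs (fun i h => hg i (Finset.mem_insert_of_mem h))
        (fun i h j h' => hi i (Finset.mem_insert_of_mem h) j (Finset.mem_insert_of_mem h'))
      have hgB := hg B (Finset.mem_insert_self _ _)
      refine ⟨gate X (A B) v, ?_⟩
      intro i h
      rcases Finset.mem_insert.mp h with h1 | h1
      · rw [h1]
        exact gate_mem hgB v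
      · obtain ⟨z, hz1, hz2⟩ := hi i h B (Finset.mem_insert_self _ _)
        have hd := gate_dist hgB v hz2
        exact gated_convex hX (hg i h) (hv i h1) hz1 hd

end Pool.Agent.Lib.MP_1211f9_al.BK
end

section

/-! Campaign BK (MP_1211f9_al), task Y1: the induced graph of a gated set -/

set_option autoImplicit false

namespace Pool.Agent.Lib.MP_1211f9_al.BK

open Relation

variable {V : Type*} {X : SimpleGraph V}

private theorem Y1_walk (hX : X.Connected) {C : Set V} (hC : Gated X C) (n : ℕ) :
    ∀ a b : C, X.dist a b = n → ∃ w : (X.induce C).Walk a b, w.length = n := by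
  induction n with
  | zero =>
    intro a b h
    have h1 : a = b := Subtype.ext (hX.dist_eq_zero_iff.mp h)
    subst h1
    exact ⟨SimpleGraph.Walk.nil, rfl⟩
  | succ n ih =>
    intro a b h
    obtain ⟨w, hw1, hw2⟩ := exists_closer hX h
    have h1 : X.dist w (b : V) = 1 := SimpleGraph.dist_eq_one_iff_adj.mpr hw1.symm
    have h2 : w ∈ C := gated_convex hX hC a.2 b.2 (by omega)
    obtain ⟨p, hp⟩ := ih a ⟨w, h2⟩ hw2
    have h3 : (X.induce C).Adj (⟨w, h2⟩ : C) b := hw1.symm
    refine ⟨p.append (SimpleGraph.Walk.cons h3 SimpleGraph.Walk.nil), ?_⟩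
    rw [SimpleGraph.Walk.length_append, hp]
    rfl

theorem induce_dist (hX : X.Connected) {C : Set V} (hC : Gated X C) (a b : C) :
    (X.induce C).dist a b = X.dist a b := by
  obtain ⟨w, hw⟩ := Y1_walk hX hC _ a b rfl
  apply le_antisymm
  · rw [← hw]
    exact SimpleGraph.dist_le w
  · obtain ⟨p, hp⟩ := (SimpleGraph.Walk.reachable w).exists_walk_length_eq_dist
    have h1 : X.dist (a : V) (b : V) ≤ (p.map (SimpleGraph.Embedding.induce C).toHom).length :=
      SimpleGraph.dist_le _
    rw [SimpleGraph.Walk.length_map, hp] at h1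
    exact h1

/-- `V` is not empty since `X` is connected, so `C` is not empty. -/
theorem induce_conn (hX : X.Connected) {C : Set V} (hC : Gated X C) : (X.induce C).Connected := by
  obtain ⟨v⟩ := hX.nonempty
  obtain ⟨p, hp, _⟩ := hC v
  have : Nonempty C := ⟨⟨p, hp⟩⟩
  refine SimpleGraph.Connected.mk fun a b => ?_
  obtain ⟨w, _⟩ := Y1_walk hX hC _ a b rfl
  exact w.reachable

/-- PROOF. The vertex `w` given by TC in `X` has two distinct neighbours `u, v` in `C`: `gated_nbrClosed`. -/
theorem induce_tc (hX : Bucolic X) {C : Set V} (hC : Gated X C) : TC (X.induce C) := by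
  intro x u v k h1 h2 h3
  rw [induce_dist hX.conn hC] at h1 h2
  have h3' : X.Adj (u : V) v := h3
  obtain ⟨w, hw1, hw2, hw3⟩ := hX.tc x u v k h1 h2 h3'
  have hw : w ∈ C := gated_nbrClosed hX.conn hC w u v u.2 v.2 h3'.ne hw1 hw2
  refine ⟨⟨w, hw⟩, hw1, hw2, ?_⟩
  rw [induce_dist hX.conn hC]
  exact hw3

theorem induce_qc (hX : Bucolic X) {C : Set V} (hC : Gated X C) : QC (X.induce C) := by
  intro x z u v k h0 h1 h2 h3 h4 h5 h6
  rw [induce_dist hX.conn hC] at h0 h1 h2
  have h5' : (u : V) ≠ v := fun h => h5 (Subtype.ext h)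
  have h3' : X.Adj (z : V) u := h3
  have h4' : X.Adj (z : V) v := h4
  have h6' : ¬ X.Adj (u : V) v := h6
  obtain ⟨w, hw1, hw2, hw3⟩ := hX.qc x z u v k h0 h1 h2 h3' h4' h5' h6'
  have hw : w ∈ C := gated_nbrClosed hX.conn hC w u v u.2 v.2 h5' hw1 hw2
  refine ⟨⟨w, hw⟩, hw1, hw2, ?_⟩
  rw [induce_dist hX.conn hC]
  exact hw3

theorem induce_noSq {C : Set V} (hS : NoSqIn X C) (a b c d : C) : ¬ Sq (X.induce C) a b c d := by
  rintro ⟨h1, h2, h3, h4, h5, h6, h7, h8⟩
  exact hS a b c d a.2 b.2 c.2 d.2 ⟨h1, h2, h3, h4, fun h => h5 (Subtype.ext h),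
    fun h => h6 (Subtype.ext h), h7, h8⟩

end Pool.Agent.Lib.MP_1211f9_al.BK
end
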