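import Pool.Agent.Lib.MP_1211f9_al.BK.Defs
import Pool.Agent.Lib.MP_1211f9_al.BK.Y0

section

/-! Campaign BK (MP_1211f9_al), task W1: betweenness -/

set_option autoImplicit false

namespace Pool.Agent.Lib.MP_1211f9_al.BK

open Relation

variable {G V I : Type*} [Group G] [MulAction G V] [MulAction G I]

theorem WS.S_act_iff (W : WS G V I) (g : G) (i : I) (x y : V) :
    W.S (g • i) (g • x) (g • y) ↔ W.S i x y := by
  refine ⟨fun h => ?_, W.S_act g i x y⟩
  have := W.S_act g⁻¹ _ _ _ h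
  rwa [inv_smul_smul, inv_smul_smul, inv_smul_smul] at this

theorem WS.Cr_act_iff (W : WS G V I) (g : G) (i j : I) : W.Cr (g • i) (g • j) ↔ W.Cr i j := by
  refine ⟨fun h => ?_, W.Cr_act g i j⟩
  have := W.Cr_act g⁻¹ _ _ h
  rwa [inv_smul_smul, inv_smul_smul] at this

theorem WS.sep_act (W : WS G V I) (g : G) (i : I) (x y : V) :
    g • i ∈ W.sep (g • x) (g • y) ↔ i ∈ W.sep x y :=
  not_congr (W.S_act_iff g i x y)

/-- Let `j` cross neither `i` nor `k`, and let the `i`-points and the `k`-points be in different sectors of `j`. Then `i` and `k` are different and do not cross, all `j`-points and all `k`-points are in one sector of `i`, and all `j`-points and all `i`-points are in one sector of `k`. PROOF. If `i = k`: `S j u w` by `np1`. If `Cr i k`, take `t ∈ E i ∩ E k`: `S j u t`, `S j t w` by `np1`.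
`np2` for `i`, `j` at the point `w` (with `v ∈ E j`, `u ∈ E i`): `S i w v` or `S j w u`; the second is excluded. In the same way for `k`. -/
theorem WS.between (W : WS G V I) {i j k : I} (hij : i ≠ j) (hc : ¬ W.Cr i j) (hkj : k ≠ j)
    (hc' : ¬ W.Cr k j) {u w : V} (hu : u ∈ W.E i) (hw : w ∈ W.E k) (hne : ¬ W.S j u w) :
    i ≠ k ∧ ¬ W.Cr i k ∧ (∀ v ∈ W.E j, W.S i w v) ∧ ∀ v ∈ W.E j, W.S k u v := by
  have hc2 : ¬ W.Cr j i := fun h => hc (W.Cr_symm _ _ h)
  have hc2' : ¬ W.Cr j k := fun h => hc' (W.Cr_symm _ _ h)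
  refine ⟨?_, ?_, ?_, ?_⟩
  · rintro rfl
    exact hne (W.np1 j i hij.symm hc2 u hu w hw)
  · intro hik
    obtain ⟨t, ht1, ht2⟩ := W.Cr_E i k hik
    exact hne ((W.S_equiv j).trans (W.np1 j i hij.symm hc2 u hu t ht1)
      (W.np1 j k hkj.symm hc2' t ht2 w hw))
  · intro v hv
    rcases W.np2 i j hij hc w v hv u hu with h | h
    · exact h
    · exact absurd ((W.S_equiv j).symm h) hne
  · intro v hv
    rcases W.np2 k j hkj hc' u v hv w hw with h | h
    · exact h
    · exact absurd h hne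

end Pool.Agent.Lib.MP_1211f9_al.BK
end

section

/-! Campaign BK (MP_1211f9_al), task W2: translates -/

set_option autoImplicit false

namespace Pool.Agent.Lib.MP_1211f9_al.BK

open Relation

variable {G V I : Type*} [Group G] [MulAction G V] [MulAction G I]

/-- PROOF. Write `i n = t ^ n • i`, `u n = t ^ n • u ∈ E (i n)`. Suppose `¬ S (i 1) (u 0) (u 2)`; then `¬ S (i (m + 1)) (u m) (u (m + 2))` for all `m` (apply `t ^ m`). Claim, by induction on `n ≥ 1`: `i 0 ≠ i n`, `¬ Cr (i 0) (i n)`, `S (i n) (u 0) (u (n - 1))`, `S (i 0) (u 1) (u n)`. `n = 1`: hypotheses, reflexivity. Step: `between` with `j = i n`, `i = i 0`, `k = i (n + 1)`, points `u 0`, `u (n + 1)`: the hypothesis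
`¬ S (i n) (u 0) (u (n + 1))` holds since `S (i n) (u 0) (u (n - 1))` and `¬ S (i n) (u (n - 1)) (u (n + 1))`; it gives `i 0 ≠ i (n + 1)`, `¬ Cr (i 0) (i (n + 1))`, `S (i 0) (u (n + 1)) (u n)` (so `S (i 0) (u 1) (u (n + 1))`), `S (i (n + 1)) (u 0) (u n)`.
Now for `0 < m < n`: `S (i m) (u 0) (u (m - 1))` and `S (i m) (u (m + 1)) (u n)` (apply `t ^ m` to `S (i 0) (u 1) (u (n - m))`), so `¬ S (i m) (u 0) (u n)`: the `n - 1` different classes `i 1, .., i (n - 1)` are in `sep u (t ^ n • u)` (different: `i 0 ≠ i n`, apply `t ^ m`). For large `n` this contradicts `Ell` (`Set.ncard` of the finite set `S_fin`). -/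
theorem WS.translate (W : WS G V I) (hell : W.Ell) (t : G) (i : I) (h1 : t • i ≠ i)
    (h2 : ¬ W.Cr i (t • i)) {u : V} (hu : u ∈ W.E i) : W.S (t • i) u (t • t • u) := by
  classical
  by_contra hS
  have hUE : ∀ n : ℕ, t ^ n • u ∈ W.E (t ^ n • i) := fun n => W.E_act (t ^ n) i u hu
  have hstep : ∀ m : ℕ, ¬ W.S (t ^ (m + 1) • i) (t ^ m • u) (t ^ (m + 2) • u) := by
    intro m h
    have e1 : t ^ (m + 1) • i = t ^ m • t • i := by rw [pow_succ, mul_smul]
    have e2 : t ^ (m + 2) • u = t ^ m • t • t • u := by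
      rw [pow_succ, pow_succ, mul_smul, mul_smul]
    rw [e1, e2, W.S_act_iff] at h
    exact hS h
  have hne1 : ∀ m : ℕ, t ^ (m + 1) • i ≠ t ^ m • i := by
    intro m h
    rw [pow_succ, mul_smul] at h
    exact h1 (smul_left_cancel _ h)
  have hcr1 : ∀ m : ℕ, ¬ W.Cr (t ^ (m + 1) • i) (t ^ m • i) := by
    intro m h
    rw [pow_succ, mul_smul, W.Cr_act_iff] at h
    exact h2 (W.Cr_symm _ _ h)
  have claim : ∀ n : ℕ, i ≠ t ^ (n + 1) • i ∧ ¬ W.Cr i (t ^ (n + 1) • i) ∧
      W.S (t ^ (n + 1) • i) u (t ^ n • u) ∧ W.S i (t ^ 1 • u) (t ^ (n + 1) • u) := by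
    intro n
    induction n with
    | zero =>
      refine ⟨?_, ?_, ?_, ?_⟩
      · rw [zero_add, pow_one]
        exact fun h => h1 h.symm
      · rw [zero_add, pow_one]
        exact h2
      · rw [pow_zero, one_smul]
        exact (W.S_equiv _).refl _
      · exact (W.S_equiv _).refl _
    | succ n ih =>
      obtain ⟨a1, a2, a3, a4⟩ := ih
      have hne : ¬ W.S (t ^ (n + 1) • i) u (t ^ (n + 2) • u) := by
        intro h
        exact hstep n ((W.S_equiv _).trans ((W.S_equiv _).symm a3) h)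
      obtain ⟨b1, b2, b3, b4⟩ := W.between a1 a2 (hne1 (n + 1)) (hcr1 (n + 1)) hu (hUE (n + 2)) hne
      exact ⟨b1, b2, b4 _ (hUE (n + 1)),
        (W.S_equiv _).trans a4 ((W.S_equiv _).symm (b3 _ (hUE (n + 1))))⟩
  obtain ⟨R, hR⟩ := hell t u
  have hmem : ∀ m k : ℕ, t ^ (m + 1) • i ∈ W.sep u (t ^ (m + 2 + k) • u) := by
    intro m k hmk
    have c1 := (claim m).2.2.1
    have c2 := (claim k).2.2.2
    have c3 : W.S (t ^ (m + 1) • i) (t ^ (m + 2) • u) (t ^ (m + 2 + k) • u) := by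
      have h := (W.S_act_iff (t ^ (m + 1)) i (t ^ 1 • u) (t ^ (k + 1) • u)).mpr c2
      rw [smul_smul, smul_smul, ← pow_add, ← pow_add] at h
      have e3 : m + 1 + (k + 1) = m + 2 + k := by omega
      rw [e3] at h
      exact h
    exact hstep m ((W.S_equiv _).trans ((W.S_equiv _).symm c1)
      ((W.S_equiv _).trans hmk ((W.S_equiv _).symm c3)))
  have hinj : ∀ a b : ℕ, a < b → t ^ (a + 1) • i ≠ t ^ (b + 1) • i := by
    intro a b hab h
    obtain ⟨k, rfl⟩ := Nat.exists_eq_add_of_lt hab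
    have e4 : a + k + 1 + 1 = (a + 1) + (k + 1) := by omega
    rw [e4, pow_add t (a + 1) (k + 1), mul_smul] at h
    exact (claim k).1 (smul_left_cancel _ h)
  have hsub : (((Finset.range (R + 1)).image fun m => t ^ (m + 1) • i : Finset I) : Set I) ⊆
      W.sep u (t ^ (R + 2) • u) := by
    intro x hx
    rw [Finset.coe_image] at hx
    obtain ⟨m, hm, rfl⟩ := hx
    have hm' : m < R + 1 := Finset.mem_range.mp (Finset.mem_coe.mp hm)
    have h := hmem m (R - m)
    have e5 : m + 2 + (R - m) = R + 2 := by omega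
    rw [e5] at h
    exact h
  have h3 := Set.ncard_le_ncard hsub (W.S_fin _ _)
  rw [Set.ncard_coe_finset, Finset.card_image_of_injOn, Finset.card_range] at h3
  · have := hR (R + 2)
    omega
  · intro a _ b _ hab
    rcases lt_trichotomy a b with h | h | h
    · exact absurd hab (hinj a b h)
    · exact h
    · exact absurd hab.symm (hinj b a h)

end Pool.Agent.Lib.MP_1211f9_al.BK
end

section

/-! Campaign BK (MP_1211f9_al), task W3: no chains of three classes in an orbit -/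

set_option autoImplicit false

namespace Pool.Agent.Lib.MP_1211f9_al.BK

open Relation

variable {G V I : Type*} [Group G] [MulAction G V] [MulAction G I]

/-- PROOF. `np2` for `i`, `j` at `x` and at `y`, for some `u₀ ∈ E j`, `w₀ ∈ E i` (`E_ne`); `np1` to pass to all points; not both `S i x u₀` and `S i y u₀`, not both `S j x w₀` and `S j y w₀`. -/
theorem WS.lt_or (W : WS G V I) {x y : V} {i j : I} (hi : i ∈ W.sep x y) (hj : j ∈ W.sep x y)
    (hij : i ≠ j) (hc : ¬ W.Cr i j) : W.Lt x y i j ∨ W.Lt x y j i := by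
  obtain ⟨u₀, hu₀⟩ := W.E_ne j
  obtain ⟨w₀, hw₀⟩ := W.E_ne i
  have hc' : ¬ W.Cr j i := fun h => hc (W.Cr_symm _ _ h)
  have hi' : ¬ W.S i x y := hi
  have hj' : ¬ W.S j x y := hj
  have hx := W.np2 i j hij hc x u₀ hu₀ w₀ hw₀
  have hy := W.np2 i j hij hc y u₀ hu₀ w₀ hw₀
  have n1 : ¬ (W.S i x u₀ ∧ W.S i y u₀) := fun h =>
    hi' ((W.S_equiv i).trans h.1 ((W.S_equiv i).symm h.2))
  have n2 : ¬ (W.S j x w₀ ∧ W.S j y w₀) := fun h =>
    hj' ((W.S_equiv j).trans h.1 ((W.S_equiv j).symm h.2))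
  rcases hx with hx | hx
  · rcases hy with hy | hy
    · exact absurd ⟨hx, hy⟩ n1
    · right
      exact ⟨hij.symm, hc',
        fun u hu => (W.S_equiv i).trans hx (W.np1 i j hij hc u₀ hu₀ u hu),
        fun w hw => (W.S_equiv j).trans hy (W.np1 j i hij.symm hc' w₀ hw₀ w hw)⟩
  · rcases hy with hy | hy
    · left
      exact ⟨hij, hc,
        fun u hu => (W.S_equiv j).trans hx (W.np1 j i hij.symm hc' w₀ hw₀ u hu),
        fun w hw => (W.S_equiv i).trans hy (W.np1 i j hij hc u₀ hu₀ w hw)⟩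
    · exact absurd ⟨hx, hy⟩ n2

/-- PROOF. Let `u ∈ E i`, so `g • u ∈ E j`, `h • u ∈ E k`. `S j x u` (first `Lt`) and `S j y (h • u)` (second `Lt`), `¬ S j x y`: so `¬ S j u (h • u)`. `between` (centre `j`, points `u`, `h • u`): `i ≠ k`, `¬ Cr i k`, `S i (h • u) (g • u)`, `S k u (g • u)`. `translate`: for `g` and `i`: `S j u (g • g • u)`; for `h` and `i`: `S k u (h • h • u)`; for `t = h * g⁻¹` and `j` (point `g • u`): `S k (g • u) (t • t • g • u) = S k (g • u) (t • h • u)`.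
So `S k (h • h • u) (t • h • u)`; apply `h⁻¹`: `S i (h • u) (g⁻¹ • h • u)`; apply `g`: `S j (g • h • u) (h • u)`. From `S i (h • u) (g • u)`, apply `g`: `S j (g • h • u) (g • g • u)`. So `S j (h • u) (g • g • u)` and `S j (h • u) u`, a contradiction. -/
theorem WS.no_chain (W : WS G V I) (hell : W.Ell) {x y : V} {i j k : I} (hj : j ∈ W.sep x y)
    (h1 : W.Lt x y i j) (h2 : W.Lt x y j k) (g h : G) (hg : j = g • i) (hh : k = h • i) :
    False := by
  obtain ⟨u, hu⟩ := W.E_ne i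
  have hgu : g • u ∈ W.E j := by rw [hg]; exact W.E_act g i u hu
  have hhu : h • u ∈ W.E k := by rw [hh]; exact W.E_act h i u hu
  have hj' : ¬ W.S j x y := hj
  obtain ⟨a1, a2, a3, a4⟩ := h1
  obtain ⟨b1, b2, b3, b4⟩ := h2
  have hne : ¬ W.S j u (h • u) := fun hs =>
    hj' ((W.S_equiv j).trans (a3 u hu) ((W.S_equiv j).trans hs ((W.S_equiv j).symm (b4 _ hhu))))
  obtain ⟨c1, c2, c3, c4⟩ := W.between a1 a2 b1.symm (fun hc => b2 (W.Cr_symm _ _ hc)) hu hhu hne
  have c5 := c3 _ hgu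
  have c6 := c4 _ hgu
  have t1 : W.S j u (g • g • u) := by
    have := W.translate hell g i (by rw [← hg]; exact a1.symm) (by rw [← hg]; exact a2) hu
    rwa [← hg] at this
  have t2 : W.S k u (h • h • u) := by
    have := W.translate hell h i (by rw [← hh]; exact c1.symm) (by rw [← hh]; exact c2) hu
    rwa [← hh] at this
  have tj : (h * g⁻¹) • j = k := by rw [mul_smul, hg, inv_smul_smul, hh]
  have t3 : W.S k (g • u) (h • g⁻¹ • h • u) := by
    have := W.translate hell (h * g⁻¹) j (by rw [tj]; exact b1.symm) (by rw [tj]; exact b2) hgu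
    rw [tj] at this
    rwa [mul_smul, mul_smul, inv_smul_smul] at this
  have t4 : W.S k (h • h • u) (h • g⁻¹ • h • u) :=
    (W.S_equiv k).trans ((W.S_equiv k).symm t2) ((W.S_equiv k).trans c6 t3)
  have t5 : W.S i (h • u) (g⁻¹ • h • u) := by
    have := W.S_act h⁻¹ k _ _ t4
    rwa [inv_smul_smul, inv_smul_smul, hh, inv_smul_smul] at this
  have t6 : W.S j (g • h • u) (h • u) := by
    have := W.S_act g i _ _ t5
    rwa [smul_inv_smul, ← hg] at this
  have t7 : W.S j (g • h • u) (g • g • u) := by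
    have := W.S_act g i _ _ c5
    rwa [← hg] at this
  exact hne ((W.S_equiv j).trans t1 ((W.S_equiv j).trans ((W.S_equiv j).symm t7) t6))

end Pool.Agent.Lib.MP_1211f9_al.BK
end

section

/-! Campaign BK (MP_1211f9_al), task W4: the number of separating classes in an orbit -/

set_option autoImplicit false

namespace Pool.Agent.Lib.MP_1211f9_al.BK

open Relation

variable {G V I : Type*} [Group G] [MulAction G V] [MulAction G I]

/-- PROOF. `A₁` = the `j ∈ A` with some `i ∈ A`, `Lt x y i j`; `A₀ = A \ A₁`. Two different elements of `A₀` cross (`lt_or`). Two different elements `i, j` of `A₁` cross: otherwise, say, `Lt x y i j`, and `Lt x y k i` with `k ∈ A`: `no_chain` (all in one orbit). `Dim` for both. -/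
theorem WS.card_orbit (W : WS G V I) (hell : W.Ell) {D : ℕ} (hD : W.Dim D) (x y : V) (i₀ : I)
    (A : Finset I) (hA : ∀ i ∈ A, i ∈ W.sep x y ∧ i ∈ MulAction.orbit G i₀) :
    A.card ≤ 2 * D := by
  classical
  have hsub : ∀ i ∈ A, ∀ k ∈ A, ∃ g : G, i = g • k := by
    intro i hi k hk
    obtain ⟨a, ha⟩ := (hA i hi).2
    obtain ⟨b, hb⟩ := (hA k hk).2
    have ha' : a • i₀ = i := ha
    have hb' : b • i₀ = k := hb
    exact ⟨a * b⁻¹, by rw [← ha', ← hb', mul_smul, inv_smul_smul]⟩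
  have h1 : (A.filter fun j => ∃ i ∈ A, W.Lt x y i j).card ≤ D := by
    refine hD _ ?_
    intro i hi j hj hij
    obtain ⟨hiA, k, hkA, hki⟩ := Finset.mem_filter.1 hi
    obtain ⟨hjA, l, hlA, hlj⟩ := Finset.mem_filter.1 hj
    by_contra hc
    rcases W.lt_or (hA i hiA).1 (hA j hjA).1 hij hc with h | h
    · obtain ⟨g, hg⟩ := hsub i hiA k hkA
      obtain ⟨g', hg'⟩ := hsub j hjA k hkA
      exact W.no_chain hell (hA i hiA).1 hki h g g' hg hg'
    · obtain ⟨g, hg⟩ := hsub j hjA l hlA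
      obtain ⟨g', hg'⟩ := hsub i hiA l hlA
      exact W.no_chain hell (hA j hjA).1 hlj h g g' hg hg'
  have h2 : (A.filter fun j => ¬ ∃ i ∈ A, W.Lt x y i j).card ≤ D := by
    refine hD _ ?_
    intro i hi j hj hij
    obtain ⟨hiA, hni⟩ := Finset.mem_filter.1 hi
    obtain ⟨hjA, hnj⟩ := Finset.mem_filter.1 hj
    by_contra hc
    rcases W.lt_or (hA i hiA).1 (hA j hjA).1 hij hc with h | h
    · exact hnj ⟨i, hiA, h⟩
    · exact hni ⟨j, hjA, h⟩
  have h3 := Finset.card_filter_add_card_filter_not (s := A) (fun j => ∃ i ∈ A, W.Lt x y i j)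
  omega

/-- PROOF. `T` a finite generating set (`Group.fg_iff` / `Group.fg_def`), `S₀` the union over `t ∈ T` of the finite sets `sep x (t • x)`. First claim by `Subgroup.closure_induction` (or induction on words) for `g`: `sep x (g h x) ⊆ sep x (g x) ∪ g sep x (h x)`, `sep x (g⁻¹ x) = g⁻¹ sep (g x) x`.
Second claim: `sep x (g • x)` is the union over `s ∈ S₀` of its intersections with `orbit s`, each with at most `2 D` elements (`card_orbit`). -/
theorem WS.bounded (W : WS G V I) (hell : W.Ell) {D : ℕ} (hD : W.Dim D) (hG : Group.FG G)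
    (x : V) : ∃ S₀ : Finset I, (∀ (g : G) (i : I), i ∈ W.sep x (g • x) →
        ∃ s ∈ S₀, i ∈ MulAction.orbit G s) ∧
      ∀ g : G, (W.sep x (g • x)).ncard ≤ 2 * D * S₀.card := by
  classical
  obtain ⟨T, hT, hTf⟩ := Group.fg_iff.1 hG
  have hfin : (⋃ t ∈ T, W.sep x (t • x)).Finite := hTf.biUnion fun t _ => W.S_fin x (t • x)
  set S₀ : Finset I := hfin.toFinset with hS₀
  have mS : ∀ i, i ∈ S₀ ↔ ∃ t ∈ T, i ∈ W.sep x (t • x) := fun i => by
    rw [hS₀, Set.Finite.mem_toFinset]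
    simp only [Set.mem_iUnion, exists_prop]
  have orb : ∀ (g : G) (i s : I), g • i ∈ MulAction.orbit G s → i ∈ MulAction.orbit G s := by
    rintro g i s ⟨k, hk⟩
    have hk' : k • s = g • i := hk
    refine ⟨g⁻¹ * k, ?_⟩
    show (g⁻¹ * k) • s = i
    rw [mul_smul, hk', inv_smul_smul]
  have hall : ∀ g : G, ∀ i, i ∈ W.sep x (g • x) → ∃ s ∈ S₀, i ∈ MulAction.orbit G s := by
    intro g
    have hg : g ∈ Subgroup.closure T := by rw [hT]; trivial
    induction hg using Subgroup.closure_induction with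
    | mem t ht =>
      intro i hi
      exact ⟨i, (mS i).2 ⟨t, ht, hi⟩, MulAction.mem_orbit_self i⟩
    | one =>
      intro i hi
      refine absurd ?_ hi
      rw [one_smul]
      exact (W.S_equiv i).refl x
    | mul a b _ _ iha ihb =>
      intro i hi
      by_cases h1 : W.S i x (a • x)
      · have h2 : ¬ W.S i (a • x) ((a * b) • x) := fun h => hi ((W.S_equiv i).trans h1 h)
        rw [mul_smul] at h2
        have h3 : ¬ W.S (a⁻¹ • i) x (b • x) := by
          intro h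
          have := W.S_act a _ _ _ h
          rw [smul_inv_smul] at this
          exact h2 this
        obtain ⟨s, hs, hs'⟩ := ihb _ h3
        exact ⟨s, hs, orb _ _ _ hs'⟩
      · exact iha i h1
    | inv a _ iha =>
      intro i hi
      have h3 : ¬ W.S (a • i) x (a • x) := by
        intro h
        have := W.S_act a⁻¹ _ _ _ h
        rw [inv_smul_smul, inv_smul_smul] at this
        exact hi ((W.S_equiv i).symm this)
      obtain ⟨s, hs, hs'⟩ := iha _ h3
      exact ⟨s, hs, orb _ _ _ hs'⟩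
  refine ⟨S₀, hall, fun g => ?_⟩
  have hf : (W.sep x (g • x)).Finite := W.S_fin x (g • x)
  rw [Set.ncard_eq_toFinset_card _ hf]
  have hsub : hf.toFinset ⊆
      S₀.biUnion fun s => hf.toFinset.filter fun i => i ∈ MulAction.orbit G s := by
    intro i hi
    obtain ⟨s, hs, hs'⟩ := hall g i ((Set.Finite.mem_toFinset hf).1 hi)
    exact Finset.mem_biUnion.2 ⟨s, hs, Finset.mem_filter.2 ⟨hi, hs'⟩⟩
  refine (Finset.card_le_card hsub).trans ?_
  rw [mul_comm]
  refine Finset.card_biUnion_le_card_mul _ _ _ fun s _ => ?_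
  refine W.card_orbit hell hD x (g • x) s _ fun i hi => ?_
  obtain ⟨h1, h2⟩ := Finset.mem_filter.1 hi
  exact ⟨(Set.Finite.mem_toFinset hf).1 h1, h2⟩

end Pool.Agent.Lib.MP_1211f9_al.BK
end

section

/-! Campaign BK (MP_1211f9_al), task W5: a lemma of P. M. Neumann -/

set_option autoImplicit false

namespace Pool.Agent.Lib.MP_1211f9_al.BK

open Relation

open scoped Pointwise in
private theorem W5_aux {G I : Type*} [Group G] [MulAction G I] (A B : Finset I)
    (h : ∀ a ∈ A, (MulAction.orbit G a).Infinite) : ∃ g : G, ∀ a ∈ A, g • a ∉ B := by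
  classical
  by_contra hcon
  push Not at hcon
  -- a representative for every pair
  have hrep : ∀ p : I × I, ∃ g₀ : G, ∀ g : G, g • p.1 = p.2 → g ∈ (g₀ : G) • (MulAction.stabilizer G p.1 : Set G) := by
    intro p
    by_cases hp : ∃ g₀ : G, g₀ • p.1 = p.2
    · obtain ⟨g₀, hg₀⟩ := hp
      refine ⟨g₀, fun g hg => ?_⟩
      rw [Set.mem_smul_set_iff_inv_smul_mem, smul_eq_mul, SetLike.mem_coe,
        MulAction.mem_stabilizer_iff, mul_smul, hg, ← hg₀, inv_smul_smul]
    · exact ⟨1, fun g hg => absurd ⟨g, hg⟩ hp⟩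
  choose rep hrep using hrep
  have hcov : ⋃ p ∈ A ×ˢ B, rep p • ((MulAction.stabilizer G (p : I × I).1 : Subgroup G) : Set G)
      = Set.univ := by
    rw [Set.eq_univ_iff_forall]
    intro g
    obtain ⟨a, ha, hb⟩ := hcon g
    simp only [Set.mem_iUnion]
    exact ⟨(a, g • a), Finset.mem_product.2 ⟨ha, hb⟩, hrep (a, g • a) g rfl⟩
  obtain ⟨p, hp, hfi⟩ := Subgroup.exists_finiteIndex_of_leftCoset_cover hcov
  have ha := (Finset.mem_product.1 hp).1
  refine h p.1 ha ?_
  have : Finite (G ⧸ MulAction.stabilizer G p.1) := Subgroup.finite_quotient_of_finiteIndex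
  have h2 : Finite (MulAction.orbit G p.1) :=
    Finite.of_equiv _ (MulAction.orbitEquivQuotientStabilizer G p.1).symm
  exact Set.toFinite _


/-- PROOF. Otherwise `G` is the union over the pairs `(a, b) ∈ A × B` of the sets `{g | g • a = b}`, each empty or a left coset `g₀ • stabilizer G a` of a subgroup of infinite index (infinite orbit: `MulAction.orbitEquivQuotientStabilizer`). B. H. Neumann: `Subgroup.exists_finiteIndex_of_leftCoset_cover` (Mathlib.GroupTheory.CosetCover). -/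
theorem neumann {G I : Type*} [Group G] [MulAction G I] (A B : Finset I)
    (h : ∀ a ∈ A, (MulAction.orbit G a).Infinite) : ∃ g : G, ∀ a ∈ A, g • a ∉ B :=
  W5_aux A B h

end Pool.Agent.Lib.MP_1211f9_al.BK
end

section

/-! Campaign BK (MP_1211f9_al), task W6: the four pairs -/

set_option autoImplicit false

namespace Pool.Agent.Lib.MP_1211f9_al.BK

open Relation

variable {G V I : Type*} [Group G] [MulAction G V] [MulAction G I]

/-- Counting. PROOF. `4 n ≥ ∑ |A k|`, and `∑ |A k| ≥ 2 |U₁ ∪ U₂| + (1 if i₀ is in some A k)`, `|U₁ ∪ U₂| = 2 n` (double counting). -/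
theorem count_four {I : Type*} [DecidableEq I] (A : Fin 4 → Finset I) (U₁ U₂ : Finset I) (n : ℕ)
    (h1 : U₁.card = n) (h2 : U₂.card = n) (hd : Disjoint U₁ U₂) (hA : ∀ k, (A k).card ≤ n)
    (hU : ∀ i ∈ U₁ ∪ U₂, 2 ≤ (Finset.univ.filter fun k => i ∈ A k).card) {i₀ : I}
    (h0 : i₀ ∉ U₁ ∪ U₂) (k : Fin 4) : i₀ ∉ A k := by
  intro hk
  have hB : ∑ k : Fin 4, ((insert i₀ (U₁ ∪ U₂)).filter fun i => i ∈ A k).card =
      ∑ i ∈ insert i₀ (U₁ ∪ U₂), (Finset.univ.filter fun k => i ∈ A k).card := by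
    simp only [Finset.card_filter]
    exact Finset.sum_comm
  have h1' : ∑ k : Fin 4, ((insert i₀ (U₁ ∪ U₂)).filter fun i => i ∈ A k).card
      ≤ ∑ _k : Fin 4, n :=
    Finset.sum_le_sum (fun k _ =>
      (Finset.card_le_card (fun i hi => (Finset.mem_filter.1 hi).2)).trans (hA k))
  rw [hB, Finset.sum_insert h0] at h1'
  have h3 : (U₁ ∪ U₂).card • 2 ≤
      ∑ i ∈ U₁ ∪ U₂, (Finset.univ.filter fun k => i ∈ A k).card :=
    Finset.card_nsmul_le_sum _ _ _ hU
  have h4 : 0 < (Finset.univ.filter fun k => i₀ ∈ A k).card :=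
    Finset.card_pos.2 ⟨k, Finset.mem_filter.2 ⟨Finset.mem_univ _, hk⟩⟩
  have h5 : (U₁ ∪ U₂).card = n + n := by
    rw [Finset.card_union_of_disjoint hd, h1, h2]
  rw [h5] at h3
  simp only [Finset.sum_const, Finset.card_univ, Fintype.card_fin, smul_eq_mul] at h1' h3
  omega

/-- PROOF. The points `x₀ = x`, `x₁ = g₀ • x`, `y₀ = h • x`, `y₁ = h • g₀ • x`. For the four pairs `(x_a, y_b)` the set `sep ∩ O` has at most `n` elements (each pair is a translate of a pair `x, g • x`; `O` is invariant). `U₁ = sep x₀ x₁ ∩ O` and `U₂ = sep y₀ y₁ ∩ O = h U₁` have `n` elements each and are disjoint (`hd`).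
A class `i ∈ U₁` separates `y_b` from `x₀` or from `x₁`, for `b = 0, 1`: it separates at least two of the pairs; the same for `U₂`. `count_four` for `i ∉ U₁ ∪ U₂` and the pair `(x₀, y₀)`. -/
theorem WS.four (W : WS G V I) (x : V) (O : Set I) (hO : ∀ (g : G) (i : I), i ∈ O → g • i ∈ O)
    (g₀ : G) (n : ℕ) (hn : ∀ g : G, (W.sep x (g • x) ∩ O).ncard ≤ n)
    (h0 : (W.sep x (g₀ • x) ∩ O).ncard = n) (h : G)
    (hd : ∀ i ∈ W.sep x (g₀ • x) ∩ O, h • i ∉ W.sep x (g₀ • x)) {i : I} (hi : i ∈ O)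
    (h1 : i ∉ W.sep x (g₀ • x)) (h2 : h⁻¹ • i ∉ W.sep x (g₀ • x)) : W.S i x (h • x) := by
  classical
  have fin : ∀ a b : V, (W.sep a b ∩ O).Finite := fun a b =>
    (W.S_fin a b).subset Set.inter_subset_left
  -- all translated pairs
  have key : ∀ g g' : G, (W.sep (g • x) (g' • x) ∩ O).ncard ≤ n := by
    intro g g'
    refine le_trans ?_ (hn (g⁻¹ * g'))
    have hsub : W.sep (g • x) (g' • x) ∩ O ⊆
        (fun i : I => g • i) '' (W.sep x ((g⁻¹ * g') • x) ∩ O) := by
      rintro j ⟨hj, hjO⟩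
      refine ⟨g⁻¹ • j, ⟨?_, hO _ _ hjO⟩, smul_inv_smul _ _⟩
      have := (W.sep_act g (g⁻¹ • j) x ((g⁻¹ * g') • x)).1
      rw [smul_inv_smul, smul_smul, mul_inv_cancel_left] at this
      exact this hj
    exact (Set.ncard_le_ncard hsub ((fin _ _).image _)).trans (Set.ncard_image_le (fin _ _))
  set A : Fin 4 → Finset I := ![(fin x (h • x)).toFinset, (fin x (h • g₀ • x)).toFinset,
    (fin (g₀ • x) (h • x)).toFinset, (fin (g₀ • x) (h • g₀ • x)).toFinset] with hAdef
  set U₁ : Finset I := (fin x (g₀ • x)).toFinset with hU₁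
  set U₂ : Finset I := U₁.image (fun i => h • i) with hU₂
  have c1 : U₁.card = n := by
    rw [← h0, Set.ncard_eq_toFinset_card _ (fin x (g₀ • x))]
  have c2 : U₂.card = n := by
    rw [hU₂, Finset.card_image_of_injective _ (MulAction.injective h), c1]
  have m1 : ∀ j, j ∈ U₁ ↔ ¬ W.S j x (g₀ • x) ∧ j ∈ O := by
    intro j
    rw [hU₁, Set.Finite.mem_toFinset]
    exact Iff.rfl
  have m2 : ∀ j ∈ U₂, ¬ W.S j (h • x) (h • g₀ • x) ∧ j ∈ O ∧ h⁻¹ • j ∈ W.sep x (g₀ • x) := by
    intro j hj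
    obtain ⟨i', hi', rfl⟩ := Finset.mem_image.1 hj
    have hi'' := (m1 i').1 hi'
    refine ⟨?_, hO _ _ hi''.2, ?_⟩
    · rw [W.S_act_iff]
      exact hi''.1
    · rw [inv_smul_smul]
      exact hi''.1
  have hdisj : Disjoint U₁ U₂ := by
    rw [Finset.disjoint_left]
    intro j hj1 hj2
    obtain ⟨i', hi', rfl⟩ := Finset.mem_image.1 hj2
    exact hd i' ((m1 i').1 hi') ((m1 _).1 hj1).1
  have hA : ∀ k, (A k).card ≤ n := by
    intro k
    have e1 := key 1 h
    have e2 := key 1 (h * g₀)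
    have e3 := key g₀ h
    have e4 := key g₀ (h * g₀)
    rw [one_smul] at e1 e2
    rw [mul_smul] at e2 e4
    rw [Set.ncard_eq_toFinset_card _ (fin _ _)] at e1 e2 e3 e4
    fin_cases k
    · exact e1
    · exact e2
    · exact e3
    · exact e4
  have a0 : ∀ j, j ∈ A 0 ↔ ¬ W.S j x (h • x) ∧ j ∈ O := fun j => by
    show j ∈ (fin x (h • x)).toFinset ↔ _
    rw [Set.Finite.mem_toFinset]
    exact Iff.rfl
  have a1 : ∀ j, j ∈ A 1 ↔ ¬ W.S j x (h • g₀ • x) ∧ j ∈ O := fun j => by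
    show j ∈ (fin x (h • g₀ • x)).toFinset ↔ _
    rw [Set.Finite.mem_toFinset]
    exact Iff.rfl
  have a2 : ∀ j, j ∈ A 2 ↔ ¬ W.S j (g₀ • x) (h • x) ∧ j ∈ O := fun j => by
    show j ∈ (fin (g₀ • x) (h • x)).toFinset ↔ _
    rw [Set.Finite.mem_toFinset]
    exact Iff.rfl
  have a3 : ∀ j, j ∈ A 3 ↔ ¬ W.S j (g₀ • x) (h • g₀ • x) ∧ j ∈ O := fun j => by
    show j ∈ (fin (g₀ • x) (h • g₀ • x)).toFinset ↔ _
    rw [Set.Finite.mem_toFinset]
    exact Iff.rfl
  have hpair : ∀ (j : I) (k k' : Fin 4), k ≠ k' → j ∈ A k → j ∈ A k' →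
      2 ≤ (Finset.univ.filter fun k => j ∈ A k).card := by
    intro j k k' hne hk hk'
    exact Finset.one_lt_card.2 ⟨k, Finset.mem_filter.2 ⟨Finset.mem_univ _, hk⟩, k',
      Finset.mem_filter.2 ⟨Finset.mem_univ _, hk'⟩, hne⟩
  have hU : ∀ j ∈ U₁ ∪ U₂, 2 ≤ (Finset.univ.filter fun k => j ∈ A k).card := by
    intro j hj
    have eq := W.S_equiv j
    rcases Finset.mem_union.1 hj with hj | hj
    · obtain ⟨hs, hjO⟩ := (m1 j).1 hj
      have b0 : j ∈ A 0 ∨ j ∈ A 2 := by
        by_contra hcon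
        rw [not_or, a0, a2] at hcon
        refine hs (eq.trans (y := h • x) ?_ (eq.symm ?_))
        · by_contra hq
          exact hcon.1 ⟨hq, hjO⟩
        · by_contra hq
          exact hcon.2 ⟨hq, hjO⟩
      have b1 : j ∈ A 1 ∨ j ∈ A 3 := by
        by_contra hcon
        rw [not_or, a1, a3] at hcon
        refine hs (eq.trans (y := h • g₀ • x) ?_ (eq.symm ?_))
        · by_contra hq
          exact hcon.1 ⟨hq, hjO⟩
        · by_contra hq
          exact hcon.2 ⟨hq, hjO⟩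
      rcases b0 with b0 | b0 <;> rcases b1 with b1 | b1
      · exact hpair j 0 1 (by decide) b0 b1
      · exact hpair j 0 3 (by decide) b0 b1
      · exact hpair j 2 1 (by decide) b0 b1
      · exact hpair j 2 3 (by decide) b0 b1
    · obtain ⟨hs, hjO, -⟩ := m2 j hj
      have b0 : j ∈ A 0 ∨ j ∈ A 1 := by
        by_contra hcon
        rw [not_or, a0, a1] at hcon
        refine hs (eq.trans (y := x) (eq.symm ?_) ?_)
        · by_contra hq
          exact hcon.1 ⟨hq, hjO⟩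
        · by_contra hq
          exact hcon.2 ⟨hq, hjO⟩
      have b1 : j ∈ A 2 ∨ j ∈ A 3 := by
        by_contra hcon
        rw [not_or, a2, a3] at hcon
        refine hs (eq.trans (y := g₀ • x) (eq.symm ?_) ?_)
        · by_contra hq
          exact hcon.1 ⟨hq, hjO⟩
        · by_contra hq
          exact hcon.2 ⟨hq, hjO⟩
      rcases b0 with b0 | b0 <;> rcases b1 with b1 | b1
      · exact hpair j 0 2 (by decide) b0 b1
      · exact hpair j 0 3 (by decide) b0 b1
      · exact hpair j 1 2 (by decide) b0 b1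
      · exact hpair j 1 3 (by decide) b0 b1
  have hi0 : i ∉ U₁ ∪ U₂ := by
    intro hcon
    rcases Finset.mem_union.1 hcon with hc | hc
    · exact h1 ((m1 i).1 hc).1
    · exact h2 (m2 i hc).2.2
  have hfin := count_four A U₁ U₂ n c1 c2 hdisj hA hU hi0 0
  by_contra hq
  exact hfin ((a0 i).2 ⟨hq, hi⟩)

end Pool.Agent.Lib.MP_1211f9_al.BK
end

section

/-! Campaign BK (MP_1211f9_al), task W7: the third point -/

set_option autoImplicit false

namespace Pool.Agent.Lib.MP_1211f9_al.BK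

open Relation

variable {G V I : Type*} [Group G] [MulAction G V] [MulAction G I]

/-- PROOF. Write `U = sep x (g₀ • x) ∩ O` (finite). (1) Apply `four` translated: if `h'' U` is disjoint from `h U`, `i ∈ O`, `h⁻¹ • i ∉ U`, `h''⁻¹ • i ∉ U` then `S i (h • x) (h'' • x)`: use `four` for `h⁻¹ * h''` and the class `h⁻¹ • i`, then apply `h`. (2) Choose by `neumann` (`A = U`, all orbits infinite) `h''` with `h'' U` disjoint from `h U ∪ h' U ∪ {i}`.
Then `S i (h • x) (h'' • x)` and `S i (h' • x) (h'' • x)`. -/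
theorem WS.star (W : WS G V I) (x : V) (O : Set I)
    (hO : ∀ (g : G) (i : I), i ∈ O → g • i ∈ O)
    (hinf : ∀ i ∈ O, (MulAction.orbit G i).Infinite) (g₀ : G) (n : ℕ)
    (hn : ∀ g : G, (W.sep x (g • x) ∩ O).ncard ≤ n)
    (h0 : (W.sep x (g₀ • x) ∩ O).ncard = n) {i : I} (hi : i ∈ O) (h h' : G)
    (h1 : h⁻¹ • i ∉ W.sep x (g₀ • x)) (h2 : h'⁻¹ • i ∉ W.sep x (g₀ • x)) :
    W.S i (h • x) (h' • x) := by
  classical
  have hfin : (W.sep x (g₀ • x) ∩ O).Finite := (W.S_fin x (g₀ • x)).subset Set.inter_subset_left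
  set U : Finset I := hfin.toFinset with hU
  have mU : ∀ i, i ∈ U ↔ i ∈ W.sep x (g₀ • x) ∧ i ∈ O := fun i => by
    rw [hU, Set.Finite.mem_toFinset]
    exact Iff.rfl
  have key : ∀ k k' : G, k⁻¹ • i ∉ W.sep x (g₀ • x) → k'⁻¹ • i ∉ W.sep x (g₀ • x) →
      (∀ j ∈ U, k' • j ∉ U.image (fun a => k • a)) → W.S i (k • x) (k' • x) := by
    intro k k' hk hk' hdis
    have e := W.four x O hO g₀ n hn h0 (k⁻¹ * k') (fun j hj hc => ?_) (i := k⁻¹ • i)
      (hO _ _ hi) hk ?_
    · have e2 := W.S_act k _ _ _ e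
      rwa [smul_inv_smul, smul_smul, mul_inv_cancel_left] at e2
    · refine hdis j ((mU j).2 hj) (Finset.mem_image.2 ⟨(k⁻¹ * k') • j, (mU _).2 ⟨hc, hO _ _ hj.2⟩, ?_⟩)
      show k • (k⁻¹ * k') • j = k' • j
      rw [smul_smul, mul_inv_cancel_left]
    · rw [mul_inv_rev, inv_inv, mul_smul, smul_inv_smul]
      exact hk'
  obtain ⟨h'', hh⟩ := neumann U (U.image (fun a => h • a) ∪ U.image (fun a => h' • a) ∪ {i})
    (fun a ha => hinf a ((mU a).1 ha).2)
  have hi'' : h''⁻¹ • i ∉ W.sep x (g₀ • x) := by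
    intro hc
    have hm := (mU _).2 ⟨hc, hO _ _ hi⟩
    have := hh _ hm
    rw [smul_inv_smul] at this
    exact this (Finset.mem_union_right _ (Finset.mem_singleton_self i))
  have e1 := key h h'' h1 hi'' (fun j hj hc => hh j hj
    (Finset.mem_union_left _ (Finset.mem_union_left _ hc)))
  have e2 := key h' h'' h2 hi'' (fun j hj hc => hh j hj
    (Finset.mem_union_left _ (Finset.mem_union_right _ hc)))
  exact (W.S_equiv i).trans e1 ((W.S_equiv i).symm e2)

end Pool.Agent.Lib.MP_1211f9_al.BK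
end

section

/-! Campaign BK (MP_1211f9_al), task W8: the centre -/

set_option autoImplicit false

namespace Pool.Agent.Lib.MP_1211f9_al.BK

open Relation

variable {G V I : Type*} [Group G] [MulAction G V] [MulAction G I]

/-- PROOF. `U = sep x (g₀ • x) ∩ O`, a finite set. `h₁` with `h₁ U` disjoint from `U` (`neumann`). `y` from `inter x (h₁ • x) U`: `S i y (h₁ • x)` for `i ∈ U`, and `S i x z → S i x y` for all `i` and all `z` with `S j z (h₁ • x)` for `j ∈ U`.
Claim: `S i y (h • x)` for `i ∈ O` and all `h` with `h⁻¹ • i ∉ U`. If `i ∈ U`: `h₁⁻¹ • i ∉ U` and `star`. If `i ∉ U`: `h₂` with `h₂ U` disjoint from `U ∪ {i}` (`neumann`), `z = h₂ • x`: for `j ∈ U`, `S j z (h₁ • x)` by `star` (`h₂⁻¹ • j ∉ U`, `h₁⁻¹ • j ∉ U`), and `S i x z` by `star` (with `h = 1`), so `S i x y`, and `S i x (h • x)` by `star`.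
For `g` and `i ∈ O` choose `h` with `h⁻¹ • i ∉ U` (`neumann` for `A = U`, `B = {i}`): `S i y (h • x)`, and the claim for the class `g⁻¹ • i` and `g⁻¹ * h`: `S (g⁻¹ • i) y (g⁻¹ • h • x)`, apply `g`: `S i (g • y) (h • x)`. Last claim: `S i x y` if `S i x (h₁ • x)` (`inter` with `z = h₁ • x`). -/
theorem WS.centre_aux (W : WS G V I) (x : V) (O : Set I)
    (hO : ∀ (g : G) (i : I), i ∈ O → g • i ∈ O)
    (hinf : ∀ i ∈ O, (MulAction.orbit G i).Infinite) (g₀ : G) (n : ℕ)
    (hn : ∀ g : G, (W.sep x (g • x) ∩ O).ncard ≤ n)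
    (h0 : (W.sep x (g₀ • x) ∩ O).ncard = n) :
    ∃ y : V, (∀ i ∈ O, ∀ g : G, W.S i y (g • y)) ∧
      ∃ h₁ : G, ∀ i, W.S i x (h₁ • x) → W.S i x y := by
  classical
  have hfin : (W.sep x (g₀ • x) ∩ O).Finite := (W.S_fin x (g₀ • x)).subset Set.inter_subset_left
  set U : Finset I := hfin.toFinset with hU
  have mU : ∀ i, i ∈ U ↔ i ∈ W.sep x (g₀ • x) ∧ i ∈ O := fun i => by
    rw [hU, Set.Finite.mem_toFinset]
    exact Iff.rfl
  have hUinf : ∀ a ∈ U, (MulAction.orbit G a).Infinite := fun a ha => hinf a ((mU a).1 ha).2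
  have star : ∀ i ∈ O, ∀ h h' : G, h⁻¹ • i ∉ U → h'⁻¹ • i ∉ U → W.S i (h • x) (h' • x) := by
    intro i hi h h' h1 h2
    exact W.star x O hO hinf g₀ n hn h0 hi h h' (fun hc => h1 ((mU _).2 ⟨hc, hO _ _ hi⟩))
      (fun hc => h2 ((mU _).2 ⟨hc, hO _ _ hi⟩))
  obtain ⟨h₁, hh₁⟩ := neumann U U hUinf
  have hh₁' : ∀ i ∈ U, h₁⁻¹ • i ∉ U := by
    intro i hi hc
    have := hh₁ _ hc
    rw [smul_inv_smul] at this
    exact this hi
  obtain ⟨y, hy1, hy2⟩ := W.inter x (h₁ • x) U
  have claim : ∀ i ∈ O, ∀ h : G, h⁻¹ • i ∉ U → W.S i y (h • x) := by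
    intro i hi h hh
    have eqi := W.S_equiv i
    by_cases hiU : i ∈ U
    · exact eqi.trans (hy1 i hiU) (star i hi h₁ h (hh₁' i hiU) hh)
    · obtain ⟨h₂, hh₂⟩ := neumann U (insert i U) hUinf
      have hh₂' : ∀ j ∈ insert i U, h₂⁻¹ • j ∉ U := by
        intro j hj hc
        have := hh₂ _ hc
        rw [smul_inv_smul] at this
        exact this hj
      have hz : ∀ j ∈ U, W.S j (h₂ • x) (h₁ • x) := by
        intro j hj
        exact star j ((mU j).1 hj).2 h₂ h₁ (hh₂' j (Finset.mem_insert_of_mem hj)) (hh₁' j hj)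
      have h1i : (1 : G)⁻¹ • i ∉ U := by rwa [inv_one, one_smul]
      have hxz : W.S i x (h₂ • x) := by
        have := star i hi 1 h₂ h1i (hh₂' i (Finset.mem_insert_self _ _))
        rwa [one_smul] at this
      have hxy := hy2 (h₂ • x) hz i hxz
      have hxh : W.S i x (h • x) := by
        have := star i hi 1 h h1i hh
        rwa [one_smul] at this
      exact eqi.trans (eqi.symm hxy) hxh
  refine ⟨y, ?_, h₁, ?_⟩
  · intro i hi g
    obtain ⟨h, hh⟩ := neumann U {i} hUinf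
    have hh' : h⁻¹ • i ∉ U := by
      intro hc
      have := hh _ hc
      rw [smul_inv_smul] at this
      exact this (Finset.mem_singleton_self i)
    have e1 := claim i hi h hh'
    have e2 := claim (g⁻¹ • i) (hO _ _ hi) (g⁻¹ * h) (by
      rw [mul_inv_rev, inv_inv, mul_smul, smul_inv_smul]
      exact hh')
    have e3 := W.S_act g _ _ _ e2
    rw [smul_inv_smul, smul_smul, mul_inv_cancel_left] at e3
    exact (W.S_equiv i).trans e1 ((W.S_equiv i).symm e3)
  · intro i hi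
    exact hy2 (h₁ • x) (fun j _ => (W.S_equiv j).refl _) i hi

/-- PROOF. Choose `x`. `S₀` from `bounded`, `J` = the union of the orbits of `S₀`, `O` = the `i ∈ J` with infinite orbit, `F` = the union of the finite orbits of elements of `S₀` (a finite set, `toFinset`). `g₀` with maximal `n = ncard (sep x (g₀ • x) ∩ O)` (bounded by `bounded`; `Nat.findGreatest` or `Nat.find` of upper bounds). `y`, `h₁` from `centre_aux`.
Let `¬ S i y (g • y)`. Then `i ∉ O`. `i ∈ J`: otherwise `S i x (h • x)` for all `h : G` (`bounded`), so `S i x y`; and for `g⁻¹ • i ∉ J`: `S (g⁻¹ • i) x y`, so `S i (g • x) (g • y)`; with `S i x (g • x)`: `S i y (g • y)`. So `i ∈ J \ O`, i.e. `i ∈ F`. -/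
theorem WS.centre [Nonempty V] (W : WS G V I) (hell : W.Ell) {D : ℕ} (hD : W.Dim D)
    (hG : Group.FG G) : ∃ (y : V) (F : Finset I), (∀ (g : G) (i : I), i ∈ F → g • i ∈ F) ∧
      ∀ (g : G) (i : I), i ∈ W.sep y (g • y) → i ∈ F := by
  classical
  obtain ⟨x⟩ := ‹Nonempty V›
  obtain ⟨S₀, hS1, hS2⟩ := W.bounded hell hD hG x
  set J : Set I := {i | ∃ s ∈ S₀, i ∈ MulAction.orbit G s} with hJ
  have Jact : ∀ (g : G) (i : I), i ∈ J → g • i ∈ J := by
    rintro g i ⟨s, hs, ⟨k, rfl⟩⟩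
    exact ⟨s, hs, ⟨g * k, mul_smul g k s⟩⟩
  have orb : ∀ (g : G) (i : I), MulAction.orbit G (g • i) = MulAction.orbit G i := fun g i =>
    MulAction.orbit_smul g i
  set O : Set I := {i | i ∈ J ∧ (MulAction.orbit G i).Infinite} with hOdef
  have hO : ∀ (g : G) (i : I), i ∈ O → g • i ∈ O := by
    rintro g i ⟨h1, h2⟩
    refine ⟨Jact g i h1, ?_⟩
    rw [orb]
    exact h2
  have hinf : ∀ i ∈ O, (MulAction.orbit G i).Infinite := fun i hi => hi.2
  set f : G → ℕ := fun g => (W.sep x (g • x) ∩ O).ncard with hf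
  have hbd : BddAbove (Set.range f) := by
    refine ⟨2 * D * S₀.card, ?_⟩
    rintro _ ⟨g, rfl⟩
    exact (Set.ncard_le_ncard Set.inter_subset_left (W.S_fin x (g • x))).trans (hS2 g)
  obtain ⟨g₀, hg₀⟩ := Nat.sSup_mem (Set.range_nonempty f) hbd
  have hn : ∀ g : G, (W.sep x (g • x) ∩ O).ncard ≤ sSup (Set.range f) := fun g =>
    le_csSup hbd ⟨g, rfl⟩
  obtain ⟨y, hy, h₁, hh₁⟩ := W.centre_aux x O hO hinf g₀ (sSup (Set.range f)) hn hg₀
  set FS : Set I := {i | ∃ s ∈ S₀, (MulAction.orbit G s).Finite ∧ i ∈ MulAction.orbit G s} with hFS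
  have hFSfin : FS.Finite := by
    have : FS ⊆ ⋃ s ∈ S₀, (if (MulAction.orbit G s).Finite then MulAction.orbit G s else ∅) := by
      rintro i ⟨s, hs, hfin, hi⟩
      simp only [Set.mem_iUnion]
      refine ⟨s, hs, ?_⟩
      rw [if_pos hfin]
      exact hi
    refine Set.Finite.subset ?_ this
    refine Set.Finite.biUnion S₀.finite_toSet ?_
    intro s _
    split_ifs with hc
    · exact hc
    · exact Set.finite_empty
  refine ⟨y, hFSfin.toFinset, ?_, ?_⟩
  · intro g i hi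
    rw [Set.Finite.mem_toFinset] at hi ⊢
    obtain ⟨s, hs, hfin, ⟨k, rfl⟩⟩ := hi
    exact ⟨s, hs, hfin, ⟨g * k, mul_smul g k s⟩⟩
  · intro g i hi
    rw [Set.Finite.mem_toFinset]
    have hi' : ¬ W.S i y (g • y) := hi
    have hnO : i ∉ O := fun hc => hi' (hy i hc g)
    have hiJ : i ∈ J := by
      by_contra hnJ
      have hall : ∀ j, j ∉ J → ∀ h : G, W.S j x (h • x) := by
        intro j hj h
        by_contra hc
        exact hj (hS1 h j hc)
      have e1 : W.S i x y := hh₁ i (hall i hnJ h₁)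
      have hnJ' : g⁻¹ • i ∉ J := by
        intro hc
        have := Jact g _ hc
        rw [smul_inv_smul] at this
        exact hnJ this
      have e2 : W.S (g⁻¹ • i) x y := hh₁ _ (hall _ hnJ' h₁)
      have e3 := W.S_act g _ _ _ e2
      rw [smul_inv_smul] at e3
      have eq := W.S_equiv i
      exact hi' (eq.trans (eq.symm e1) (eq.trans (hall i hnJ g) e3))
    have hfinO : (MulAction.orbit G i).Finite := by
      by_contra hc
      exact hnO ⟨hiJ, hc⟩
    obtain ⟨s, hs, his⟩ := hiJ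
    refine ⟨s, hs, ?_, his⟩
    rw [← MulAction.orbit_eq_iff.2 his]
    exact hfinO

end Pool.Agent.Lib.MP_1211f9_al.BK
end

section

/-! Campaign BK (MP_1211f9_al), task Y2: no induced hexagons -/

set_option autoImplicit false

namespace Pool.Agent.Lib.MP_1211f9_al.BK

open Relation

variable {V : Type*} {X : SimpleGraph V}

private theorem Y2_five (h5 : ∀ a : Fin 5 → V, Function.Injective a →
      ¬ ∀ i j, X.Adj (a i) (a j) ↔ (j = i + 1 ∨ i = j + 1))
    {b0 b1 b2 b3 x : V} (h01 : X.Adj b0 b1) (h12 : X.Adj b1 b2) (h23 : X.Adj b2 b3)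
    (h02 : ¬ X.Adj b0 b2) (h03 : ¬ X.Adj b0 b3) (h13 : ¬ X.Adj b1 b3)
    (n02 : b0 ≠ b2) (n03 : b0 ≠ b3) (n13 : b1 ≠ b3)
    (hx0 : X.Adj x b0) (hx3 : X.Adj x b3) (n1 : x ≠ b1) (n2 : x ≠ b2) :
    X.Adj x b1 ∨ X.Adj x b2 := by
  by_contra hcon
  rw [not_or] at hcon
  obtain ⟨hx1, hx2⟩ := hcon
  have h10 := h01.symm
  have h21 := h12.symm
  have h32 := h23.symm
  have h20 : ¬ X.Adj b2 b0 := fun h => h02 h.symm
  have h30 : ¬ X.Adj b3 b0 := fun h => h03 h.symm
  have h31 : ¬ X.Adj b3 b1 := fun h => h13 h.symm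
  have h0x := hx0.symm
  have h3x := hx3.symm
  have h1x : ¬ X.Adj b1 x := fun h => hx1 h.symm
  have h2x : ¬ X.Adj b2 x := fun h => hx2 h.symm
  have l0 : ¬ X.Adj b0 b0 := X.irrefl
  have l1 : ¬ X.Adj b1 b1 := X.irrefl
  have l2 : ¬ X.Adj b2 b2 := X.irrefl
  have l3 : ¬ X.Adj b3 b3 := X.irrefl
  have lx : ¬ X.Adj x x := X.irrefl
  refine h5 ![b0, b1, b2, b3, x] ?_ ?_
  · have e01 := h01.ne
    have e12 := h12.ne
    have e23 := h23.ne
    have ex0 := hx0.ne
    have ex3 := hx3.ne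
    intro i j hij
    fin_cases i <;> fin_cases j <;> first
      | rfl
      | exact absurd hij e01
      | exact absurd hij.symm e01
      | exact absurd hij e12
      | exact absurd hij.symm e12
      | exact absurd hij e23
      | exact absurd hij.symm e23
      | exact absurd hij ex0
      | exact absurd hij.symm ex0
      | exact absurd hij ex3
      | exact absurd hij.symm ex3
      | exact absurd hij n02
      | exact absurd hij.symm n02
      | exact absurd hij n03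
      | exact absurd hij.symm n03
      | exact absurd hij n13
      | exact absurd hij.symm n13
      | exact absurd hij n1
      | exact absurd hij.symm n1
      | exact absurd hij n2
      | exact absurd hij.symm n2
  · intro i j
    fin_cases i <;> fin_cases j <;> first
      | exact iff_of_true (by assumption) (by decide)
      | exact iff_of_false (by assumption) (by decide)

private theorem Y2_dec : ∀ i : Fin 6, (0 = i + 1 ∨ i = 0 + 1) → (3 = i + 1 ∨ i = 3 + 1) → False := by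
  decide

private theorem Y2_both (hS : ∀ a b c d, ¬ Sq X a b c d)
    (h5 : ∀ a : Fin 5 → V, Function.Injective a →
      ¬ ∀ i j, X.Adj (a i) (a j) ↔ (j = i + 1 ∨ i = j + 1))
    {b0 b1 b2 b3 x : V} (h01 : X.Adj b0 b1) (h12 : X.Adj b1 b2) (h23 : X.Adj b2 b3)
    (h02 : ¬ X.Adj b0 b2) (h03 : ¬ X.Adj b0 b3) (h13 : ¬ X.Adj b1 b3)
    (n02 : b0 ≠ b2) (n03 : b0 ≠ b3) (n13 : b1 ≠ b3)
    (hx0 : X.Adj x b0) (hx3 : X.Adj x b3) (n1 : x ≠ b1) (n2 : x ≠ b2) :
    X.Adj x b1 ∧ X.Adj x b2 := by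
  have h := Y2_five h5 h01 h12 h23 h02 h03 h13 n02 n03 n13 hx0 hx3 n1 n2
  by_cases k1 : X.Adj x b1
  · by_cases k2 : X.Adj x b2
    · exact ⟨k1, k2⟩
    · exact absurd ⟨h12, h23, hx3.symm, k1, n13, n2.symm, h13, fun h => k2 h.symm⟩
        (hS b1 b2 b3 x)
  · have k2 : X.Adj x b2 := h.resolve_left k1
    exact absurd ⟨h01, h12, k2.symm, hx0, n02, n1.symm, h02, fun h => k1 h.symm⟩
        (hS b0 b1 b2 x)

/-- PROOF. Let `a 0, .., a 5` be an induced hexagon. Claim: `d(a 0, a 3) = 2` or `d(a 1, a 4) = 2` or `d(a 2, a 5) = 2`. It is at most three. If `d(a 0, a 3) = 3`: `d(a 0, a 2) = d(a 0, a 4) = 2`, QC from `a 0` with top `a 3` gives `x ~ a 2, a 4`, `d(a 0, x) = 1`, and `x` is not adjacent to `a 3` (levels), so `Sq X (a 2) (a 3) (a 4) x`: a contradiction. (So in fact always `d(a 0, a 3) = 2`.)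
So `a 0`, `a 3` have a common neighbour `x` (`x ≠ a i` for all `i`, as the hexagon is induced). The cycle `a 0, a 1, a 2, a 3, x` is not an induced five-cycle (`h5`), so `x ~ a 1` or `x ~ a 2`; if `x ~ a 1` and not `x ~ a 2`: `Sq X (a 1) (a 2) (a 3) x`, a contradiction; similarly the other case. So `x ~ a 1, a 2`. In the same way `x ~ a 4, a 5`. So `x` is the hub of a wheel with six spokes. -/
theorem noHexagon_of_noWheel6 (hX : X.Connected) (hqc : QC X) (hS : ∀ a b c d, ¬ Sq X a b c d)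
    (h5 : ∀ a : Fin 5 → V, Function.Injective a →
      ¬ ∀ i j, X.Adj (a i) (a j) ↔ (j = i + 1 ∨ i = j + 1))
    (h6 : NoWheel6 X) (a : Fin 6 → V) (ha : Function.Injective a) :
    ¬ ∀ i j, X.Adj (a i) (a j) ↔ (j = i + 1 ∨ i = j + 1) := by
  intro H
  have A : ∀ i j : Fin 6, (j = i + 1 ∨ i = j + 1) → X.Adj (a i) (a j) := fun i j h => (H i j).2 h
  have B : ∀ i j : Fin 6, ¬ (j = i + 1 ∨ i = j + 1) → ¬ X.Adj (a i) (a j) :=
    fun i j h h' => h ((H i j).1 h')
  have N : ∀ i j : Fin 6, i ≠ j → a i ≠ a j := fun i j h h' => h (ha h')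
  have d03 : X.dist (a 0) (a 3) = 2 := by
    have d02 : X.dist (a 0) (a 2) = 2 :=
      dist_two hX (A 0 1 (by decide)) (A 1 2 (by decide)) (N 0 2 (by decide)) (B 0 2 (by decide))
    have d04 : X.dist (a 0) (a 4) = 2 :=
      dist_two hX (A 0 5 (by decide)) (A 5 4 (by decide)) (N 0 4 (by decide)) (B 0 4 (by decide))
    have hle : X.dist (a 0) (a 3) ≤ 3 := by
      have := dist_le_succ hX (a 0) (A 3 2 (by decide))
      omega
    have h0 : X.dist (a 0) (a 3) ≠ 0 := fun h =>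
      N 0 3 (by decide) ((hX.dist_eq_zero_iff).1 h)
    have h1 : X.dist (a 0) (a 3) ≠ 1 := fun h =>
      B 0 3 (by decide) (SimpleGraph.dist_eq_one_iff_adj.1 h)
    by_contra h2
    have h3 : X.dist (a 0) (a 3) = 1 + 2 := by omega
    obtain ⟨w, hw2, hw4, hw⟩ := hqc (a 0) (a 3) (a 2) (a 4) 1 h3 d02 d04 (A 3 2 (by decide))
      (A 3 4 (by decide)) (N 2 4 (by decide)) (B 2 4 (by decide))
    refine hS (a 2) (a 3) (a 4) w ⟨A 2 3 (by decide), A 3 4 (by decide), hw4.symm, hw2,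
      N 2 4 (by decide), ?_, B 2 4 (by decide), ?_⟩
    · intro h
      rw [← h] at hw
      omega
    · intro h
      have := dist_le_succ hX (a 0) h
      omega
  obtain ⟨x, hx1, hx2⟩ := exists_mid hX (a := 1) (b := 1) d03
  have hx0 : X.Adj x (a 0) := (SimpleGraph.dist_eq_one_iff_adj.1 hx1).symm
  have hx3 : X.Adj x (a 3) := SimpleGraph.dist_eq_one_iff_adj.1 hx2
  have hne : ∀ i, x ≠ a i := by
    intro i h
    rw [h] at hx0 hx3
    have e0 := (H i 0).1 hx0
    have e3 := (H i 3).1 hx3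
    exact Y2_dec i e0 e3
  have k1 := Y2_both hS h5 (A 0 1 (by decide)) (A 1 2 (by decide)) (A 2 3 (by decide))
    (B 0 2 (by decide)) (B 0 3 (by decide)) (B 1 3 (by decide)) (N 0 2 (by decide))
    (N 0 3 (by decide)) (N 1 3 (by decide)) hx0 hx3 (hne 1) (hne 2)
  have k2 := Y2_both hS h5 (A 0 5 (by decide)) (A 5 4 (by decide)) (A 4 3 (by decide))
    (B 0 4 (by decide)) (B 0 3 (by decide)) (B 5 3 (by decide)) (N 0 4 (by decide))
    (N 0 3 (by decide)) (N 5 3 (by decide)) hx0 hx3 (hne 5) (hne 4)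
  refine h6 a x ha ?_ H
  intro i
  fin_cases i
  · exact hx0
  · exact k1.1
  · exact k1.2
  · exact hx3
  · exact k2.2
  · exact k2.1

end Pool.Agent.Lib.MP_1211f9_al.BK
end
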