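import Pool.Agent.Lib.MP_1211f9_al.Mg.G002
import Pool.Agent.Lib.MP_1211f9_al.Mg.G001
import Pool.Agent.Lib.MP_1211f9_al.Mg.G004
import Pool.Agent.Lib.MP_1211f9_al.BK.Y0

section

/-! Campaign BK (MP_1211f9_al), task B16: one step of a geodesic -/

set_option autoImplicit false

namespace Pool.Agent.Lib.MP_1211f9_al.BK

open Relation

variable {V : Type*} {X : SimpleGraph V}

/-- PROOF. `C = Cop X (x, x')` contains `x` and `x'`. `q = gate y`: `d(y, x) = d(y, q) + d(q, x)` and `d(y, x') = d(y, q) + d(q, x')`, so `d(x, q) = d(x', q) + 1`; `NN_eq`. For `k ≠ cl x x'`: `Sec X k x x'` (`cl_eq_iff_sec`), that is `rho k x = rho k x'`. -/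
theorem NN_step (hX : Bucolic X) {x x' y : V} (h : X.Adj x x')
    (hd : X.dist x y = X.dist x' y + 1) :
    NN X (cl X x x' h) x y = NN X (cl X x x' h) x' y + 1 ∧
      ∀ k, k ≠ cl X x x' h → NN X k x y = NN X k x' y := by
  have hC : Gated X (Cop X (x, x')) := cop_gated hX (p := (x, x')) h
  have hx : x ∈ Cop X (x, x') := cop_fst (x, x')
  have hx' : x' ∈ Cop X (x, x') := cop_snd (p := (x, x')) h
  constructor
  · have e1 := NN_eq hX (p := (x, x')) h x y
    have e2 := NN_eq hX (p := (x, x')) h x' y
    rw [gate_of_mem hX.conn hC hx] at e1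
    rw [gate_of_mem hX.conn hC hx'] at e2
    have d1 := gate_dist hC y hx
    have d2 := gate_dist hC y hx'
    have c1 : X.dist x y = X.dist y x := SimpleGraph.dist_comm
    have c2 : X.dist x' y = X.dist y x' := SimpleGraph.dist_comm
    have c3 : X.dist (gate X (Cop X (x, x')) y) x = X.dist x (gate X (Cop X (x, x')) y) :=
      SimpleGraph.dist_comm
    have c4 : X.dist (gate X (Cop X (x, x')) y) x' = X.dist x' (gate X (Cop X (x, x')) y) :=
      SimpleGraph.dist_comm
    change NN X (cl X x x' h) x y = _ at e1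
    change NN X (cl X x x' h) x' y = _ at e2
    rw [e1, e2]
    omega
  · intro k hk
    have h1 : Sec X k x x' := by
      by_contra hcon
      exact hk ((cl_eq_iff_sec hX k h).mpr hcon).symm
    unfold Sec at h1
    unfold NN
    rw [h1]

end Pool.Agent.Lib.MP_1211f9_al.BK
end

section

/-! Campaign BK (MP_1211f9_al), task B17: the distance formula -/

set_option autoImplicit false

namespace Pool.Agent.Lib.MP_1211f9_al.BK

open Relation

variable {V : Type*} {X : SimpleGraph V}

theorem NN_zero_iff (hX : Bucolic X) (i : Cls X) (x y : V) : NN X i x y = 0 ↔ Sec X i x y :=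
  hX.conn.dist_eq_zero_iff

private theorem B17_step (hX : Bucolic X) {x y : V} {k : ℕ} (h : X.dist x y = k + 1) :
    ∃ (x' : V) (_ : X.Adj x x'), X.dist x y = X.dist x' y + 1 ∧ X.dist x' y = k := by
  obtain ⟨w, hw, hk⟩ := exists_closer hX.conn (x := y) (y := x) (k := k) (by rw [SimpleGraph.dist_comm]; exact h)
  rw [SimpleGraph.dist_comm] at hk
  exact ⟨w, hw, by rw [h, hk], hk⟩

private theorem B17_self (hX : Bucolic X) (i : Cls X) (x : V) : NN X i x x = 0 :=
  (NN_zero_iff hX i x x).2 rfl

/-- PROOF. Induction on `d(x, y)`; `x' ~ x` closer to `y`; `Sep x y ⊆ insert (cl x x') (Sep x' y)` by `NN_step`. -/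
theorem sep_finite (hX : Bucolic X) (x y : V) : (Sep X x y).Finite := by
  obtain ⟨n, hn⟩ : ∃ n, X.dist x y = n := ⟨_, rfl⟩
  induction n generalizing x with
  | zero =>
    have hxy : x = y := hX.conn.dist_eq_zero_iff.1 hn
    subst hxy
    refine Set.Finite.subset Set.finite_empty ?_
    intro i hi
    exact hi rfl
  | succ k ih =>
    obtain ⟨x', hx', hd, hk⟩ := B17_step hX hn
    refine ((ih x' hk).insert (cl X x x' hx')).subset ?_
    intro i hi
    by_contra hni
    rw [Set.mem_insert_iff, not_or] at hni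
    have h1 : NN X i x' y = 0 := by
      rw [NN_zero_iff hX]
      by_contra h
      exact hni.2 h
    have h2 := (NN_step hX hx' hd).2 i hni.1
    rw [h1, NN_zero_iff hX] at h2
    exact hi h2

/-- PROOF. Induction on `d(x, y)`: `x' ~ x` closer to `y`, `Sep x' y ⊆ Sep x y ⊆ F`, `cl x x' ∈ Sep x y ⊆ F`, `NN_step`. -/
theorem dist_eq_sum (hX : Bucolic X) (F : Finset (Cls X)) {x y : V} (h : Sep X x y ⊆ F) :
    X.dist x y = ∑ i ∈ F, NN X i x y := by
  classical
  obtain ⟨n, hn⟩ : ∃ n, X.dist x y = n := ⟨_, rfl⟩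
  induction n generalizing x with
  | zero =>
    have hxy : x = y := hX.conn.dist_eq_zero_iff.1 hn
    subst hxy
    rw [hn, Finset.sum_eq_zero]
    intro i _
    exact B17_self hX i x
  | succ k ih =>
    obtain ⟨x', hx', hd, hk⟩ := B17_step hX hn
    obtain ⟨h1, h2⟩ := NN_step hX hx' hd
    have hc : cl X x x' hx' ∈ F := by
      have h3 : cl X x x' hx' ∈ Sep X x y := by
        intro hs
        rw [← NN_zero_iff hX] at hs
        omega
      exact_mod_cast h h3
    have hsub : Sep X x' y ⊆ F := by
      intro i hi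
      apply h
      intro hs
      rw [← NN_zero_iff hX] at hs
      apply hi
      rw [← NN_zero_iff hX]
      by_cases hi2 : i = cl X x x' hx'
      · rw [hi2] at hs
        omega
      · rw [h2 i hi2] at hs
        exact hs
    have h4 := ih hsub hk
    rw [hd, h4]
    have h5 : ∀ i ∈ F, NN X i x y = NN X i x' y + if i = cl X x x' hx' then 1 else 0 := by
      intro i _
      by_cases hi2 : i = cl X x x' hx'
      · rw [if_pos hi2, hi2, h1]
      · rw [if_neg hi2, h2 i hi2, add_zero]
    rw [Finset.sum_congr rfl h5, Finset.sum_add_distrib, Finset.sum_ite_eq' F, if_pos hc]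

/-- PROOF. `dist_eq_sum` with `F = (sep_finite x y).toFinset`: every term is `≥ 1`. -/
theorem sep_ncard (hX : Bucolic X) (x y : V) : (Sep X x y).ncard ≤ X.dist x y := by
  have hf := sep_finite hX x y
  rw [Set.ncard_eq_toFinset_card _ hf, dist_eq_sum hX hf.toFinset (by intro i hi; simpa using hi),
    Finset.card_eq_sum_ones]
  apply Finset.sum_le_sum
  intro i hi
  rw [Set.Finite.mem_toFinset] at hi
  rcases Nat.eq_zero_or_pos (NN X i x y) with h0 | h0
  · exact absurd ((NN_zero_iff hX i x y).1 h0) hi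
  · exact h0

/-- PROOF. Induction on `d(x, y)`: `x' ~ x` closer to `y` is closer to `z` as well, `NN_step` for both. -/
theorem NN_add (hX : Bucolic X) (i : Cls X) {x y z : V}
    (h : X.dist x z = X.dist x y + X.dist y z) : NN X i x z = NN X i x y + NN X i y z := by
  obtain ⟨n, hn⟩ : ∃ n, X.dist x y = n := ⟨_, rfl⟩
  induction n generalizing x with
  | zero =>
    have hxy : x = y := hX.conn.dist_eq_zero_iff.1 hn
    subst hxy
    rw [B17_self hX, zero_add]
  | succ k ih =>
    obtain ⟨x', hx', hd, hk⟩ := B17_step hX hn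
    have h1 : X.dist x' z ≤ X.dist x' y + X.dist y z := hX.conn.dist_triangle
    have h2 : X.dist x z ≤ X.dist x x' + X.dist x' z := hX.conn.dist_triangle
    have h3 : X.dist x x' = 1 := SimpleGraph.dist_eq_one_iff_adj.2 hx'
    have h4 : X.dist x' z = X.dist x' y + X.dist y z := by omega
    have h5 : X.dist x z = X.dist x' z + 1 := by omega
    have h6 := ih h4 hk
    obtain ⟨a1, a2⟩ := NN_step hX hx' hd
    obtain ⟨b1, b2⟩ := NN_step hX hx' h5
    by_cases hi : i = cl X x x' hx'
    · rw [hi] at h6 ⊢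
      omega
    · rw [a2 i hi, b2 i hi]
      exact h6

theorem sec_between (hX : Bucolic X) {i : Cls X} {x y z : V}
    (h : X.dist x z = X.dist x y + X.dist y z) (hs : Sec X i x z) : Sec X i x y := by
  have h1 := NN_add hX i h
  rw [← NN_zero_iff hX] at hs ⊢
  omega

end Pool.Agent.Lib.MP_1211f9_al.BK
end

section

/-! Campaign BK (MP_1211f9_al), task B18: sectors are gated -/

set_option autoImplicit false

namespace Pool.Agent.Lib.MP_1211f9_al.BK

open Relation

variable {V : Type*} {X : SimpleGraph V}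

private theorem B18_conn (hX : Bucolic X) (i : Cls X) (p : V) (k : ℕ) : ∀ x : V, Sec X i x p →
    X.dist (rho X i x) x = k →
    ReflTransGen (fun u v => X.Adj u v ∧ u ∈ {v | Sec X i v p} ∧ v ∈ {v | Sec X i v p}) x (rho X i x) := by
  induction k with
  | zero =>
    intro x _ hk
    have h : rho X i x = x := (hX.conn.dist_eq_zero_iff).mp hk
    rw [h]
  | succ k ih =>
    intro x hx hk
    obtain ⟨w, hw1, hw2⟩ := exists_closer hX.conn hk
    have hg : rho X i w = rho X i x := by
      apply gate_between hX.conn (CC_gated hX i)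
      have h1 : X.dist x w = 1 := SimpleGraph.dist_eq_one_iff_adj.mpr hw1
      have h2 : X.dist (gate X (CC X i) x) x = k + 1 := hk
      have h3 : X.dist (gate X (CC X i) x) w = k := hw2
      rw [SimpleGraph.dist_comm] at h2 h3
      omega
    have hws : Sec X i w p := by
      unfold Sec at hx ⊢
      rw [hg, hx]
    have h4 := ih w hws (by rw [hg]; exact hw2)
    rw [hg] at h4
    exact ReflTransGen.head ⟨hw1, hx, hws⟩ h4

/-- PROOF. `chepoi`. Nonempty: `p`. `NbrClosed`: if `y` has distinct neighbours `a, b` in the sector and is not in the sector, `gate_inj` (set `CC X i`, centre `y`) gives `a = b`. Connected: every `x` is connected inside its sector to `rho i x` (vertices on a geodesic, `gate_between`, `exists_closer`), which is the same vertex for all `x` of the sector. -/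
theorem sector_gated (hX : Bucolic X) (i : Cls X) (p : V) : Gated X {v | Sec X i v p} := by
  have hsymm : ∀ a b : V, ReflTransGen (fun u v => X.Adj u v ∧ u ∈ {v | Sec X i v p} ∧ v ∈ {v | Sec X i v p}) a b →
      ReflTransGen (fun u v => X.Adj u v ∧ u ∈ {v | Sec X i v p} ∧ v ∈ {v | Sec X i v p}) b a := by
    intro a b h
    induction h with
    | refl => exact ReflTransGen.refl
    | tail _ h2 ih => exact ReflTransGen.head ⟨h2.1.symm, h2.2.2, h2.2.1⟩ ih
  apply chepoi hX
  · exact ⟨p, rfl⟩
  · intro a ha b hb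
    have ha' : rho X i a = rho X i p := ha
    have hb' : rho X i b = rho X i p := hb
    have h1 := B18_conn hX i p _ a ha rfl
    have h2 := B18_conn hX i p _ b hb rfl
    rw [ha'] at h1
    rw [hb'] at h2
    exact h1.trans (hsymm _ _ h2)
  · intro y a b ha hb hab hya hyb
    have ha' : rho X i a = rho X i p := ha
    have hb' : rho X i b = rho X i p := hb
    by_contra hy
    have hy' : ¬ rho X i y = rho X i p := hy
    apply hab
    apply gate_inj hX (CC_gated hX i) hya hyb
    · show rho X i a = rho X i b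
      rw [ha', hb']
    · show rho X i a ≠ rho X i y
      rw [ha']
      exact fun h => hy' h.symm

end Pool.Agent.Lib.MP_1211f9_al.BK
end

section

/-! Campaign BK (MP_1211f9_al), task B19: classes which do not cross -/

set_option autoImplicit false

namespace Pool.Agent.Lib.MP_1211f9_al.BK

open Relation

variable {V : Type*} {X : SimpleGraph V}

theorem sec_equiv (i : Cls X) : Equivalence (Sec X i) :=
  ⟨fun _ => rfl, fun h => Eq.symm h, fun h h' => Eq.trans h h'⟩

theorem end_nonempty (i : Cls X) : (End X i).Nonempty :=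
  ⟨src X i, tgt X i, src_adj i, cl_src i⟩

theorem cross_symm {i j : Cls X} (h : Cross X i j) : Cross X j i := by
  obtain ⟨a, b, c, d, h, h1, h2⟩ := h
  exact ⟨a, d, c, b, sq_flip h, h2, h1⟩

theorem cross_end {i j : Cls X} (h : Cross X i j) : (End X i ∩ End X j).Nonempty := by
  obtain ⟨a, b, c, d, h, h1, h2⟩ := h
  exact ⟨a, ⟨b, _, h1⟩, ⟨d, _, h2⟩⟩

/-- PROOF. Square `a b c d`, `cl a b = i`, `cl a d = j`: `gate_sq` for `CC X i`: `Sec i d a`, so `cl a d ≠ i`. -/
theorem cross_ne (hX : Bucolic X) {i j : Cls X} (h : Cross X i j) : i ≠ j := by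
  rintro rfl
  obtain ⟨a, b, c, d, h, h1, h2⟩ := h
  have h3 : ¬ Sec X i a b := (cl_eq_iff_sec hX i _).1 h1
  have h4 : ¬ Sec X i a d := (cl_eq_iff_sec hX i _).1 h2
  have h5 := gate_sq hX (CC_gated hX i) (CC_noSq hX i) h h3
  exact h4 h5.2.symm

/-- All `j`-edges are in one `i`-sector. PROOF. Fix a `j`-edge `u v`. `cl_invariant` for `P a b = (cl a b = j ∧ Sec i a u ∧ Sec i b u)` (for adjacent `a, b`; write `∃ h : X.Adj a b, ...`): flip: clear. Triangle `a b c`: `cl a c = cl a b = j ≠ i` so `Sec i a c`. Square `a b c d` with `cl a b = j`: `cl d c = j`; if `cl a d = i` then `Cross i j`; so `Sec i a d`, and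
`cl d c = j ≠ i`: `Sec i d c`. -/
theorem end_sec (hX : Bucolic X) {i j : Cls X} (hij : i ≠ j) (hc : ¬ Cross X i j) {u v : V}
    (hu : u ∈ End X j) (hv : v ∈ End X j) : Sec X i u v := by
  obtain ⟨u', hu1, hu2⟩ := hu
  obtain ⟨v', hv1, hv2⟩ := hv
  -- edges of the class `j` do not leave an `i`-sector
  have key : ∀ {a b : V} (h : X.Adj a b), cl X a b h = j → Sec X i a b := by
    intro a b h hj
    by_contra hcon
    exact hij (((cl_eq_iff_sec hX i h).2 hcon).symm.trans hj)
  have hinv := cl_invariant (X := X)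
    (fun a b => ∃ h : X.Adj a b, cl X a b h = j ∧ Sec X i a u ∧ Sec X i b u)
    (by
      rintro a b hab ⟨h, h1, h2, h3⟩
      exact ⟨h.symm, (cl_flip h).symm.trans h1, h3, h2⟩)
    (by
      rintro a b c hab hac hbc ⟨h, h1, h2, h3⟩
      have h4 : cl X a c hac = j := (cl_tri h hac hbc).symm.trans h1
      exact ⟨hac, h4, h2, (key hac h4).symm.trans h2⟩)
    (by
      rintro a b c d hsq ⟨h, h1, h2, h3⟩
      have hdc : X.Adj d c := hsq.2.2.1.symm
      have h4 : cl X d c hdc = j := (cl_sq hsq h hdc).symm.trans h1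
      have had : Sec X i a d := by
        by_contra hcon
        exact hc ⟨a, d, c, b, sq_flip hsq, (cl_eq_iff_sec hX i _).2 hcon, h1⟩
      have h5 : Sec X i d u := had.symm.trans h2
      exact ⟨hdc, h4, h5, (key hdc h4).symm.trans h5⟩)
    hu1 hv1 (hu2.trans hv2.symm) ⟨hu1, hu2, rfl, (key hu1 hu2).symm⟩
  obtain ⟨_, _, h3, _⟩ := hinv
  exact h3.symm

/-- PROOF. Induction on a walk from `v` to `u` (`X.Connected`), built at its head: step `v ~ v'`, the claim for `v'`. If `cl v v' = i`: `v ∈ End i`, `Sec j v w` by `end_sec`. Otherwise `Sec i v v'`. If `Sec i v' u`: `Sec i v u`. Otherwise `Sec j v' w` and not `Sec i v' u`: `cl v v' ≠ j` (otherwise `v' ∈ End j` and `Sec i v' u` by `end_sec`), so `Sec j v v'` and `Sec j v w`. -/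
theorem np2 (hX : Bucolic X) {i j : Cls X} (hij : i ≠ j) (hc : ¬ Cross X i j) (v : V) {u w : V}
    (hu : u ∈ End X j) (hw : w ∈ End X i) : Sec X i v u ∨ Sec X j v w := by
  obtain ⟨p⟩ := hX.conn.preconnected v u
  induction p with
  | nil => exact Or.inl rfl
  | @cons v v' u h p ih =>
    have ih' := ih hu
    by_cases h1 : cl X v v' h = i
    · exact Or.inr (end_sec hX hij.symm (fun hx => hc (cross_symm hx)) ⟨v', h, h1⟩ hw)
    · have h2 : Sec X i v v' := by
        by_contra hcon
        exact h1 ((cl_eq_iff_sec hX i h).2 hcon)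
      rcases ih' with h3 | h3
      · exact Or.inl (h2.trans h3)
      · by_cases h4 : cl X v v' h = j
        · left
          have h5 : v' ∈ End X j := ⟨v, h.symm, (cl_flip h).symm.trans h4⟩
          exact h2.trans (end_sec hX hij hc h5 hu)
        · right
          have h5 : Sec X j v v' := by
            by_contra hcon
            exact h4 ((cl_eq_iff_sec hX j h).2 hcon)
          exact h5.trans h3

end Pool.Agent.Lib.MP_1211f9_al.BK
end

section

/-! Campaign BK (MP_1211f9_al), task B20: the copies of a class are full -/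

set_option autoImplicit false

namespace Pool.Agent.Lib.MP_1211f9_al.BK

open Relation

variable {V : Type*} {X : SimpleGraph V}

private theorem B20_sub {u v : V} (h : X.Adj u v) {a : V} (ha : a ∈ Cop X (u, v)) :
    a ∈ End X (cl X u v h) := by
  obtain ⟨x, hx⟩ := ha
  have hax : X.Adj a x := germ_adj (p := (u, v)) (q := (a, x)) h hx
  exact ⟨x, hax, (germ_cl (p := (u, v)) (q := (a, x)) h hax hx).symm⟩

private theorem B20_main (hX : Bucolic X) {u v : V} (h : X.Adj u v) (w : V) :
    gate X (Cop X (u, v)) w ∈ Cop X (u, v) ∧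
    Sec X (cl X u v h) (gate X (Cop X (u, v)) w) w ∧
    X.dist u (gate X (Cop X (u, v)) w) = NN X (cl X u v h) u w := by
  have hG : Gated X (Cop X (u, v)) := cop_gated hX (p := (u, v)) h
  have hm : gate X (Cop X (u, v)) w ∈ Cop X (u, v) := gate_mem hG w
  refine ⟨hm, ?_, ?_⟩
  · exact (sec_iff hX (p := (u, v)) h _ _).mpr (gate_of_mem hX.conn hG hm)
  · have h1 := NN_eq hX (p := (u, v)) h u w
    have hu : gate X (Cop X (u, v)) u = u :=
      gate_of_mem hX.conn hG (cop_fst (u, v))
    rw [hu] at h1
    exact h1.symm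

/-- PROOF. `u ∈ End i`: an edge `u v` of class `i`; `D = Cop X (u, v)`. `u' = gate D w`. `D ⊆ End i` (`germ_cl`). `Sec i u' w` (`sec_iff`; `gate_of_mem`); `d(u, u') = NN i u w` by `NN_eq` (`gate D u = u`). -/
theorem full (hX : Bucolic X) {i : Cls X} {u : V} (hu : u ∈ End X i) (w : V) :
    ∃ u' ∈ End X i, Sec X i u' w ∧ X.dist u u' = NN X i u w := by
  obtain ⟨v, h, rfl⟩ := hu
  obtain ⟨h1, h2, h3⟩ := B20_main hX h w
  exact ⟨_, B20_sub h h1, h2, h3⟩

/-- PROOF. As `full`; `D` is connected inside `D ⊆ End i` (`cop_conn`). -/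
theorem full_conn (hX : Bucolic X) {i : Cls X} {u : V} (hu : u ∈ End X i) (w : V) :
    ∃ u' ∈ End X i, Sec X i u' w ∧
      ReflTransGen (fun a b => X.Adj a b ∧ a ∈ End X i ∧ b ∈ End X i) u u' := by
  obtain ⟨v, h, rfl⟩ := hu
  obtain ⟨h1, h2, h3⟩ := B20_main hX h w
  refine ⟨_, B20_sub h h1, h2, ?_⟩
  have hc := cop_conn (p := (u, v)) h u (cop_fst (u, v)) _ h1
  generalize gate X (Cop X (u, v)) w = y at hc
  induction hc with
  | refl => exact ReflTransGen.refl
  | tail _ hab ih => exact ih.tail ⟨hab.1, B20_sub h hab.2.1, B20_sub h hab.2.2⟩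

end Pool.Agent.Lib.MP_1211f9_al.BK
end

section

/-! Campaign BK (MP_1211f9_al), task B21: the carrier is closed -/

set_option autoImplicit false

namespace Pool.Agent.Lib.MP_1211f9_al.BK

open Relation

variable {V : Type*} {X : SimpleGraph V}

/-- The darts of a germ class are edges. -/
private theorem B21_adj {p q : V × V} (hp : X.Adj p.1 p.2) (h : ReflTransGen (GStep X) p q) :
    X.Adj q.1 q.2 := by
  induction h with
  | refl => exact hp
  | tail _ hs ih =>
    rcases hs.2 with h' | h'
    · exact h'.2.1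
    · rw [h'.1, h'.2]
      exact ih.symm

/-- Every vertex of `CC X i` has a neighbour in `CC X i`. -/
private theorem B21_nbr (i : Cls X) {r : V} (hr : r ∈ CC X i) : ∃ q ∈ CC X i, X.Adj r q := by
  obtain ⟨x, hx⟩ := hr
  have hadj : X.Adj r x := B21_adj (src_adj i) hx
  exact ⟨x, ⟨r, hx.tail ⟨hadj, Or.inr ⟨rfl, rfl⟩⟩⟩, hadj⟩

/-- PROOF. Let `y` have the distinct neighbours `u₁, u₂ ∈ End i` and suppose `y ∉ End i`. Then the edges `y u₁`, `y u₂` are not of class `i`: `y, u₁, u₂` are in one `i`-sector. Choose `q` adjacent in `CC X i` to `rho i y` (`CC X i` is a germ class: connected with at least two vertices), so `NN i u₁ q = NN i u₂ q = 1`. `full`: `u₁' , u₂' ∈ End i` in the sector of `q`, `u₁ ~ u₁'`, `u₂ ~ u₂'`.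
Let `g` be the gate of `y` in the sector `S` of `q` (`sector_gated`). `y ∉ S`. No vertex of `S` is adjacent to `y` (such an edge is of class `i`, so `y ∈ End i`). So `d(y, g) ≥ 2`, `d(y, u₁') ≤ 2` and `d(y, u₁') = d(y, g) + d(g, u₁')` give `u₁' = g`; in the same way `u₂' = g`. `gate_inj` (set `CC X i`, centre `g`): `u₁ = u₂`. -/
theorem end_nbrClosed (hX : Bucolic X) (i : Cls X) : NbrClosed X (End X i) := by
  intro y u₁ u₂ hu₁ hu₂ hne hy₁ hy₂
  by_contra hy
  have hsec : ∀ v, X.Adj y v → Sec X i y v := by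
    intro v hv
    by_contra hn
    exact hy ⟨v, hv, (cl_eq_iff_sec hX i hv).mpr hn⟩
  have hG := CC_gated hX i
  obtain ⟨q, hqC, hrq⟩ := B21_nbr i (gate_mem hG y)
  have hrhoq : rho X i q = q := gate_of_mem hX.conn hG hqC
  have hNN : ∀ u, X.Adj y u → NN X i u q = 1 := by
    intro u hu
    have h1 : rho X i u = rho X i y := (hsec u hu).symm
    unfold NN
    rw [h1, hrhoq]
    exact SimpleGraph.dist_eq_one_iff_adj.mpr hrq
  have hyq : ¬ Sec X i y q := by
    intro h
    have h1 : rho X i y = q := h.trans hrhoq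
    have h2 : X.Adj (rho X i y) q := hrq
    rw [h1] at h2
    exact X.loopless.irrefl q h2
  have hS := sector_gated hX i q
  have hg := gate_mem hS y
  have hyg0 : X.dist y (gate X {v | Sec X i v q} y) ≠ 0 := by
    intro h
    have h1 := (hX.conn.dist_eq_zero_iff).mp h
    have h2 : Sec X i (gate X {v | Sec X i v q} y) q := hg
    rw [← h1] at h2
    exact hyq h2
  have hyg1 : X.dist y (gate X {v | Sec X i v q} y) ≠ 1 := by
    intro h
    have h1 := SimpleGraph.dist_eq_one_iff_adj.mp h
    have h2 : Sec X i (gate X {v | Sec X i v q} y) q := hg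
    exact hyq ((hsec _ h1).trans h2)
  have key : ∀ u, u ∈ End X i → X.Adj y u → X.Adj (gate X {v | Sec X i v q} y) u := by
    intro u hu hyu
    obtain ⟨u', _, hs, hd⟩ := full hX hu q
    rw [hNN u hyu] at hd
    have h1 : X.dist y u' = X.dist y (gate X {v | Sec X i v q} y) +
        X.dist (gate X {v | Sec X i v q} y) u' := gate_dist hS y hs
    have h2 : X.dist y u' ≤ X.dist y u + X.dist u u' := hX.conn.dist_triangle
    have h3 : X.dist y u = 1 := SimpleGraph.dist_eq_one_iff_adj.mpr hyu
    have h4 : X.dist (gate X {v | Sec X i v q} y) u' = 0 := by omega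
    have h5 : gate X {v | Sec X i v q} y = u' := (hX.conn.dist_eq_zero_iff).mp h4
    rw [h5]
    exact (SimpleGraph.dist_eq_one_iff_adj.mp hd).symm
  have e₁ : rho X i u₁ = rho X i y := (hsec u₁ hy₁).symm
  have e₂ : rho X i u₂ = rho X i y := (hsec u₂ hy₂).symm
  refine hne (gate_inj hX hG (key u₁ hu₁ hy₁) (key u₂ hu₂ hy₂) (e₁.trans e₂.symm) ?_)
  intro h
  have h1 : rho X i u₁ = rho X i (gate X {v | Sec X i v q} y) := h
  have h2 : Sec X i (gate X {v | Sec X i v q} y) q := hg
  exact hyq (e₁.symm.trans (h1.trans h2))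

end Pool.Agent.Lib.MP_1211f9_al.BK
end

section

/-! Campaign BK (MP_1211f9_al), task B22: the carrier is connected, so gated -/

set_option autoImplicit false

namespace Pool.Agent.Lib.MP_1211f9_al.BK

open Relation

variable {V : Type*} {X : SimpleGraph V}

private theorem B22_gate (hX : X.Connected) {S : Set V} (hS : Gated X S) {a b : V} (ha : a ∉ S)
    (hb : b ∈ S) (hab : X.Adj a b) : ∀ h ∈ S, X.dist a h = 1 + X.dist b h := by
  obtain ⟨p, hp, hp'⟩ := hS a
  have h1 := hp' b hb
  have h2 : X.dist a b = 1 := SimpleGraph.dist_eq_one_iff_adj.2 hab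
  have h3 : X.dist a p ≠ 0 := by
    intro h0
    have := (hX.dist_eq_zero_iff).1 h0
    rw [this] at ha
    exact ha hp
  have h4 : X.dist p b = 0 := by omega
  have h5 : p = b := (hX.dist_eq_zero_iff).1 h4
  subst h5
  intro h hh
  rw [hp' h hh, h2]

/-- PROOF. Let `u, v ∈ End i` be in the same sector `S` (`sector_gated`); induction on `m = d(u, v)`. `m ≥ 1`: `w ~ u` with `d(w, v) = m - 1`; `w ∈ S` (`gated_convex`). Let `q` be adjacent to `rho i u` in `CC X i`, `S'` the sector of `q`, `full`: `u', v' ∈ End i ∩ S'`, `u ~ u'`, `v ~ v'`. The gate of `v'` in `S` is `v` (`d(v', v) = 1`, `v' ∉ S`), and the gate of `u` in `S'` is `u'`. So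
`d(v', u) = 1 + m`, `d(v', w) = 1 + (m - 1) = m`, `d(u, v') = 1 + d(u', v')`, so `d(u', v') = m`. `w ≠ u'` (different sectors), `w` not adjacent to `u'` (`gate_inj` centre `u'`: `u ≠ w`). QC from `v'` with top `u` gives `x ~ w, u'` with `d(v', x) = m - 1`; `x ∈ S'` (`gated_convex`: `d(u', v') = 1 + (m - 1)`). So `w ~ x` have different sectors: `w ∈ End i`
(`cl_eq_iff_sec`), and `u ~ w`, induction for `w, v`. -/
theorem end_conn_sector (hX : Bucolic X) (i : Cls X) {u v : V} (hu : u ∈ End X i)
    (hv : v ∈ End X i) (h : Sec X i u v) :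
    ReflTransGen (fun a b => X.Adj a b ∧ a ∈ End X i ∧ b ∈ End X i) u v := by
  obtain ⟨v', hv', hcl⟩ := hv
  have hvS : v ∈ End X i := ⟨v', hv', hcl⟩
  have hnsec : ¬ Sec X i v v' := (cl_eq_iff_sec hX i hv').1 hcl
  have hC := CC_gated hX i
  have hSg := sector_gated hX i v
  have hSg' := sector_gated hX i v'
  have hv'S : v' ∉ {x | Sec X i x v} := fun h => hnsec (Eq.symm h)
  have hd1 := B22_gate hX.conn hSg hv'S (show v ∈ {x | Sec X i x v} from rfl) hv'.symm
  obtain ⟨m, hm⟩ : ∃ m, X.dist u v = m := ⟨_, rfl⟩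
  induction m generalizing u with
  | zero =>
    rw [(hX.conn.dist_eq_zero_iff).1 hm]
  | succ k ih =>
    obtain ⟨w, huw, hw⟩ := exists_closer hX.conn (x := v) (y := u) (k := k)
      (by rw [SimpleGraph.dist_comm]; exact hm)
    have huw1 : X.dist u w = 1 := SimpleGraph.dist_eq_one_iff_adj.2 huw
    have hwv : X.dist w v = k := by rw [SimpleGraph.dist_comm]; exact hw
    have hwS : Sec X i w v := gated_convex hX.conn hSg (a := u) (b := v) (c := w) h rfl
      (by rw [hm, huw1, hwv]; omega)
    obtain ⟨u', hu', hsu', hdu'⟩ := full hX hu v'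
    have huu' : X.Adj u u' := by
      rw [← SimpleGraph.dist_eq_one_iff_adj, hdu']
      show X.dist (rho X i u) (rho X i v') = 1
      have h1 : rho X i u = rho X i v := h
      rw [h1]
      exact SimpleGraph.dist_eq_one_iff_adj.2 (gate_adj hX.conn hC hv' hnsec).1
    have hnu : ¬ Sec X i u v' := fun h1 => hnsec ((Eq.symm h).trans h1)
    have hd2 := B22_gate hX.conn hSg' (a := u) (b := u') hnu hsu' huu'
    have e1 : X.dist v' u = 1 + X.dist v u := hd1 u h
    have e2 : X.dist v' w = 1 + X.dist v w := hd1 w hwS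
    have e3 : X.dist u v' = 1 + X.dist u' v' := hd2 v' rfl
    have e4 : X.dist v u = X.dist u v := SimpleGraph.dist_comm
    have e5 : X.dist v' u = X.dist u v' := SimpleGraph.dist_comm
    have e6 : X.dist v' u' = X.dist u' v' := SimpleGraph.dist_comm
    have hne : w ≠ u' := by
      rintro rfl
      exact hnsec ((Eq.symm hwS).trans hsu')
    have hna : ¬ X.Adj w u' := by
      intro hadj
      have h1 : u = w := by
        refine gate_inj hX hC (u := u') huu'.symm hadj.symm ?_ ?_
        · exact Eq.trans h (Eq.symm hwS)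
        · intro h2
          have h3 : Sec X i u u' := h2
          exact hnu (h3.trans hsu')
      rw [h1] at huw
      exact X.loopless.irrefl _ huw
    obtain ⟨x, hxw, hxu', hx⟩ := hX.qc v' u w u' k (by omega) (by omega) (by omega) huw huu' hne hna
    have hu'x : X.dist u' x = 1 := SimpleGraph.dist_eq_one_iff_adj.2 hxu'.symm
    have hxv' : X.dist x v' = k := by rw [SimpleGraph.dist_comm]; exact hx
    have hxS : Sec X i x v' := gated_convex hX.conn hSg' (a := u') (b := v') (c := x) hsu' rfl
      (by rw [hu'x, hxv']; omega)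
    have hnwx : ¬ Sec X i w x := fun h1 => hnsec (((Eq.symm hwS).trans h1).trans hxS)
    have hwE : w ∈ End X i := ⟨x, hxw.symm, (cl_eq_iff_sec hX i hxw.symm).2 hnwx⟩
    exact (ih hwE hwS hwv).head ⟨huw, hu, hwE⟩

/-- PROOF. `full_conn` for `u` and `w = v`, then `end_conn_sector`. -/
theorem end_conn (hX : Bucolic X) (i : Cls X) : SetConn X (End X i) := by
  intro a ha b hb
  obtain ⟨u', hu', hs, hr⟩ := full_conn hX ha b
  exact hr.trans (end_conn_sector hX i hu' hb hs)

theorem end_gated (hX : Bucolic X) (i : Cls X) : Gated X (End X i) := by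
  exact chepoi hX (end_nonempty i) (end_conn hX i) (end_nbrClosed hX i)

end Pool.Agent.Lib.MP_1211f9_al.BK
end

section

/-! Campaign BK (MP_1211f9_al), task B23: carriers are closed under crossing edges -/

set_option autoImplicit false

namespace Pool.Agent.Lib.MP_1211f9_al.BK

open Relation

variable {V : Type*} {X : SimpleGraph V}

/-- PROOF. Square `a b c d`, `cl a b = i`, `cl a d = j`; `cl d c = i`: `a, d ∈ End i`. `D = Cop X (a, d) ⊆ End i` (`cop_subset`, `end_nbrClosed`), a copy of `j`. `ρ` the gate map to `D`: `ρ v ≠ ρ y` (`cl_eq_iff`), `gate_adj`: `v`, `y` have the same distance `k` to their gates; `d(v, ρ y) = d(v, ρ v) + 1 = k + 1 = 1 + d(y, ρ y)`: `y` is on a geodesic from `v ∈ End i` to `ρ y ∈ End i`: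
`gated_convex` (`end_gated`). -/
theorem transport (hX : Bucolic X) {i j : Cls X} (hc : Cross X i j) {v y : V} (hv : v ∈ End X i)
    (h : X.Adj v y) (hj : cl X v y h = j) : y ∈ End X i := by
  obtain ⟨a, b, c, d, hsq, hab, had'⟩ := hc
  have had : X.Adj a d := hsq.2.2.2.1.symm
  have hdc : X.Adj d c := hsq.2.2.1.symm
  have ha : a ∈ End X i := ⟨b, hsq.1, hab⟩
  have hd : d ∈ End X i := ⟨c, hdc, by rw [← cl_sq hsq hsq.1 hdc]; exact hab⟩
  have hD : Gated X (Cop X (a, d)) := cop_gated hX (p := (a, d)) had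
  have hsub : Cop X (a, d) ⊆ End X i := cop_subset hX (end_nbrClosed hX i) (p := (a, d)) had ha hd
  have hne : gate X (Cop X (a, d)) v ≠ gate X (Cop X (a, d)) y := by
    rw [← cl_eq_iff hX (p := (a, d)) had h, hj]
    exact had'.symm
  obtain ⟨h1, h2⟩ := gate_adj hX.conn hD h hne
  have h3 := gate_dist hD v (gate_mem hD y)
  have h4 : X.dist (gate X (Cop X (a, d)) v) (gate X (Cop X (a, d)) y) = 1 :=
    SimpleGraph.dist_eq_one_iff_adj.mpr h1
  have h5 : X.dist v y = 1 := SimpleGraph.dist_eq_one_iff_adj.mpr h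
  exact gated_convex hX.conn (end_gated hX i) hv (hsub (gate_mem hD y)) (by omega)

end Pool.Agent.Lib.MP_1211f9_al.BK
end

section

/-! Campaign BK (MP_1211f9_al), task B25: pairwise crossing classes give an isometric cube -/

set_option autoImplicit false

namespace Pool.Agent.Lib.MP_1211f9_al.BK

open Relation

variable {V : Type*} {X : SimpleGraph V}

/-- PROOF. `v ∈ End (f k)` for all `k` (`helly`, `end_gated`, `cross_end`; `m = 0`: any vertex), `y k ~ v` with `cl v (y k) = f k`, so `NN (f k) v (y k) = 1`. Claim, `Finset.induction` on `T : Finset (Fin m)`: there is `w` with `w ∈ End (f k)` for all `k`, `Sec (f k) w (y k)` for `k ∈ T`, `Sec (f k) w v` for `k ∉ T`, and `Sec j w v` for all `j` which are not an `f k`.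
Step `T`, `k ∉ T`: `w` for `T`; `full` for `w ∈ End (f k)` and `y k`: `w'` with `Sec (f k) w' (y k)` and `d(w, w') = NN (f k) w (y k) = NN (f k) v (y k) = 1` (`rho` of `w` and `v` agree), so `w ~ w'` and `cl w w' = f k` (`cl_eq_iff_sec`); for all `j ≠ f k`: `Sec j w w'`; `w' ∈ End (f k')` for `k' ≠ k` by `transport`.
`g a` := the `w` for `T = {k | a k = true}`. `dist_eq_sum` with `F = Finset.univ.image f` (`f` is injective by `cross_ne`): `d(g a, g b) = ∑ k, NN (f k) (g a) (g b)`, the `k`-th term is `1` if `a k ≠ b k` and `0` otherwise (`NN` only depends on the sectors). -/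
theorem cube (hX : Bucolic X) {m : ℕ} (f : Fin m → Cls X)
    (hf : ∀ a b, a ≠ b → Cross X (f a) (f b)) :
    ∃ g : (Fin m → Bool) → V, ∀ a b, X.dist (g a) (g b) = hammingDist a b := by
  classical
  have hinj : Function.Injective f := by
    intro a b hab
    by_contra hne
    exact cross_ne hX (hf a b hne) hab
  obtain ⟨v, hv⟩ : ∃ v, ∀ k, v ∈ End X (f k) := by
    rcases (Finset.univ : Finset (Fin m)).eq_empty_or_nonempty with h0 | h0
    · obtain ⟨v⟩ := hX.conn.nonempty
      refine ⟨v, fun k => ?_⟩
      have : k ∈ (Finset.univ : Finset (Fin m)) := Finset.mem_univ k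
      rw [h0] at this
      simp at this
    · obtain ⟨v, hv⟩ := helly hX.conn Finset.univ (fun k => End X (f k)) h0 (fun k _ => end_gated hX (f k))
        (fun i _ j _ => by
          by_cases hij : i = j
          · subst hij
            rw [Set.inter_self]
            exact end_nonempty (f i)
          · exact cross_end (hf i j hij))
      exact ⟨v, fun k => hv k (Finset.mem_univ k)⟩
  have hv' := hv
  choose y hy1 hy2 using hv'
  have hNN : ∀ k, NN X (f k) v (y k) = 1 := by
    intro k
    have h1 := (NN_step hX (hy1 k) (y := y k) (by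
      rw [SimpleGraph.dist_self]
      exact SimpleGraph.dist_eq_one_iff_adj.2 (hy1 k))).1
    rw [hy2 k] at h1
    rw [h1, NN, SimpleGraph.dist_self]
  have hNN' : ∀ k, X.dist (rho X (f k) v) (rho X (f k) (y k)) = 1 := hNN
  have claim : ∀ T : Finset (Fin m), ∃ w, (∀ k, w ∈ End X (f k)) ∧ (∀ k ∈ T, Sec X (f k) w (y k)) ∧
      (∀ k, k ∉ T → Sec X (f k) w v) ∧ (∀ j, (∀ k, f k ≠ j) → Sec X j w v) := by
    intro T
    induction T using Finset.induction_on with
    | empty =>
      exact ⟨v, hv, fun k hk => absurd hk (Finset.notMem_empty k), fun k _ => rfl, fun j _ => rfl⟩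
    | insert k T hk ih =>
      obtain ⟨w, hw1, hw2, hw3, hw4⟩ := ih
      obtain ⟨u, hu1, hu2, hu3⟩ := full hX (hw1 k) (y k)
      have e1 : rho X (f k) w = rho X (f k) v := hw3 k hk
      have e2 : rho X (f k) u = rho X (f k) (y k) := hu2
      have hd : X.dist w u = 1 := by
        rw [hu3, NN, e1]
        exact hNN' k
      have hadj : X.Adj w u := SimpleGraph.dist_eq_one_iff_adj.1 hd
      have hcl : cl X w u hadj = f k := by
        rw [cl_eq_iff_sec hX]
        intro hs
        have e3 : rho X (f k) w = rho X (f k) u := hs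
        have h0 := hNN' k
        rw [← e1, ← e2, e3, SimpleGraph.dist_self] at h0
        exact absurd h0 (by norm_num)
      have hsec : ∀ j, j ≠ f k → Sec X j u w := by
        intro j hj
        by_contra hn
        have : cl X w u hadj = j := by
          rw [cl_eq_iff_sec hX]
          intro hs
          exact hn (Eq.symm hs)
        exact hj (this.symm.trans hcl)
      refine ⟨u, ?_, ?_, ?_, ?_⟩
      · intro k'
        by_cases hkk : k' = k
        · subst hkk
          exact hu1
        · exact transport hX (hf k' k hkk) (hw1 k') hadj hcl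
      · intro k' hk'
        by_cases hkk : k' = k
        · subst hkk
          exact hu2
        · have hk'' : k' ∈ T := by
            rcases Finset.mem_insert.1 hk' with h | h
            · exact absurd h hkk
            · exact h
          have h1 : rho X (f k') u = rho X (f k') w := hsec (f k') (fun e => hkk (hinj e))
          have h2 : rho X (f k') w = rho X (f k') (y k') := hw2 k' hk''
          exact h1.trans h2
      · intro k' hk'
        rw [Finset.mem_insert, not_or] at hk'
        have h1 : rho X (f k') u = rho X (f k') w := hsec (f k') (fun e => hk'.1 (hinj e))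
        have h2 : rho X (f k') w = rho X (f k') v := hw3 k' hk'.2
        exact h1.trans h2
      · intro j hj
        have h1 : rho X j u = rho X j w := hsec j (fun e => hj k e.symm)
        have h2 : rho X j w = rho X j v := hw4 j hj
        exact h1.trans h2
  choose g hg1 hg2 hg3 hg4 using claim
  refine ⟨fun a => g (Finset.univ.filter fun k => a k = true), fun a b => ?_⟩
  have hsep : Sep X (g (Finset.univ.filter fun k => a k = true)) (g (Finset.univ.filter fun k => b k = true))
      ⊆ ((Finset.univ.image f : Finset (Cls X)) : Set (Cls X)) := by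
    intro i hi
    by_contra hn
    have hi' : ∀ k, f k ≠ i := by
      intro k hk
      apply hn
      rw [Finset.mem_coe, Finset.mem_image]
      exact ⟨k, Finset.mem_univ k, hk⟩
    have h1 : rho X i (g (Finset.univ.filter fun k => a k = true)) = rho X i v := hg4 _ i hi'
    have h2 : rho X i (g (Finset.univ.filter fun k => b k = true)) = rho X i v := hg4 _ i hi'
    exact hi (h1.trans h2.symm)
  rw [dist_eq_sum hX _ hsep, Finset.sum_image (fun x _ y _ h => hinj h), hammingDist, Finset.card_filter]
  refine Finset.sum_congr rfl fun k _ => ?_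
  have hT : ∀ c : Fin m → Bool, c k = true →
      rho X (f k) (g (Finset.univ.filter fun k => c k = true)) = rho X (f k) (y k) :=
    fun c hc => hg2 _ k (Finset.mem_filter.2 ⟨Finset.mem_univ k, hc⟩)
  have hF : ∀ c : Fin m → Bool, ¬ c k = true →
      rho X (f k) (g (Finset.univ.filter fun k => c k = true)) = rho X (f k) v :=
    fun c hc => hg3 _ k (fun h => hc (Finset.mem_filter.1 h).2)
  rw [NN]
  by_cases ha : a k = true
  · by_cases hb : b k = true
    · rw [hT a ha, hT b hb, SimpleGraph.dist_self, if_neg (by rw [ha, hb]; simp)]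
    · rw [hT a ha, hF b hb, SimpleGraph.dist_comm, hNN' k, if_pos (by rw [ha]; exact fun h => hb h.symm)]
  · by_cases hb : b k = true
    · rw [hF a ha, hT b hb, hNN' k, if_pos (by rw [hb]; exact ha)]
    · rw [hF a ha, hF b hb, SimpleGraph.dist_self, if_neg]
      simp only [Bool.not_eq_true] at ha hb
      rw [ha, hb]
      simp

end Pool.Agent.Lib.MP_1211f9_al.BK
end

section

/-! Campaign BK (MP_1211f9_al), task B26: gates in intersections of sectors -/

set_option autoImplicit false

namespace Pool.Agent.Lib.MP_1211f9_al.BK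

open Relation

variable {V : Type*} {X : SimpleGraph V}

/-- PROOF. The intersection of the sectors `{v | Sec i v h}`, `i ∈ U`, is gated and contains `h` (`Finset.induction`, `gated_inter`, `sector_gated`; `U = ∅`: everything); `y` is the gate of `x`. -/
theorem inter_gate (hX : Bucolic X) (x h : V) (U : Finset (Cls X)) :
    ∃ y, (∀ i ∈ U, Sec X i y h) ∧
      ∀ z, (∀ i ∈ U, Sec X i z h) → X.dist x z = X.dist x y + X.dist y z := by
  classical
  have key : ∀ U : Finset (Cls X), Gated X {v | ∀ i ∈ U, Sec X i v h} := by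
    intro U
    induction U using Finset.induction_on with
    | empty =>
      intro y
      refine ⟨y, ?_, ?_⟩
      · intro i hi
        exact absurd hi (Finset.notMem_empty i)
      · intro z _
        rw [SimpleGraph.dist_self, Nat.zero_add]
    | insert i U _ ih =>
      have h1 : {v | ∀ j ∈ insert i U, Sec X j v h} = {v | Sec X i v h} ∩ {v | ∀ j ∈ U, Sec X j v h} := by
        ext v
        simp only [Set.mem_inter_iff, Set.mem_ofPred_eq, Finset.mem_insert, forall_eq_or_imp]
      rw [h1]
      exact gated_inter hX.conn (sector_gated hX i h) ih ⟨h, rfl, fun j _ => rfl⟩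
  obtain ⟨y, hy, hy'⟩ := key U x
  exact ⟨y, hy, hy'⟩

end Pool.Agent.Lib.MP_1211f9_al.BK
end

section

/-! Campaign BK (MP_1211f9_al), task B27: equivariance -/

set_option autoImplicit false

namespace Pool.Agent.Lib.MP_1211f9_al.BK

open Relation

variable {V : Type*} {X : SimpleGraph V} {G : Type*} [Group G] [MulAction G V]

private theorem B27_dist_le (hX : X.Connected) (hact : ActsBy X G) (g : G) (x y : V) :
    X.dist (g • x) (g • y) ≤ X.dist x y := by
  obtain ⟨w, hw⟩ := hX.exists_walk_length_eq_dist x y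
  let φ : X →g X := ⟨fun v => g • v, fun {a b} h => hact g a b h⟩
  have h := SimpleGraph.dist_le (w.map φ)
  rw [SimpleGraph.Walk.length_map, hw] at h
  exact h

theorem act_dist (hX : X.Connected) (hact : ActsBy X G) (g : G) (x y : V) :
    X.dist (g • x) (g • y) = X.dist x y := by
  refine le_antisymm (B27_dist_le hX hact g x y) ?_
  have h := B27_dist_le hX hact g⁻¹ (g • x) (g • y)
  rw [inv_smul_smul, inv_smul_smul] at h
  exact h

theorem act_sq (hact : ActsBy X G) (g : G) {a b c d : V} (h : Sq X a b c d) :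
    Sq X (g • a) (g • b) (g • c) (g • d) := by
  have hinj : ∀ a b : V, a ≠ b → g • a ≠ g • b := fun a b hab h => hab (smul_left_cancel g h)
  have hadj : ∀ a b : V, ¬ X.Adj a b → ¬ X.Adj (g • a) (g • b) := by
    intro a b hab h
    have := hact g⁻¹ _ _ h
    rw [inv_smul_smul, inv_smul_smul] at this
    exact hab this
  obtain ⟨h1, h2, h3, h4, h5, h6, h7, h8⟩ := h
  exact ⟨hact g _ _ h1, hact g _ _ h2, hact g _ _ h3, hact g _ _ h4, hinj _ _ h5, hinj _ _ h6,
    hadj _ _ h7, hadj _ _ h8⟩

theorem act_cop (hact : ActsBy X G) (g : G) {p : V × V} {x : V} (h : x ∈ Cop X p) :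
    g • x ∈ Cop X (g • p.1, g • p.2) := by
  obtain ⟨y, hy⟩ := h
  refine ⟨g • y, ?_⟩
  refine Relation.ReflTransGen.lift (p := GStep X) (fun q : V × V => (g • q.1, g • q.2)) ?_ _ _ hy
  rintro a b ⟨h1, h2⟩
  refine ⟨hact g _ _ h1, ?_⟩
  rcases h2 with ⟨h3, h4, h5⟩ | ⟨h3, h4⟩
  · exact Or.inl ⟨congrArg (g • ·) h3, hact g _ _ h4, hact g _ _ h5⟩
  · exact Or.inr ⟨congrArg (g • ·) h3, congrArg (g • ·) h4⟩

/-- PROOF. `gate_unique`: `g • gate x` is in the germ class of `g p`, and each point of that class is `g • h` with `h` in the class of `p` (`act_cop` for the inverse). -/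
theorem act_gate (hX : Bucolic X) (hact : ActsBy X G) (g : G) {p : V × V} (hp : X.Adj p.1 p.2)
    (x : V) : gate X (Cop X (g • p.1, g • p.2)) (g • x) = g • gate X (Cop X p) x := by
  have hC : Gated X (Cop X p) := cop_gated hX hp
  have hC' : Gated X (Cop X (g • p.1, g • p.2)) :=
    cop_gated hX (p := (g • p.1, g • p.2)) (hact g _ _ hp)
  refine gate_unique hX.conn hC' (act_cop hact g (gate_mem hC x)) fun h hh => ?_
  have h1 : g⁻¹ • h ∈ Cop X p := by
    have := act_cop hact g⁻¹ hh
    simpa only [inv_smul_smul] using this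
  have h2 := gate_dist hC x h1
  rw [← act_dist hX.conn hact g x, ← act_dist hX.conn hact g x (gate X (Cop X p) x),
    ← act_dist hX.conn hact g (gate X (Cop X p) x) (g⁻¹ • h), smul_inv_smul] at h2
  exact h2

theorem act_cl (hact : ActsBy X G) (g : G) {u v : V} (h : X.Adj u v) :
    gcl hact g (cl X u v h) = cl X (g • u) (g • v) (hact g _ _ h) := by
  rfl

private theorem B27_cl_congr {u v u' v' : V} (h : X.Adj u v) (h' : X.Adj u' v') (h1 : u = u')
    (h2 : v = v') : cl X u v h = cl X u' v' h' := by
  subst h1 h2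
  rfl

theorem gcl_one (hact : ActsBy X G) (i : Cls X) : gcl hact 1 i = i := by
  rw [← cl_src i, act_cl]
  exact B27_cl_congr _ _ (one_smul G _) (one_smul G _)

theorem gcl_mul (hact : ActsBy X G) (g h : G) (i : Cls X) :
    gcl hact (g * h) i = gcl hact g (gcl hact h i) := by
  rw [← cl_src i, act_cl, act_cl, act_cl]
  exact B27_cl_congr _ _ (mul_smul g h _) (mul_smul g h _)

/-- PROOF. `i = cl (src i) (tgt i)`, `sec_iff`, `act_gate`. -/
theorem act_sec (hX : Bucolic X) (hact : ActsBy X G) (g : G) (i : Cls X) {x y : V}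
    (h : Sec X i x y) : Sec X (gcl hact g i) (g • x) (g • y) := by
  rw [← cl_src i] at h ⊢
  rw [act_cl]
  have h1 := (sec_iff hX (p := (src X i, tgt X i)) (src_adj i) x y).1 h
  refine (sec_iff hX (p := (g • src X i, g • tgt X i)) (hact g _ _ (src_adj i)) _ _).2 ?_
  have h2 := act_gate hX hact g (p := (src X i, tgt X i)) (src_adj i) x
  have h3 := act_gate hX hact g (p := (src X i, tgt X i)) (src_adj i) y
  exact h2.trans ((congrArg (g • ·) h1).trans h3.symm)

theorem act_end (hact : ActsBy X G) (g : G) (i : Cls X) {x : V} (h : x ∈ End X i) :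
    g • x ∈ End X (gcl hact g i) := by
  obtain ⟨v, hv, rfl⟩ := h
  exact ⟨g • v, hact g _ _ hv, (act_cl hact g hv).symm⟩

theorem act_cross (hact : ActsBy X G) (g : G) {i j : Cls X} (h : Cross X i j) :
    Cross X (gcl hact g i) (gcl hact g j) := by
  obtain ⟨a, b, c, d, hs, rfl, rfl⟩ := h
  exact ⟨g • a, g • b, g • c, g • d, act_sq hact g hs, rfl, rfl⟩

end Pool.Agent.Lib.MP_1211f9_al.BK
end

section

/-! Campaign BK (MP_1211f9_al), task P0: the wall space of a bucolic graph -/

set_option autoImplicit false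

namespace Pool.Agent.Lib.MP_1211f9_al.BK

open Relation

variable {V : Type*} {X : SimpleGraph V} {G : Type*} [Group G] [MulAction G V]

/-- The action on the classes. -/
@[reducible] def clsAct (hact : ActsBy X G) : MulAction G (Cls X) where
  smul := gcl hact
  one_smul := gcl_one hact
  mul_smul := gcl_mul hact

/-- The wall space. The proofs of the fields: `sec_equiv`, `sep_finite`, `end_nonempty`, `cross_symm`, `cross_end`, `end_sec`, `np2`, `act_sec`, `act_end`, `act_cross`, `inter_gate` with `sec_between`. -/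
noncomputable def walls (hX : Bucolic X) (hact : ActsBy X G) :
    @WS G V (Cls X) _ _ (clsAct hact) := by
  letI := clsAct hact
  exact
    { S := Sec X
      E := End X
      Cr := Cross X
      S_equiv := sec_equiv
      S_fin := fun x y => sep_finite hX x y
      E_ne := end_nonempty
      Cr_symm := fun _ _ h => cross_symm h
      Cr_E := fun _ _ h => cross_end h
      np1 := fun _ _ hij hc _ hu _ hv => end_sec hX hij hc hu hv
      np2 := fun _ _ hij hc v _ hu _ hw => np2 hX hij hc v hu hw
      S_act := fun g i _ _ h => act_sec hX hact g i h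
      E_act := fun g i _ h => act_end hact g i h
      Cr_act := fun g _ _ h => act_cross hact g h
      inter := by
        intro x h U
        obtain ⟨y, h1, h2⟩ := inter_gate hX x h U
        exact ⟨y, h1, fun z hz i hi => sec_between hX (h2 z hz) hi⟩ }

/-- PROOF. If `D + 1` classes cross pairwise, `cube` gives an isometric cube of dimension `D + 1`. -/
theorem walls_dim (hX : Bucolic X) (hact : ActsBy X G) {D : ℕ}
    (hD : ∀ f : (Fin (D + 1) → Bool) → V, ¬ ∀ a b, X.dist (f a) (f b) = hammingDist a b) :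
    @WS.Dim G V (Cls X) _ _ (clsAct hact) (walls hX hact) D := by
  intro A hA
  by_contra hlt
  have hle : D + 1 ≤ A.card := by omega
  obtain ⟨g, hg⟩ := cube hX (m := D + 1)
    (fun k => (A.equivFin.symm (Fin.castLE hle k) : Cls X)) (by
      intro a b hab
      refine hA _ (A.equivFin.symm (Fin.castLE hle a)).2 _
        (A.equivFin.symm (Fin.castLE hle b)).2 fun h => hab ?_
      have h1 := A.equivFin.symm.injective (Subtype.ext h)
      exact Fin.castLE_injective hle h1)
  exact hD g hg

/-- PROOF. `sep_ncard`. -/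
theorem walls_ell (hX : Bucolic X) (hact : ActsBy X G)
    (hell : ∀ (g : G) (x : V), ∃ R : ℕ, ∀ n : ℕ, X.dist x (g ^ n • x) ≤ R) :
    @WS.Ell G V (Cls X) _ _ (clsAct hact) (walls hX hact) := by
  intro g x
  obtain ⟨R, hR⟩ := hell g x
  exact ⟨R, fun n => (sep_ncard hX x (g ^ n • x)).trans (hR n)⟩

end Pool.Agent.Lib.MP_1211f9_al.BK
end

section

/-! Campaign BK (MP_1211f9_al), task P1: the action of a subgroup on a piece -/

set_option autoImplicit false

namespace Pool.Agent.Lib.MP_1211f9_al.BK

open Relation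

variable {V : Type*} {X : SimpleGraph V} {G : Type*} [Group G] [MulAction G V]

private theorem P1_rho_mem (hX : Bucolic X) (i : Cls X) {c : V} (hc : c ∈ CC X i) :
    rho X i c = c :=
  gate_of_mem hX.conn (CC_gated hX i) hc

private theorem P1_rho_act (hX : Bucolic X) (hact : ActsBy X G) (i : Cls X) {g : G}
    (hg : gcl hact g i = i) (x : V) : rho X i (g • rho X i x) = rho X i (g • x) := by
  have h := act_sec hX hact g i (sec_rho hX i x)
  rw [hg] at h
  exact h

/-- PROOF. `(g h) c`: `Sec i (rho i (h c)) (h c)` (`sec_rho`), apply `g` (`act_sec`, `gcl g i = i`): `Sec i (g rho i (h c)) (g h c)`, that is equality of the `rho i`. -/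
noncomputable def pieceAct (hX : Bucolic X) (hact : ActsBy X G) (i : Cls X) (H : Subgroup G)
    (hfix : ∀ g ∈ H, gcl hact g i = i) : MulAction H (CC X i) where
  smul g c := ⟨rho X i ((g : G) • (c : V)), gate_mem (CC_gated hX i) _⟩
  one_smul := by
    intro c
    apply Subtype.ext
    change rho X i (((1 : H) : G) • (c : V)) = c
    rw [Subgroup.coe_one, one_smul]
    exact P1_rho_mem hX i c.2
  mul_smul := by
    intro g h c
    apply Subtype.ext
    change rho X i (((g * h : H) : G) • (c : V)) = rho X i ((g : G) • rho X i ((h : G) • (c : V)))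
    rw [P1_rho_act hX hact i (hfix g g.2), Subgroup.coe_mul, mul_smul]

theorem pieceAct_coe (hX : Bucolic X) (hact : ActsBy X G) (i : Cls X) (H : Subgroup G)
    (hfix : ∀ g ∈ H, gcl hact g i = i) (g : H) (c : CC X i) :
    (((pieceAct hX hact i H hfix).toSMul.smul g c : CC X i) : V) = rho X i ((g : G) • (c : V)) := by
  rfl

/-- PROOF. `c ~ c'` in `CC X i`: `¬ Sec i c c'` (gates of points of the set), so `¬ Sec i (g c) (g c')` (`act_sec` for the inverse), `g c ~ g c'`, `gate_adj`. -/
theorem piece_adj (hX : Bucolic X) (hact : ActsBy X G) (i : Cls X) {g : G}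
    (hg : gcl hact g i = i) {c c' : V} (hc : c ∈ CC X i) (hc' : c' ∈ CC X i) (h : X.Adj c c') :
    X.Adj (rho X i (g • c)) (rho X i (g • c')) := by
  refine (gate_adj hX.conn (CC_gated hX i) (hact g _ _ h) ?_).1
  intro heq
  have hginv : gcl hact g⁻¹ i = i := by
    have h1 := gcl_mul hact g⁻¹ g i
    rw [inv_mul_cancel, gcl_one, hg] at h1
    exact h1.symm
  have h2 : Sec X i (g • c) (g • c') := heq
  have h3 := act_sec hX hact g⁻¹ i h2
  rw [hginv, inv_smul_smul, inv_smul_smul] at h3
  have h4 : rho X i c = rho X i c' := h3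
  rw [P1_rho_mem hX i hc, P1_rho_mem hX i hc'] at h4
  exact h.ne h4

/-- PROOF. `gate_lip` and `rho i c = c`. -/
theorem piece_dist (hX : Bucolic X) (i : Cls X) {c : V} (hc : c ∈ CC X i) (z : V) :
    X.dist c (rho X i z) ≤ X.dist c z := by
  have h := gate_lip hX.conn (CC_gated hX i) c z
  have h2 : gate X (CC X i) c = c := P1_rho_mem hX i hc
  rw [h2] at h
  exact h

/-- PROOF. `Sec i y (rho i y)`, apply `g`. -/
theorem NN_piece (hX : Bucolic X) (hact : ActsBy X G) (i : Cls X) {g : G}
    (hg : gcl hact g i = i) (y : V) :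
    NN X i y (g • y) = X.dist (rho X i y) (rho X i (g • rho X i y)) := by
  rw [P1_rho_act hX hact i hg]
  rfl

end Pool.Agent.Lib.MP_1211f9_al.BK
end

section

/-! Campaign BK (MP_1211f9_al), task P2: the structure theorem -/

set_option autoImplicit false

namespace Pool.Agent.Lib.MP_1211f9_al.BK

open Relation

variable {V : Type*} {X : SimpleGraph V} {G : Type*} [Group G] [MulAction G V]

/-- `G` has a bounded orbit if a subgroup of finite index has one. -/
theorem bounded_of_finiteIndex (hX : X.Connected) (hact : ActsBy X G) (H : Subgroup G)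
    [H.FiniteIndex] (y : V) {R : ℕ} (h : ∀ g ∈ H, X.dist y (g • y) ≤ R) :
    ∀ x : V, ∃ R' : ℕ, ∀ g : G, X.dist x (g • x) ≤ R' := by
  intro x
  have : Finite (G ⧸ H) := Subgroup.finite_quotient_of_finiteIndex
  have : Fintype (G ⧸ H) := Fintype.ofFinite _
  refine ⟨X.dist x y + R + ∑ q : G ⧸ H, X.dist y ((Quotient.out q)⁻¹ • x), fun g => ?_⟩
  set t : G := Quotient.out ((g⁻¹ : G) : G ⧸ H) with ht
  have hmem : t⁻¹ * g⁻¹ ∈ H := by
    have h1 : ((t : G) : G ⧸ H) = ((g⁻¹ : G) : G ⧸ H) := by
      rw [ht]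
      exact QuotientGroup.out_eq' _
    exact QuotientGroup.eq.1 h1
  have hmem2 : g * t ∈ H := by
    have := H.inv_mem hmem
    rwa [mul_inv_rev, inv_inv, inv_inv] at this
  have hg : g • x = (g * t) • (t⁻¹ • x) := by
    rw [smul_smul, mul_assoc, mul_inv_cancel, mul_one]
  have h2 : X.dist y (t⁻¹ • x) ≤ ∑ q : G ⧸ H, X.dist y ((Quotient.out q)⁻¹ • x) :=
    Finset.single_le_sum (f := fun q : G ⧸ H => X.dist y ((Quotient.out q)⁻¹ • x))
      (fun _ _ => Nat.zero_le _) (Finset.mem_univ ((g⁻¹ : G) : G ⧸ H))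
  have h3 : X.dist x (g • x) ≤ X.dist x y + X.dist y (g • x) := hX.dist_triangle
  have h4 : X.dist y (g • x) ≤ X.dist y ((g * t) • y) + X.dist ((g * t) • y) (g • x) :=
    hX.dist_triangle
  have h5 : X.dist ((g * t) • y) (g • x) = X.dist y (t⁻¹ • x) := by
    rw [hg]
    exact act_dist hX hact _ _ _
  have h6 := h _ hmem2
  omega

/-- The subgroup which fixes the elements of a finite invariant set of classes. -/
private theorem p2_index (hact : ActsBy X G) (F : Finset (Cls X))
    (hF : ∀ (g : G) (i : Cls X), i ∈ F → gcl hact g i ∈ F) :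
    ∃ H : Subgroup G, H.FiniteIndex ∧ ∀ g ∈ H, ∀ i ∈ F, gcl hact g i = i := by
  let _ := clsAct hact
  let p : SubMulAction G (Cls X) :=
    { carrier := {i | i ∈ F}
      smul_mem' := fun g i hi => hF g i hi }
  have : Finite p := (Finset.finite_toSet F : Set.Finite {i | i ∈ F}).to_subtype
  let φ : G →* Equiv.Perm p := MulAction.toPermHom G p
  have : Finite φ.range := Finite.of_injective (fun x : φ.range => (x : Equiv.Perm p))
    Subtype.val_injective
  refine ⟨φ.ker, inferInstance, fun g hg i hi => ?_⟩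
  have h1 : φ g = 1 := hg
  have h2 : φ g (⟨i, hi⟩ : p) = (⟨i, hi⟩ : p) := by rw [h1]; rfl
  exact congrArg Subtype.val h2

/-- PROOF. `WS.centre` for `walls`: `y`, `F`. `H` = the intersection of the stabilisers of the elements of `F` for `clsAct` (kernel of the action on the finite invariant set `F`): finite index (the orbits are finite). `k = F.card`, `C j = CC X (F.equivFin.symm j)`, `pieceAct`. If all actions on the pieces are bounded: for `g ∈ H`, `d(y, g y) = ∑ i ∈ F, NN i y (g y)` (`dist_eq_sum`) and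
`NN_piece`: bounded; `bounded_of_finiteIndex`. Conversely `piece_dist`. -/
theorem structure_thm (hX : Bucolic X) {D : ℕ}
    (hD : ∀ f : (Fin (D + 1) → Bool) → V, ¬ ∀ a b, X.dist (f a) (f b) = hammingDist a b)
    (hact : ActsBy X G) (hG : Group.FG G)
    (hell : ∀ (g : G) (x : V), ∃ R : ℕ, ∀ n : ℕ, X.dist x (g ^ n • x) ≤ R) :
    ∃ (H : Subgroup G) (k : ℕ) (C : Fin k → Set V) (act : ∀ j, MulAction H (C j)),
      H.FiniteIndex ∧ (∀ j, Gated X (C j) ∧ NoSqIn X (C j)) ∧
      (∀ (j : Fin k) (g : H) (u v : C j), X.Adj u v →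
        X.Adj ((act j).toSMul.smul g u : C j) ((act j).toSMul.smul g v : C j)) ∧
      (∀ (j : Fin k) (g : H) (c : C j), ∃ R : ℕ, ∀ n : ℕ,
        X.dist c ((act j).toSMul.smul (g ^ n) c : C j) ≤ R) ∧
      ((∀ (j : Fin k) (c : C j), ∃ R : ℕ, ∀ g : H,
          X.dist c ((act j).toSMul.smul g c : C j) ≤ R) ↔
        ∀ x : V, ∃ R : ℕ, ∀ g : G, X.dist x (g • x) ≤ R) := by
  obtain ⟨y, F, hF, hsep⟩ : ∃ (y : V) (F : Finset (Cls X)),
      (∀ (g : G) (i : Cls X), i ∈ F → gcl hact g i ∈ F) ∧
      ∀ g : G, Sep X y (g • y) ⊆ (F : Set (Cls X)) := by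
    let _ := clsAct hact
    have : Nonempty V := hX.conn.nonempty
    obtain ⟨y, F, h1, h2⟩ := WS.centre (walls hX hact) (walls_ell hX hact hell)
      (walls_dim hX hact hD) hG
    exact ⟨y, F, h1, fun g i hi => h2 g i hi⟩
  obtain ⟨H, hH, hfix⟩ := p2_index hact F hF
  have := hH
  have hfix' : ∀ i ∈ F, ∀ g ∈ H, gcl hact g i = i := fun i hi g hg => hfix g hg i hi
  refine ⟨H, F.card, fun j => CC X (F.equivFin.symm j : Cls X),
    fun j => pieceAct hX hact _ H (hfix' _ (F.equivFin.symm j).2), hH,
    fun j => ⟨CC_gated hX _, CC_noSq hX _⟩, ?_, ?_, ?_⟩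
  · intro j g u v huv
    rw [pieceAct_coe, pieceAct_coe]
    exact piece_adj hX hact _ (hfix' _ (F.equivFin.symm j).2 g g.2) u.2 v.2 huv
  · intro j g c
    obtain ⟨R, hR⟩ := hell (g : G) (c : V)
    refine ⟨R, fun n => ?_⟩
    rw [pieceAct_coe]
    refine (piece_dist hX _ c.2 _).trans ?_
    rw [Subgroup.coe_pow]
    exact hR n
  · constructor
    · intro hb
      have h1 : ∀ i ∈ F, ∃ R : ℕ, ∀ g ∈ H, NN X i y (g • y) ≤ R := by
        intro i hi
        obtain ⟨R, hR⟩ := hb (F.equivFin ⟨i, hi⟩)
          ⟨rho X (F.equivFin.symm (F.equivFin ⟨i, hi⟩) : Cls X) y, gate_mem (CC_gated hX _) _⟩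
        refine ⟨R, fun g hg => ?_⟩
        have h2 := hR ⟨g, hg⟩
        rw [pieceAct_coe] at h2
        simp only [Equiv.symm_apply_apply] at h2
        rw [NN_piece hX hact i (hfix' i hi g hg)]
        exact h2
      choose! R hR using h1
      refine bounded_of_finiteIndex hX.conn hact H y (R := ∑ i ∈ F, R i) fun g hg => ?_
      rw [dist_eq_sum hX F (hsep g)]
      exact Finset.sum_le_sum fun i hi => hR i hi g hg
    · intro hb j c
      obtain ⟨R, hR⟩ := hb (c : V)
      refine ⟨R, fun g => ?_⟩
      rw [pieceAct_coe]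
      exact (piece_dist hX _ c.2 _).trans (hR g)

end Pool.Agent.Lib.MP_1211f9_al.BK
end

section

/-! Campaign BK (MP_1211f9_al), task Y3: no isometric cycles -/

set_option autoImplicit false

namespace Pool.Agent.Lib.MP_1211f9_al.BK

open Relation

variable {V : Type*} {X : SimpleGraph V}

private theorem Y3_adj {u v : V} (h : X.dist u v = 1) : X.Adj u v :=
  SimpleGraph.dist_eq_one_iff_adj.1 h

private theorem Y3_nadj {u v : V} (h : X.dist u v ≠ 1) : ¬ X.Adj u v := fun h' =>
  h (SimpleGraph.dist_eq_one_iff_adj.2 h')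

private theorem Y3_ne {u v : V} (h : X.dist u v ≠ 0) : u ≠ v := by
  rintro rfl
  exact h SimpleGraph.dist_self

/-- a common neighbour of `z` and below is adjacent to the other one -/
private theorem Y3_low (hX : X.Connected) (hqc : QC X) (hS : ∀ a b c d, ¬ Sq X a b c d)
    {x z u v : V} {k : ℕ} (hz : X.dist x z = k + 2) (hu : X.dist x u = k + 1)
    (hv : X.dist x v = k + 1) (h1 : X.Adj z u) (h2 : X.Adj z v) (hne : u ≠ v) : X.Adj u v := by
  by_contra hna
  obtain ⟨w, hw1, hw2, hw3⟩ := hqc x z u v k hz hu hv h1 h2 hne hna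
  refine hS u z v w ⟨h1.symm, h2, hw2.symm, hw1, hne, ?_, hna, ?_⟩
  · rintro rfl
    omega
  · intro h
    have := hX.dist_triangle (u := x) (v := w) (w := z)
    have h' : X.dist w z = 1 := SimpleGraph.dist_eq_one_iff_adj.2 h.symm
    omega

/-- PROOF. Let `c` be an isometric cycle of length `n ≥ 4`. `n = 4`: `c 0, .., c 3` is an induced square. `n = 5`: an induced five-cycle (`h5` for `fun i => c i`). `n = 2 m ≥ 6`: `d(c 0, c m) = m`, `d(c 0, c (m - 1)) = d(c 0, c (m + 1)) = m - 1`, `c (m - 1)`, `c (m + 1)` not adjacent (distance two): QC from `c 0` with top `c m` gives `w` with `d(c 0, w) = m - 2`,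
and `Sq X (c (m - 1)) (c m) (c (m + 1)) w`. `n = 2 m + 1 ≥ 7`: `c m ~ c (m + 1)`, both at distance `m` from `c 0`: TC gives `w ~ c m, c (m + 1)`, `d(c 0, w) = m - 1`. `w = c (m - 1)` is impossible (`d(c (m - 1), c (m + 1)) = 2`). If `w` is not adjacent to `c (m - 1)`: QC from `c 0` with top `c m` gives `w'` and `Sq X (c (m - 1)) (c m) w w'`, excluded. So `w ~ c (m - 1)`; in the same way `w ~ c (m + 2)`
(`d(c 0, c (m + 2)) = m - 1`). So `d(c (m - 1), c (m + 2)) ≤ 2`, but it is `min 3 (n - 3) = 3`. -/
theorem no_iso_cycle (hX : X.Connected) (htc : TC X) (hqc : QC X)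
    (hS : ∀ a b c d, ¬ Sq X a b c d)
    (h5 : ∀ a : Fin 5 → V, Function.Injective a →
      ¬ ∀ i j, X.Adj (a i) (a j) ↔ (j = i + 1 ∨ i = j + 1))
    (n : ℕ) (hn : 4 ≤ n) (c : ℕ → V) :
    ¬ ∀ i j : ℕ, i ≤ j → j < n → X.dist (c i) (c j) = min (j - i) (n - (j - i)) := by
  intro h
  have hsymm : ∀ u v : V, X.dist u v = X.dist v u := fun u v => SimpleGraph.dist_comm
  rcases Nat.lt_or_ge n 6 with hn6 | hn6
  · have hcase : n = 4 ∨ n = 5 := by omega
    rcases hcase with rfl | rfl
    · have e01 := h 0 1 (by omega) (by omega)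
      have e12 := h 1 2 (by omega) (by omega)
      have e23 := h 2 3 (by omega) (by omega)
      have e03 := h 0 3 (by omega) (by omega)
      have e02 := h 0 2 (by omega) (by omega)
      have e13 := h 1 3 (by omega) (by omega)
      refine hS (c 0) (c 1) (c 2) (c 3) ⟨Y3_adj (by omega), Y3_adj (by omega),
        Y3_adj (by omega), (Y3_adj (by omega)).symm, Y3_ne (X := X) (by omega), Y3_ne (X := X) (by omega), Y3_nadj (by omega),
        Y3_nadj (by omega)⟩
    · have hd : ∀ i j : Fin 5, X.dist (c i) (c j)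
          = if i ≤ j then min ((j : ℕ) - i) (5 - ((j : ℕ) - i))
            else min ((i : ℕ) - j) (5 - ((i : ℕ) - j)) := by
        intro i j
        split_ifs with hij
        · exact h i j hij j.isLt
        · rw [hsymm]
          exact h j i (le_of_lt (not_le.1 hij)) i.isLt
      refine h5 (fun i => c i) ?_ ?_
      · intro i j hij
        have hij' : c i = c j := hij
        have h0 : X.dist (c i) (c j) = 0 := by rw [hij']; exact SimpleGraph.dist_self
        rw [hd] at h0
        clear hij hij'
        revert h0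
        revert i j
        decide
      · intro i j
        show X.Adj (c i) (c j) ↔ _
        rw [← SimpleGraph.dist_eq_one_iff_adj, hd]
        revert i j
        decide
  · obtain ⟨m, hm⟩ : ∃ m, n = 2 * (m + 3) ∨ n = 2 * (m + 3) + 1 := ⟨n / 2 - 3, by omega⟩
    rcases hm with hm | hm
    · subst hm
      have d1 := h 0 (m + 3) (Nat.zero_le _) (by omega)
      have d2 := h 0 (m + 2) (by omega) (by omega)
      have d3 := h 0 (m + 4) (by omega) (by omega)
      have d4 := h (m + 2) (m + 3) (by omega) (by omega)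
      have d5 := h (m + 3) (m + 4) (by omega) (by omega)
      have d6 := h (m + 2) (m + 4) (by omega) (by omega)
      have := Y3_low hX hqc hS (x := c 0) (z := c (m + 3)) (u := c (m + 2)) (v := c (m + 4))
        (k := m + 1) (by omega) (by omega) (by omega) (Y3_adj (by rw [hsymm]; omega))
        (Y3_adj (by omega)) (Y3_ne (X := X) (by omega))
      exact Y3_nadj (by omega) this
    · subst hm
      have d1 := h 0 (m + 3) (Nat.zero_le _) (by omega)
      have d2 := h 0 (m + 4) (by omega) (by omega)
      have d3 := h 0 (m + 2) (by omega) (by omega)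
      have d4 := h 0 (m + 5) (by omega) (by omega)
      have d5 := h (m + 3) (m + 4) (by omega) (by omega)
      have d6 := h (m + 2) (m + 3) (by omega) (by omega)
      have d7 := h (m + 4) (m + 5) (by omega) (by omega)
      have d8 := h (m + 2) (m + 4) (by omega) (by omega)
      have d9 := h (m + 3) (m + 5) (by omega) (by omega)
      have d10 := h (m + 2) (m + 5) (by omega) (by omega)
      obtain ⟨w, hw1, hw2, hw3⟩ := htc (c 0) (c (m + 3)) (c (m + 4)) (m + 2) (by omega) (by omega)
        (Y3_adj (by omega))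
      have hw1' : X.dist w (c (m + 3)) = 1 := SimpleGraph.dist_eq_one_iff_adj.2 hw1
      have hw2' : X.dist w (c (m + 4)) = 1 := SimpleGraph.dist_eq_one_iff_adj.2 hw2
      have a1 : X.Adj (c (m + 2)) w := by
        refine Y3_low hX hqc hS (x := c 0) (z := c (m + 3)) (k := m + 1) (by omega) (by omega)
          (by omega) (Y3_adj (by rw [hsymm]; omega)) hw1.symm ?_
        intro he
        rw [← he] at hw2'
        omega
      have a2 : X.Adj (c (m + 5)) w := by
        refine Y3_low hX hqc hS (x := c 0) (z := c (m + 4)) (k := m + 1) (by omega) (by omega)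
          (by omega) (Y3_adj (by omega)) hw2.symm ?_
        intro he
        rw [← he, hsymm] at hw1'
        omega
      have t := hX.dist_triangle (u := c (m + 2)) (v := w) (w := c (m + 5))
      have a1' : X.dist (c (m + 2)) w = 1 := SimpleGraph.dist_eq_one_iff_adj.2 a1
      have a2' : X.dist w (c (m + 5)) = 1 := SimpleGraph.dist_eq_one_iff_adj.2 a2.symm
      omega

end Pool.Agent.Lib.MP_1211f9_al.BK
end
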