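import Pool.Agent.Lib.MP_1211f9_al.BK.Defs
import Pool.Agent.Lib.MP_1211f9_al.BK.Y0
import Pool.Agent.Lib.MP_1211f9_al.A3

section

/-!
# Campaign WB (MP_1211f9_al): weakly systolic complexes, 5-wheels allowed

`X : SimpleGraph V` is the 1-skeleton, `X.dist` the graph distance. From `BK/Defs.lean`: `TC`, `QC` (triangle and
quadrangle condition), `Sq X a b c d` (induced square). From `B1.lean`: `GConvex X C` (geodesically convex sets),
`lev X C v` (the distance to `C`), `exists_lev`, `lev_le`, `lev_le_add`. From `A1.lean`: `exists_step` (a neighbour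
of `u` one step closer to `v`), `exists_between`, `FourPoint`. From `B2.lean`: `Sh X C i v`, the points of level `i` on the
geodesics from `v` to `C`; `Sh X C 0 v` is the set of the points of `C` closest to `v`.
-/

set_option autoImplicit false

namespace Pool.Agent.Lib.MP_1211f9_al.WB

open Pool.Agent.Lib.MP_1211f9_al Pool.Agent.Lib.MP_1211f9_al.BK

/-- Weakly bridged graphs (the 1-skeleta of weakly systolic complexes): connected, weakly modular, no induced squares. -/
structure WBr {V : Type*} (X : SimpleGraph V) : Prop where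
  conn : X.Connected
  tc : TC X
  qc : QC X
  nosq : ∀ a b c d, ¬ Sq X a b c d

end Pool.Agent.Lib.MP_1211f9_al.WB
end

section

/-! Campaign WB (MP_1211f9_al), task A: balls are convex -/

set_option autoImplicit false

namespace Pool.Agent.Lib.MP_1211f9_al.WB

open Pool.Agent.Lib.MP_1211f9_al Pool.Agent.Lib.MP_1211f9_al.BK

variable {V : Type*} {X : SimpleGraph V}

/-- Two neighbours of `z` one step closer to `x` are equal or adjacent. PROOF. `k = 0`: both are `x`. `k = k' + 1`: if not, QC
gives `w ~ u, v` with `d(x,w) = k'` and `z u w v` is an induced square (`z ≠ w`, `z` and `w` not adjacent by their distances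
from `x`). -/
theorem upc (hX : WBr X) {x z u v : V} {k : ℕ} (hz : X.dist x z = k + 1) (hu : X.dist x u = k)
    (hv : X.dist x v = k) (h1 : X.Adj z u) (h2 : X.Adj z v) : u = v ∨ X.Adj u v := by
  rcases k with _ | k
  · left
    rw [hX.conn.dist_eq_zero_iff] at hu hv
    rw [← hu, ← hv]
  · by_contra hcon
    rw [not_or] at hcon
    obtain ⟨hne, hna⟩ := hcon
    obtain ⟨w, hwu, hwv, hw⟩ := hX.qc x z u v k hz hu hv h1 h2 hne hna
    refine hX.nosq z u w v ⟨h1, hwu.symm, hwv, h2.symm, ?_, hne, ?_, hna⟩
    · intro h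
      rw [h] at hz
      omega
    · intro h
      have h3 := hX.conn.dist_triangle (u := x) (v := w) (w := z)
      have h4 : X.dist w z = 1 := SimpleGraph.dist_eq_one_iff_adj.mpr h.symm
      omega

/-- After an ascending first step a geodesic never returns to the first level. PROOF. Strong induction on `k`, for all
`n, a, a1, b`. Suppose `d(v,b) ≤ n`. `k = 0`: `b = a1`, contradiction. `k ≥ 1`: let `b1 ~ b` with `d(a1,b1) = k-1`, so
`d(a,b1) = k` (triangle inequalities); by induction (`k-1`) `d(v,b1) ≥ n+1`, so `d(v,b1) = n+1` and `d(v,b) = n`. If `k = 1` then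
`b1 = a1` and `upc` at `a1` gives `a = b` or `a ~ b`, contradicting `d(a,b) = 2`. If `k ≥ 2` let `b2 ~ b1` with
`d(a1,b2) = k-2`, so `d(a,b2) = k-1`, `d(b2,b) = 2`; by induction (`k-2`) `d(v,b2) ≥ n+1`. If `d(v,b2) = n+2`: the induction
hypothesis (`k-2`) for the geodesic from `b1` to `a1` with the first step `b2` gives `d(v,a1) ≥ n+2`, a contradiction. If
`d(v,b2) = n+1`: TC for `b2 ~ b1` gives `c ~ b2, b1` with `d(v,c) = n`; by `upc` at `b1` `c = b` (impossible, `d(b2,b) = 2`) or
`c ~ b`; so `d(a,c) = k`, `d(a1,c) = k-1`, and the induction hypothesis (`k-1`) for `a, a1, c` gives `d(v,c) ≥ n+1`, a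
contradiction. -/
theorem asc (hX : WBr X) (v : V) (k : ℕ) : ∀ {n : ℕ} {a a1 b : V}, X.Adj a a1 → X.dist a1 b = k →
    X.dist a b = k + 1 → X.dist v a = n → X.dist v a1 = n + 1 → n + 1 ≤ X.dist v b := by
  induction k using Nat.strong_induction_on with
  | _ k ih =>
  intro n a a1 b haa1 h1 h2 h3 h4
  by_contra hcon
  have hcon' : X.dist v b ≤ n := by omega
  have daa1 : X.dist a a1 = 1 := SimpleGraph.dist_eq_one_iff_adj.mpr haa1
  rcases k with _ | k
  · rw [hX.conn.dist_eq_zero_iff] at h1
    rw [← h1] at hcon'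
    omega
  · have hne : b ≠ a1 := by
      intro h
      rw [h, SimpleGraph.dist_self] at h1
      omega
    obtain ⟨b1, hb1, hd1⟩ := exists_step hX.conn hne
    have dbb1 : X.dist b b1 = 1 := SimpleGraph.dist_eq_one_iff_adj.mpr hb1
    have e1 : X.dist b a1 = k + 1 := by rw [SimpleGraph.dist_comm]; exact h1
    have e2 : X.dist a1 b1 = k := by
      rw [SimpleGraph.dist_comm]
      omega
    have e3 : X.dist a b1 = k + 1 := by
      have t1 := hX.conn.dist_triangle (u := a) (v := a1) (w := b1)
      have t2 := hX.conn.dist_triangle (u := a) (v := b1) (w := b)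
      rw [SimpleGraph.dist_comm (u := b1) (v := b)] at t2
      omega
    have f1 : n + 1 ≤ X.dist v b1 := ih k (by omega) haa1 e2 e3 h3 h4
    have f2 : X.dist v b1 = n + 1 ∧ X.dist v b = n := by
      have t1 := hX.conn.dist_triangle (u := v) (v := b) (w := b1)
      omega
    obtain ⟨f2, f3⟩ := f2
    rcases k with _ | k
    · rw [hX.conn.dist_eq_zero_iff] at e2
      rw [← e2] at hb1
      rcases upc hX h4 h3 f3 haa1.symm hb1.symm with h | h
      · rw [h, SimpleGraph.dist_self] at h2
        omega
      · have h5 : X.dist a b = 1 := SimpleGraph.dist_eq_one_iff_adj.mpr h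
        omega
    · have hne1 : b1 ≠ a1 := by
        intro h
        rw [h, SimpleGraph.dist_self] at e2
        omega
      obtain ⟨b2, hb2, hd2⟩ := exists_step hX.conn hne1
      have db12 : X.dist b1 b2 = 1 := SimpleGraph.dist_eq_one_iff_adj.mpr hb2
      have g1 : X.dist b2 a1 = k := by
        rw [SimpleGraph.dist_comm (u := b1) (v := a1)] at hd2
        omega
      have g1' : X.dist a1 b2 = k := by
        rw [SimpleGraph.dist_comm]
        exact g1
      have g2 : X.dist a b2 = k + 1 := by
        have t1 := hX.conn.dist_triangle (u := a) (v := a1) (w := b2)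
        have t2 := hX.conn.dist_triangle (u := a) (v := b2) (w := b1)
        rw [SimpleGraph.dist_comm (u := b2) (v := b1)] at t2
        omega
      have g3 : 2 ≤ X.dist b2 b := by
        have t1 := hX.conn.dist_triangle (u := a1) (v := b2) (w := b)
        omega
      have g4 : n + 1 ≤ X.dist v b2 := ih k (by omega) haa1 g1' g2 h3 h4
      have g5 : X.dist v b2 ≤ n + 2 := by
        have t1 := hX.conn.dist_triangle (u := v) (v := b1) (w := b2)
        omega
      have g6 : X.dist v b2 ≠ n + 2 := by
        intro h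
        have t1 : n + 1 + 1 ≤ X.dist v a1 :=
          ih k (by omega) hb2 g1 (by rw [SimpleGraph.dist_comm]; exact e2) f2 h
        omega
      have g7 : X.dist v b2 = n + 1 := by omega
      obtain ⟨c, hc1, hc2, hc3⟩ := hX.tc v b2 b1 n g7 f2 hb2.symm
      rcases upc hX f2 hc3 f3 hc2.symm hb1.symm with h | h
      · rw [← h] at g3
        have h5 : X.dist b2 c = 1 := SimpleGraph.dist_eq_one_iff_adj.mpr hc1.symm
        omega
      · have dcb : X.dist c b = 1 := SimpleGraph.dist_eq_one_iff_adj.mpr h
        have db2c : X.dist b2 c = 1 := SimpleGraph.dist_eq_one_iff_adj.mpr hc1.symm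
        have i1 : X.dist a c = k + 1 + 1 := by
          have t1 := hX.conn.dist_triangle (u := a) (v := b2) (w := c)
          have t2 := hX.conn.dist_triangle (u := a) (v := c) (w := b)
          omega
        have i2 : X.dist a1 c = k + 1 := by
          have t1 := hX.conn.dist_triangle (u := a1) (v := b2) (w := c)
          have t2 := hX.conn.dist_triangle (u := a1) (v := c) (w := b)
          omega
        have i3 : n + 1 ≤ X.dist v c := ih (k + 1) (by omega) haa1 i2 i1 h3 h4
        omega

/-- PROOF. Let `d(v,a), d(v,b) ≤ n` and `w` on a geodesic from `a` to `b`; induction on `d(a,w)` (for all `a`). If it is `0`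
then `w = a`. Otherwise `exists_step`: `a1 ~ a` with `d(a1,w) = d(a,w) - 1`, so `d(a1,b) = d(a,b) - 1`. If `d(v,a1) ≤ n` use the
induction hypothesis; otherwise `d(v,a) = n`, `d(v,a1) = n+1` and `asc` gives `d(v,b) ≥ n+1`, a contradiction. -/
theorem ballc (hX : WBr X) (v : V) (n : ℕ) : GConvex X {w | X.dist v w ≤ n} := by
  have key : ∀ (m : ℕ) (a b w : V), X.dist v a ≤ n → X.dist v b ≤ n →
      X.dist a w + X.dist w b = X.dist a b → X.dist a w = m → X.dist v w ≤ n := by
    intro m
    induction m with
    | zero =>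
      intro a b w ha _ _ h
      rw [hX.conn.dist_eq_zero_iff] at h
      rw [← h]
      exact ha
    | succ m ih =>
      intro a b w ha hb hw h
      have hne : a ≠ w := by
        intro h'
        rw [h', SimpleGraph.dist_self] at h
        omega
      obtain ⟨a1, ha1, hd⟩ := exists_step hX.conn hne
      have d1 : X.dist a a1 = 1 := SimpleGraph.dist_eq_one_iff_adj.mpr ha1
      have d2 : X.dist a1 w + X.dist w b = X.dist a1 b ∧ X.dist a1 b + 1 = X.dist a b := by
        have t1 := hX.conn.dist_triangle (u := a) (v := a1) (w := b)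
        have t2 := hX.conn.dist_triangle (u := a1) (v := w) (w := b)
        omega
      by_cases h5 : X.dist v a1 ≤ n
      · exact ih a1 b w h5 hb d2.1 (by omega)
      · exfalso
        have t1 := hX.conn.dist_triangle (u := v) (v := a) (w := a1)
        have h6 : X.dist v a = n := by omega
        have h7 : X.dist v a1 = n + 1 := by omega
        have h8 := asc hX v (X.dist a1 b) ha1 rfl d2.2.symm h6 h7
        omega
  exact fun a ha b hb w hw => key _ a b w ha hb hw rfl

end Pool.Agent.Lib.MP_1211f9_al.WB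
end

section

/-! Campaign WB (MP_1211f9_al), task F: the projections are finite -/

set_option autoImplicit false

namespace Pool.Agent.Lib.MP_1211f9_al.WB

open Pool.Agent.Lib.MP_1211f9_al Pool.Agent.Lib.MP_1211f9_al.BK

variable {V : Type*} {X : SimpleGraph V} {C : Set V}

/-- PROOF. `exists_lev`, `lev_le`, `hX.dist_eq_zero_iff`. -/
theorem mem_Sh_zero (hX : X.Connected) (hne : C.Nonempty) {v y : V} :
    y ∈ Sh X C 0 v ↔ y ∈ C ∧ X.dist v y = lev X C v := by
  constructor
  · rintro ⟨h1, h2⟩
    obtain ⟨c, hc, h3⟩ := exists_lev (X := X) hne y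
    have h4 : y = c := hX.dist_eq_zero_iff.mp (by omega)
    exact ⟨by rw [h4]; exact hc, h2⟩
  · rintro ⟨h1, h2⟩
    have h3 := lev_le (X := X) h1 y
    rw [SimpleGraph.dist_self] at h3
    exact ⟨by omega, by omega⟩

/-- PROOF. `Sh X C 0 v` is the intersection of `C` and a ball around `v` (`ballc`): for `w` on a geodesic between two of its points
`w ∈ C` and `d(v,w) ≤ lev v ≤ d(v,w)`. -/
theorem Sh_zero_convex (hX : WBr X) (hne : C.Nonempty) (hC : GConvex X C) {v : V} :
    GConvex X (Sh X C 0 v) := by
  intro a ha b hb w hw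
  rw [mem_Sh_zero hX.conn hne] at ha hb ⊢
  have h1 : w ∈ C := hC a ha.1 b hb.1 w hw
  have h2 : X.dist v w ≤ lev X C v := ballc hX v (lev X C v) a ha.2.le b hb.2.le w hw
  have h3 := lev_le (X := X) h1 v
  exact ⟨h1, by omega⟩

private theorem WBF_degree (hX : WBr X) (hne : C.Nonempty) (hC : GConvex X C) {ω : ℕ}
    (hω : X.CliqueFree (ω + 1)) {n : ℕ} {v y : V} (hv : lev X C v = n + 1)
    (hy : y ∈ Sh X C 0 v) :
    {y' | y' ∈ Sh X C 0 v ∧ X.Adj y y'}.Finite ∧
      {y' | y' ∈ Sh X C 0 v ∧ X.Adj y y'}.ncard ≤ ω * ω := by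
  have hy2 := hy.2
  have hU := clique_bound hω {p | X.Adj y p ∧ X.dist v p = n} (by
    intro a ha b hb hab
    exact (upc hX (x := v) (z := y) (k := n) (by omega) ha.2 hb.2 ha.1 hb.1).resolve_left hab)
  refine biUnion_bound (S := {p | X.Adj y p ∧ X.dist v p = n})
    (f := fun p => {y' | (y' ∈ Sh X C 0 v ∧ X.Adj y y') ∧ X.Adj y' p}) hU.1 hU.2 ?_ ?_
  · intro p hp
    refine clique_bound hω _ ?_
    intro a ha b hb hab
    by_contra h
    have h1 : p ∈ Sh X C 0 v :=
      (Sh_zero_convex hX hne hC).mid hX.conn ha.1.1 hb.1.1 ha.2 hb.2.symm hab h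
    have h2 := h1.2
    have h3 := hp.2
    omega
  · intro y' hy'
    have hy3 := hy'.1.2
    obtain ⟨p, p1, p2, lp⟩ := hX.tc v y y' n (by omega) (by omega) hy'.2
    simp only [Set.mem_iUnion]
    exact ⟨p, ⟨p1.symm, lp⟩, hy', p2.symm⟩

private theorem WBF_sphere (hX : WBr X) (hne : C.Nonempty) (hC : GConvex X C) {ω : ℕ}
    (hω : X.CliqueFree (ω + 1)) {n : ℕ} {v y : V} (hv : lev X C v = n + 1)
    (hy : y ∈ Sh X C 0 v) (r : ℕ) :
    {y' | y' ∈ Sh X C 0 v ∧ X.dist y y' = r}.Finite ∧
      {y' | y' ∈ Sh X C 0 v ∧ X.dist y y' = r}.ncard ≤ (ω * ω) ^ r := by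
  induction r with
  | zero =>
    have h : {y' | y' ∈ Sh X C 0 v ∧ X.dist y y' = 0} ⊆ {y} := by
      intro y' h'
      rw [Set.mem_singleton_iff]
      exact (hX.conn.dist_eq_zero_iff.mp h'.2).symm
    refine ⟨(Set.finite_singleton y).subset h, ?_⟩
    rw [pow_zero]
    exact (Set.ncard_le_ncard h (Set.finite_singleton y)).trans (Set.ncard_singleton y).le
  | succ r ih =>
    rw [pow_succ]
    refine biUnion_bound (S := {y' | y' ∈ Sh X C 0 v ∧ X.dist y y' = r})
      (f := fun z => {y' | y' ∈ Sh X C 0 v ∧ X.Adj z y'}) ih.1 ih.2 ?_ ?_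
    · intro z hz
      exact WBF_degree hX hne hC hω hv hz.1
    · intro y' hy'
      obtain ⟨z, z1, z2⟩ := exists_between hX.conn y y' (r := r) (by have := hy'.2; omega)
      have h1 : X.dist z y' = 1 := by have := hy'.2; omega
      simp only [Set.mem_iUnion]
      refine ⟨z, ⟨?_, z1⟩, hy'.1, SimpleGraph.dist_eq_one_iff_adj.mp h1⟩
      exact (Sh_zero_convex hX hne hC) y hy y' hy'.1 z (by have := hy'.2; omega)

/-- PROOF. As `Sh_finite` in `B2.lean` (with `clique_bound`, `biUnion_bound`, `bnd` from there), `C` instead of level `n+1`: let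
`n + 1 = lev v`. Degree: for `y ∈ Sh 0 v` the set of the `y' ∈ Sh 0 v` with `y ~ y'` has at most `ω * ω` elements: the `p ~ y` with
`d(v,p) = n` form a clique (`upc` at `y`, base point `v`), every such `y'` is adjacent to one of them (TC with base point `v`),
and for fixed `p` the `y' ∈ Sh 0 v` adjacent to `y` and `p` form a clique: otherwise `p` is on a geodesic of
length two between two points of `C`, so `p ∈ C` (`GConvex.mid`) and `lev v ≤ n`. Sphere: induction on the radius as in `Sh_sphere`, with
`Sh_zero_convex`. Sum over the radii `0, ..., D`. -/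
theorem proj_finite (hX : WBr X) (hne : C.Nonempty) (hC : GConvex X C) {ω : ℕ}
    (hω : X.CliqueFree (ω + 1)) {D : ℕ} {v : V} (hv : 1 ≤ lev X C v)
    (hD : ∀ y ∈ Sh X C 0 v, ∀ z ∈ Sh X C 0 v, X.dist y z ≤ D) :
    (Sh X C 0 v).Finite ∧ (Sh X C 0 v).ncard ≤ bnd ω D := by
  obtain ⟨n, hn⟩ : ∃ n, lev X C v = n + 1 := ⟨lev X C v - 1, by omega⟩
  rcases Set.eq_empty_or_nonempty (Sh X C 0 v) with h | ⟨y, hy⟩
  · rw [h]
    exact ⟨Set.finite_empty, by rw [Set.ncard_empty]; exact Nat.zero_le _⟩
  · refine biUnion_bound (S := (Finset.range (D + 1) : Set ℕ))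
      (f := fun r => {y' | y' ∈ Sh X C 0 v ∧ X.dist y y' = r}) (Finset.finite_toSet _)
      (by rw [Set.ncard_coe_finset, Finset.card_range]) ?_ ?_
    · intro r hr
      obtain ⟨h1, h2⟩ := WBF_sphere hX hne hC hω hn hy r
      refine ⟨h1, h2.trans ?_⟩
      have hr' : r ≤ D := by
        rw [Finset.mem_coe, Finset.mem_range] at hr
        omega
      exact (Nat.pow_le_pow_left (Nat.le_succ _) r).trans
        (Nat.pow_le_pow_right (Nat.succ_pos _) hr')
    · intro y' hy'
      simp only [Set.mem_iUnion]
      refine ⟨X.dist y y', ?_, hy', rfl⟩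
      rw [Finset.mem_coe, Finset.mem_range]
      have := hD y hy y' hy'
      omega

end Pool.Agent.Lib.MP_1211f9_al.WB
end

section

/-! Campaign WB (MP_1211f9_al), task G: projections to convex sets -/

set_option autoImplicit false

namespace Pool.Agent.Lib.MP_1211f9_al.WB

open Pool.Agent.Lib.MP_1211f9_al Pool.Agent.Lib.MP_1211f9_al.BK

variable {V : Type*} {X : SimpleGraph V}

/-- Let `p ∈ C` be a closest point to `a`, and among these closest to `q ∈ C`. Then `p` is on a geodesic from `a` to `q`.
PROOF. Write `j = d(a,p)`. CLAIM: every `w` with `d(p,w) + d(w,q) = d(p,q)` (these `w` belong to `C`) has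
`d(a,w) = j + d(p,w)`; for `w = q` this is the theorem. Strong induction on `m = d(p,w)`. `m = 0`: `w = p`. `m = 1`: `d(a,w) ≥ j` by `hpa`,
`≤ j+1`; if it is `j` then `hmin w` gives `d(p,q) ≤ d(w,q) = d(p,q) - 1`, a contradiction. `m ≥ 2`: choose
`w' ~ w` with `d(p,w') = m-1` and `w'' ~ w'` with `d(p,w'') = m-2` (both again on geodesics from `p` to `q`), `d(w'',w) = 2`. By induction
`d(a,w') = j+m-1`, `d(a,w'') = j+m-2`; so `j+m-2 ≤ d(a,w) ≤ j+m`. If `d(a,w) = j+m-2`: `upc` at `w'` gives `w'' = w` or
`w'' ~ w`, a contradiction. If `d(a,w) = j+m-1`: TC for `w' ~ w` gives `z ~ w', w` with `d(a,z) = j+m-2`; `upc` at `w'`: `z = w''`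
(impossible since `w''` is not adjacent to `w`) or `z ~ w''`; then `d(p,z) = m-1`, `z` is on a geodesic from `p` to `q`
and the induction hypothesis gives `d(a,z) = j+m-1`, a contradiction. -/
theorem proj_min (hX : WBr X) {C : Set V} (hC : GConvex X C) {a p q : V} (hp : p ∈ C) (hq : q ∈ C)
    (hpa : ∀ c ∈ C, X.dist a p ≤ X.dist a c)
    (hmin : ∀ p' ∈ C, X.dist a p' = X.dist a p → X.dist p q ≤ X.dist p' q) :
    X.dist a p + X.dist p q = X.dist a q := by
  have claim : ∀ m : ℕ, ∀ w, X.dist p w = m → X.dist p w + X.dist w q = X.dist p q →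
      X.dist a w = X.dist a p + m := by
    intro m
    induction m using Nat.strong_induction_on with
    | _ m ih =>
      intro w hw hgeo
      have hwC : w ∈ C := hC p hp q hq w hgeo
      have tr : ∀ x y z : V, X.dist x z ≤ X.dist x y + X.dist y z := fun x y z =>
        hX.conn.dist_triangle
      rcases Nat.lt_or_ge m 2 with hm | hm
      · rcases Nat.eq_zero_or_pos m with h0 | h0
        · subst h0
          have h1 : p = w := (hX.conn.dist_eq_zero_iff).1 hw
          rw [← h1, add_zero]
        · have hm1 : m = 1 := by omega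
          subst hm1
          have h1 := hpa w hwC
          have h2 := tr a p w
          by_contra hne
          have h3 : X.dist a w = X.dist a p := by omega
          have h4 := hmin w hwC h3
          omega
      · obtain ⟨k, rfl⟩ : ∃ k, m = k + 2 := ⟨m - 2, by omega⟩
        have hne : w ≠ p := by
          rintro rfl
          rw [SimpleGraph.dist_self] at hw
          omega
        obtain ⟨w', hw', hd'⟩ := exists_step hX.conn hne
        rw [SimpleGraph.dist_comm (u := w') (v := p), SimpleGraph.dist_comm (u := w) (v := p)] at hd'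
        have hne' : w' ≠ p := by
          rintro rfl
          rw [SimpleGraph.dist_self] at hd'
          omega
        obtain ⟨w2, hw2, hd2⟩ := exists_step hX.conn hne'
        rw [SimpleGraph.dist_comm (u := w2) (v := p), SimpleGraph.dist_comm (u := w') (v := p)] at hd2
        have e1 : X.dist w w' = 1 := SimpleGraph.dist_eq_one_iff_adj.2 hw'
        have e1' : X.dist w' w = 1 := by rw [SimpleGraph.dist_comm]; exact e1
        have e2 : X.dist w' w2 = 1 := SimpleGraph.dist_eq_one_iff_adj.2 hw2
        have e2' : X.dist w2 w' = 1 := by rw [SimpleGraph.dist_comm]; exact e2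
        have g1 : X.dist p w' + X.dist w' q = X.dist p q := by
          have a1 := tr p w' q
          have a2 := tr w' w q
          omega
        have g2 : X.dist p w2 + X.dist w2 q = X.dist p q := by
          have a1 := tr p w2 q
          have a2 := tr w2 w' q
          omega
        have d2 : X.dist w2 w = 2 := by
          have a1 := tr w2 w' w
          have a2 := tr p w2 w
          omega
        have i1 := ih (k + 1) (by omega) w' (by omega) g1
        have i2 := ih k (by omega) w2 (by omega) g2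
        have b1 := tr a w' w
        have b2 := tr a w w'
        have hnadj : ¬ X.Adj w2 w := by
          intro h
          have := SimpleGraph.dist_eq_one_iff_adj.2 h
          omega
        have hnadj' : w2 ≠ w := by
          rintro rfl
          rw [SimpleGraph.dist_self] at d2
          omega
        by_contra hcon
        have hcase : X.dist a w = X.dist a p + k ∨ X.dist a w = X.dist a p + k + 1 := by omega
        rcases hcase with h | h
        · rcases upc hX (x := a) (z := w') (u := w2) (v := w) (k := X.dist a p + k)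
            (by omega) i2 h hw2 hw'.symm with h1 | h1
          · exact hnadj' h1
          · exact hnadj h1
        · obtain ⟨z, hz1, hz2, hz3⟩ := hX.tc a w' w (X.dist a p + k) (by omega) h hw'.symm
          rcases upc hX (x := a) (z := w') (u := w2) (v := z) (k := X.dist a p + k)
            (by omega) i2 hz3 hw2 hz1.symm with h1 | h1
          · exact hnadj (h1 ▸ hz2)
          · have c1 : X.dist w2 z = 1 := SimpleGraph.dist_eq_one_iff_adj.2 h1
            have c2 : X.dist z w = 1 := SimpleGraph.dist_eq_one_iff_adj.2 hz2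
            have a1 := tr p w2 z
            have a2 := tr p z w
            have a3 := tr z w q
            have a4 := tr p z q
            have i3 := ih (k + 1) (by omega) z (by omega) (by omega)
            omega
  have h := claim (X.dist p q) q rfl (by rw [SimpleGraph.dist_self, add_zero])
  exact h.symm

/-- PROOF. Among the `p ∈ C` with `d(a,p) = lev X C a` (`exists_lev`, `lev_le`) choose one with `d(p,q)` minimal (`Nat.find`,
or `WellFounded.min`, or `exists_minimal`), and apply `proj_min`. -/
theorem proj (hX : WBr X) {C : Set V} (hC : GConvex X C) {a q : V} (hq : q ∈ C) :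
    ∃ p ∈ C, X.dist a p = lev X C a ∧ X.dist a p + X.dist p q = X.dist a q := by
  classical
  have hex : ∃ n : ℕ, ∃ p ∈ C, X.dist a p = lev X C a ∧ X.dist p q = n := by
    obtain ⟨c, hc, h⟩ := exists_lev (X := X) ⟨q, hq⟩ a
    exact ⟨_, c, hc, h, rfl⟩
  obtain ⟨p, hp, hpl, hpn⟩ := Nat.find_spec hex
  refine ⟨p, hp, hpl, proj_min hX hC hp hq (fun c hc => ?_) (fun p' hp' h => ?_)⟩
  · rw [hpl]
    exact lev_le hc a
  · rw [hpn]
    exact Nat.find_min' hex ⟨p', hp', h.trans hpl, rfl⟩

end Pool.Agent.Lib.MP_1211f9_al.WB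
end

section

/-! Campaign WB (MP_1211f9_al), task M: geodesics to a point merge -/

set_option autoImplicit false

namespace Pool.Agent.Lib.MP_1211f9_al.WB

open Pool.Agent.Lib.MP_1211f9_al Pool.Agent.Lib.MP_1211f9_al.BK

variable {V : Type*} {X : SimpleGraph V}

/-- `v'` is a push of `v`. -/
private def WBM_psh (X : SimpleGraph V) (q : V) (n : ℕ) (v v' : V) : Prop :=
  (X.dist q v ≤ n ∧ v' = v) ∨ (X.dist q v = n + 1 ∧ X.Adj v v' ∧ X.dist q v' = n)

private theorem WBM_common (hX : WBr X) {q v w : V} {n : ℕ} (h : X.Adj v w)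
    (hv : X.dist q v = n + 1) (hw : X.dist q w ≤ n + 1) :
    ∃ c, WBM_psh X q n v c ∧ WBM_psh X q n w c ∧ X.Adj v c ∧ X.dist q c = n := by
  rcases Nat.lt_or_ge (X.dist q w) (n + 1) with h1 | h1
  · have h2 := hX.conn.dist_triangle (u := q) (v := w) (w := v)
    rw [SimpleGraph.dist_eq_one_iff_adj.mpr h.symm] at h2
    have h3 : X.dist q w = n := by omega
    exact ⟨w, Or.inr ⟨hv, h, h3⟩, Or.inl ⟨h3.le, rfl⟩, h, h3⟩
  · have h2 : X.dist q w = n + 1 := le_antisymm hw h1
    obtain ⟨c, c1, c2, c3⟩ := hX.tc q v w n hv h2 h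
    exact ⟨c, Or.inr ⟨hv, c1.symm, c3⟩, Or.inr ⟨h2, c2.symm, c3⟩, c1.symm, c3⟩

private theorem WBM_two (hX : WBr X) {q v c c' : V} {n : ℕ} (h : WBM_psh X q n v c)
    (h' : WBM_psh X q n v c') : X.dist c c' ≤ 1 := by
  rcases h with ⟨h1, rfl⟩ | ⟨h1, h2, h3⟩
  · rcases h' with ⟨h1', rfl⟩ | ⟨h1', h2', h3'⟩
    · rw [SimpleGraph.dist_self]
      omega
    · omega
  · rcases h' with ⟨h1', rfl⟩ | ⟨h1', h2', h3'⟩
    · omega
    · rcases upc hX h1 h3 h3' h2 h2' with h4 | h4
      · rw [h4, SimpleGraph.dist_self]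
        omega
      · rw [SimpleGraph.dist_eq_one_iff_adj.mpr h4]

/-- PROOF. For `v` with `d(q,v) ≤ n+1` say that `v'` is a push of `v` if (`d(q,v) ≤ n` and `v' = v`) or (`d(q,v) = n+1`, `v ~ v'`,
`d(q,v') = n`). (i) If `v ~ w`, both at distance at most `n+1` and at least one at distance `n+1`, then `v` and `w` have a
common push: TC if both are at distance `n+1`; if `d(q,v) = n+1`, `d(q,w) ≤ n` then `d(q,w) = n` and `w` is one.
(ii) Two pushes of `v` are equal or adjacent (`upc`). Induction on `K`. `K = 0`: (i). `K + 1`: let `b1 ~ b` with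
`d(a,b1) = K+1`; `d(q,b1) ≤ n+1` by `ballc` (`a` and `b` are in the ball of radius `n+1`). The induction hypothesis for `b1` gives `a'` and a
push `c` of `b1` with `d(a',c) ≤ K`. If `d(q,b1) ≤ n` and `d(q,b) ≤ n` then `c = b1` and `b' = b` will do. Otherwise let
`b'` be a common push of `b1` and `b`; `d(c,b') ≤ 1` by (ii). -/
theorem push (hX : WBr X) {q a : V} {n : ℕ} (ha : X.dist q a = n + 1) (K : ℕ) : ∀ b,
    X.dist a b = K + 1 → X.dist q b ≤ n + 1 →
    ∃ a' b', X.Adj a a' ∧ X.dist q a' = n ∧
      ((X.dist q b ≤ n ∧ b' = b) ∨ (X.dist q b = n + 1 ∧ X.Adj b b' ∧ X.dist q b' = n)) ∧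
      X.dist a' b' ≤ K := by
  induction K with
  | zero =>
    intro b hab hb
    have h1 : X.Adj a b := SimpleGraph.dist_eq_one_iff_adj.mp (by omega)
    obtain ⟨c, c1, c2, c3, c4⟩ := WBM_common hX h1 ha hb
    exact ⟨c, c, c3, c4, c2, by rw [SimpleGraph.dist_self]⟩
  | succ K ih =>
    intro b hab hb
    obtain ⟨b1, e1, e2⟩ := exists_between hX.conn a b (r := K + 1) (by omega)
    have e3 : X.dist b1 b = 1 := by omega
    have e4 : X.Adj b1 b := SimpleGraph.dist_eq_one_iff_adj.mp e3
    have e5 : X.dist q b1 ≤ n + 1 := ballc hX q (n + 1) a ha.le b hb b1 (by omega)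
    obtain ⟨a', c, f1, f2, f3, f4⟩ := ih b1 e1 e5
    rcases Nat.lt_or_ge (X.dist q b1) (n + 1) with g1 | g1
    · rcases Nat.lt_or_ge (X.dist q b) (n + 1) with g2 | g2
      · rcases f3 with ⟨-, rfl⟩ | ⟨f5, -⟩
        · refine ⟨a', b, f1, f2, Or.inl ⟨by omega, rfl⟩, ?_⟩
          have h1 := hX.conn.dist_triangle (u := a') (v := c) (w := b)
          omega
        · omega
      · obtain ⟨b', c1, c2, c3, c4⟩ := WBM_common hX e4.symm (le_antisymm hb g2) e5
        refine ⟨a', b', f1, f2, c1, ?_⟩
        have h1 := hX.conn.dist_triangle (u := a') (v := c) (w := b')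
        have h2 := WBM_two hX f3 c2
        omega
    · obtain ⟨b', c1, c2, c3, c4⟩ := WBM_common hX e4 (le_antisymm e5 g1) hb
      refine ⟨a', b', f1, f2, c2, ?_⟩
      have h1 := hX.conn.dist_triangle (u := a') (v := c) (w := b')
      have h2 := WBM_two hX f3 c1
      omega

/-- PROOF. Induction on `K`, for all `a, b`. If `a = b` then `y = a`. Otherwise `d(a,b) = K' + 1` with `K' + 1 ≤ K`, `d(q,a) = n+1` as
`K ≥ 1`; `push` gives `a'`, `b'` with `d(a',b') ≤ K' ≤ K-1`, `d(q,a') = n ≥ K-1`, `d(q,b') ≤ n`. The induction hypothesis gives `y`; it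
is on a geodesic from `q` to `a` since `d(y,a) ≤ d(y,a') + 1` and `d(q,a) = d(q,a') + 1`, in the same way for `b` (or `b' = b`). -/
theorem merge (hX : WBr X) (q : V) (K : ℕ) : ∀ a b, X.dist a b ≤ K → K ≤ X.dist q a →
    X.dist q b ≤ X.dist q a →
    ∃ y, X.dist q y + X.dist y a = X.dist q a ∧ X.dist q y + X.dist y b = X.dist q b ∧
      X.dist q a ≤ X.dist q y + K := by
  induction K with
  | zero =>
    intro a b hab h1 h2
    have h3 : a = b := hX.conn.dist_eq_zero_iff.mp (by omega)
    subst h3
    exact ⟨a, by rw [SimpleGraph.dist_self]; omega, by rw [SimpleGraph.dist_self]; omega, by omega⟩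
  | succ K ih =>
    intro a b hab h1 h2
    by_cases h3 : a = b
    · subst h3
      exact ⟨a, by rw [SimpleGraph.dist_self]; omega, by rw [SimpleGraph.dist_self]; omega,
        by omega⟩
    · have h4 : X.dist a b ≠ 0 := fun h => h3 (hX.conn.dist_eq_zero_iff.mp h)
      obtain ⟨K', hK'⟩ : ∃ K', X.dist a b = K' + 1 := ⟨X.dist a b - 1, by omega⟩
      obtain ⟨n, hn⟩ : ∃ n, X.dist q a = n + 1 := ⟨X.dist q a - 1, by omega⟩
      obtain ⟨a', b', f1, f2, f3, f4⟩ := push hX hn K' b hK' (by omega)
      have f5 : X.dist q b' ≤ n := by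
        rcases f3 with ⟨f6, f7⟩ | ⟨f6, f7, f8⟩
        · rw [f7]
          exact f6
        · exact f8.le
      obtain ⟨y, y1, y2, y3⟩ := ih a' b' (by omega) (by omega) (by omega)
      have g1 := hX.conn.dist_triangle (u := y) (v := a') (w := a)
      rw [SimpleGraph.dist_eq_one_iff_adj.mpr f1.symm] at g1
      have g2 := hX.conn.dist_triangle (u := q) (v := y) (w := a)
      refine ⟨y, by omega, ?_, by omega⟩
      rcases f3 with ⟨f6, f7⟩ | ⟨f6, f7, f8⟩
      · rw [← f7]
        exact y2
      · have g3 := hX.conn.dist_triangle (u := y) (v := b') (w := b)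
        rw [SimpleGraph.dist_eq_one_iff_adj.mpr f7.symm] at g3
        have g4 := hX.conn.dist_triangle (u := q) (v := y) (w := b)
        omega

end Pool.Agent.Lib.MP_1211f9_al.WB
end

section

/-! Campaign WB (MP_1211f9_al), task S: the shadows of close points of the same level meet -/

set_option autoImplicit false

namespace Pool.Agent.Lib.MP_1211f9_al.WB

open Pool.Agent.Lib.MP_1211f9_al Pool.Agent.Lib.MP_1211f9_al.BK

variable {V : Type*} {X : SimpleGraph V} {C : Set V}

/-- Two points of the same level `j` at distance at most `j` have a common closest point in `C`.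
PROOF. Let `j = lev a = lev b`. Choose `p, q ∈ C` with `d(a,p) = j = d(b,q)` and `l = d(p,q)` minimal (`exists_lev`; `Nat.find` on
`∃ p q, ... ∧ d(p,q) = l`). Suppose `l ≥ 1`. By `proj_min` (for `a`, `p`, `q`) `d(a,q) = j + l`. Let `q' ~ q` with `d(q',p) = l-1`
(`exists_step`), so `q' ∈ C` and `d(a,q') = j+l-1`. `merge` with the base point `q` for `a, b` and `K = d(a,b)` (`d(q,a) = j+l`,
`d(q,b) = j`) gives `y` with `d(q,y) ≥ l ≥ 1`; let `q1 ~ q` with `d(q1,y) = d(q,y) - 1`. Then `d(a,q1) = j+l-1` and
`d(b,q1) = j-1`. By `upc` (base point `a`, at `q`) `q' = q1` or `q' ~ q1`; so `d(b,q') ≤ j`, hence `d(b,q') = j` (`lev_le`) and the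
pair `p, q'` contradicts the minimality of `l`. -/
theorem common_proj (hX : WBr X) (hne : C.Nonempty) (hC : GConvex X C) {a b : V}
    (hl : lev X C a = lev X C b) (hK : X.dist a b ≤ lev X C a) :
    ∃ p ∈ C, X.dist a p = lev X C a ∧ X.dist b p = lev X C b := by
  classical
  have hex : ∃ l : ℕ, ∃ p ∈ C, ∃ q ∈ C, X.dist a p = lev X C a ∧ X.dist b q = lev X C b ∧
      X.dist p q = l := by
    obtain ⟨p, hp, h1⟩ := exists_lev (X := X) hne a
    obtain ⟨q, hq, h2⟩ := exists_lev (X := X) hne b
    exact ⟨_, p, hp, q, hq, h1, h2, rfl⟩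
  obtain ⟨p, hp, q, hq, h1, h2, h3⟩ := Nat.find_spec hex
  have hmin : ∀ p' ∈ C, ∀ q' ∈ C, X.dist a p' = lev X C a → X.dist b q' = lev X C b →
      X.dist p q ≤ X.dist p' q' := by
    intro p' hp' q' hq' h4 h5
    rw [h3]
    exact Nat.find_min' hex ⟨p', hp', q', hq', h4, h5, rfl⟩
  clear h3
  rcases eq_or_ne p q with hpq | hpq
  · subst hpq
    exact ⟨p, hp, h1, h2⟩
  exfalso
  have e1 := proj_min hX hC (a := a) hp hq
    (fun c hc => by rw [h1]; exact lev_le (X := X) hc a)
    (fun p' hp' h4 => hmin p' hp' q hq (by rw [h4, h1]) h2)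
  obtain ⟨q', hq1, hq2⟩ := exists_step hX.conn hpq.symm
  have d1 : X.dist q q' = 1 := SimpleGraph.dist_eq_one_iff_adj.mpr hq1
  have hq'C : q' ∈ C := hC q hq p hp q' (by omega)
  have c1 : X.dist q p = X.dist p q := SimpleGraph.dist_comm
  have c2 : X.dist q' p = X.dist p q' := SimpleGraph.dist_comm
  have c3 : X.dist q a = X.dist a q := SimpleGraph.dist_comm
  have c4 : X.dist q b = X.dist b q := SimpleGraph.dist_comm
  have c5 : X.dist q' q = X.dist q q' := SimpleGraph.dist_comm
  have t1 := hX.conn.dist_triangle (u := a) (v := p) (w := q')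
  have t2 := hX.conn.dist_triangle (u := a) (v := q') (w := q)
  obtain ⟨y, y1, y2, y3⟩ := merge hX q (X.dist a b) a b le_rfl (by omega) (by omega)
  have hqy : q ≠ y := by
    rintro rfl
    rw [SimpleGraph.dist_self] at y3
    have h6 : X.dist p q ≠ 0 := fun h => hpq (hX.conn.dist_eq_zero_iff.mp h)
    omega
  obtain ⟨q1, r1, r2⟩ := exists_step hX.conn hqy
  have d2 : X.dist q q1 = 1 := SimpleGraph.dist_eq_one_iff_adj.mpr r1
  have c6 : X.dist q1 q = X.dist q q1 := SimpleGraph.dist_comm
  have c7 : X.dist y a = X.dist a y := SimpleGraph.dist_comm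
  have c8 : X.dist y b = X.dist b y := SimpleGraph.dist_comm
  have c9 : X.dist q1 y = X.dist y q1 := SimpleGraph.dist_comm
  have t3 := hX.conn.dist_triangle (u := a) (v := y) (w := q1)
  have t4 := hX.conn.dist_triangle (u := a) (v := q1) (w := q)
  have t5 := hX.conn.dist_triangle (u := b) (v := y) (w := q1)
  have hlev := lev_le (X := X) hq'C b
  have key : X.dist b q' ≤ X.dist b q1 + 1 := by
    rcases upc hX (x := a) (z := q) (u := q') (v := q1) (k := X.dist a q - 1) (by omega)
      (by omega) (by omega) hq1 r1 with h7 | h7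
    · rw [h7]; omega
    · have h8 : X.dist q1 q' = 1 := SimpleGraph.dist_eq_one_iff_adj.mpr h7.symm
      have t6 := hX.conn.dist_triangle (u := b) (v := q1) (w := q')
      omega
  have h9 := hmin p hp q' hq'C h1 (by omega)
  omega

/-- PROOF. Let `p` be as in `common_proj` (`d(u,w) ≤ L ≤ lev u`). `merge` with the base point `p`, for `u, w` and `K = L`, gives `y`
with `d(p,y) ≥ j - L ≥ i`; let `z` be the point with `d(p,z) = i` on a geodesic from `p` to `y` (`exists_between`). Then
`lev z ≤ i` (`lev_le`), `d(u,z) ≤ j - i`, and `mem_Sh_of_le`. -/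
theorem sh_meet (hX : WBr X) (hne : C.Nonempty) (hC : GConvex X C) {u w : V} {i L : ℕ}
    (huw : lev X C w = lev X C u) (hL : X.dist u w ≤ L) (hi : i + L ≤ lev X C u) :
    ∃ z, z ∈ Sh X C i u ∧ z ∈ Sh X C i w := by
  obtain ⟨p, hp, h1, h2⟩ := common_proj hX hne hC huw.symm (by omega)
  have c1 : X.dist p u = X.dist u p := SimpleGraph.dist_comm
  have c2 : X.dist p w = X.dist w p := SimpleGraph.dist_comm
  obtain ⟨y, y1, y2, y3⟩ := merge hX p L u w hL (by omega) (by omega)
  obtain ⟨z, z1, z2⟩ := exists_between hX.conn p y (r := i) (by omega)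
  have h3 := lev_le (X := X) hp z
  have c3 : X.dist z p = X.dist p z := SimpleGraph.dist_comm
  have c4 : X.dist y u = X.dist u y := SimpleGraph.dist_comm
  have c5 : X.dist y w = X.dist w y := SimpleGraph.dist_comm
  have c6 : X.dist z y = X.dist y z := SimpleGraph.dist_comm
  have t1 := hX.conn.dist_triangle (u := u) (v := y) (w := z)
  have t2 := hX.conn.dist_triangle (u := w) (v := y) (w := z)
  exact ⟨z, mem_Sh_of_le hX.conn hne (by omega) (by omega),
    mem_Sh_of_le hX.conn hne (by omega) (by omega)⟩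

end Pool.Agent.Lib.MP_1211f9_al.WB
end

section

/-! Campaign WB (MP_1211f9_al), task W: no long level paths without 6-wheels -/

set_option autoImplicit false

namespace Pool.Agent.Lib.MP_1211f9_al.WB

open Pool.Agent.Lib.MP_1211f9_al Pool.Agent.Lib.MP_1211f9_al.BK

variable {V : Type*} {X : SimpleGraph V}

/-- PROOF. Let `p0, p1, p2, p3` be a geodesic (`exists_step` twice). `l ≥ 1` (otherwise `p0 = p = p3`). TC (base point `p`) gives
`z01 ~ p0, p1`, `z12 ~ p1, p2`, `z23 ~ p2, p3` at distance `l-1` from `p`. (N) A vertex `z` with `d(p,z) = l-1` is not on a geodesic from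
`p0` to `p3`; so `z` is not adjacent to both `p0` and `p2`, nor to both `p1` and `p3`, and there are no adjacent `w`, `z` with `w ~ p0`,
`z ~ p3` (for such `w, z`: `d(p0,w) = 1`, `d(w,p3) = 2`, `d(p0,z) = 2`, `d(z,p3) = 1`, as `d(p0,p3) = 3`). Hence `z01, z12, z23` are different, `z01`
is not adjacent to `p2`, `z23` not to `p1`, `z01` not to `z23`; `z01 ~ z12` and `z12 ~ z23` (`upc` at `p1`, at `p2`, base
point `p`). `l ≥ 2` (otherwise `z01 = p = z12`). TC: `y1 ~ z01, z12`, `y2 ~ z12, z23` at distance `l-2` from `p`.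
(M) No `y` with `d(p,y) = l-2` is adjacent to both `z01` and `z23`: `d(p0,z23)` is `2` or `3` (`d(p0,p3) = 3`; the path `p0 z01 y z23`). If it
is `3`, then `upc` (base point `p0`, at `z23`; `d(p0,y) = 2` since `d(p,y) = l-2`, `d(p0,p2) = 2`) gives `y = p2` or `y ~ p2`, impossible. If it is `2`, then
`z23` is on a geodesic from `p0` to `p3`, contradiction (N). So `y1 ≠ y2`, `y1 ~ y2` (`upc` at `z12`), `z01` is not
adjacent to `y2`, `z23` not to `y1`, and `z01 p1 p2 z23 y2 y1` is an induced hexagon (`p1`, `p2` are not adjacent to `y1`, `y2` by their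
distances from `p`) all of whose vertices are adjacent to `z12`: contradiction to `h6` with
`a = ![z01, p1, p2, z23, y2, y1]`, `z = z12` (for the 36 cases use `Fin` case analysis: `fin_cases i <;> fin_cases j <;> simp [...]`). -/
theorem no_long (hX : WBr X) (h6 : NoWheel6 X) {p p0 p3 : V} {l : ℕ} (hd : X.dist p0 p3 = 3)
    (h : ∀ x, X.dist p0 x + X.dist x p3 = 3 → X.dist p x = l) : False := by
  have hc := hX.conn
  have adj1 : ∀ {a b : V}, X.Adj a b → X.dist a b = 1 := fun h => SimpleGraph.dist_eq_one_iff_adj.2 h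
  have lev : ∀ {a b : V}, X.Adj a b → X.dist p a ≤ X.dist p b + 1 := by
    intro a b hab
    have h1 := hc.dist_triangle (u := p) (v := b) (w := a)
    have h2 := adj1 hab.symm
    omega
  have h03 : p0 ≠ p3 := by
    rintro rfl
    rw [SimpleGraph.dist_self] at hd
    omega
  obtain ⟨p1, a00, h1⟩ := exists_step hc h03
  have h13 : p1 ≠ p3 := by
    rintro rfl
    rw [SimpleGraph.dist_self] at h1
    omega
  obtain ⟨p2, a12, h2⟩ := exists_step hc h13
  have d01 := adj1 a00
  have d12 := adj1 a12
  have d13 : X.dist p1 p3 = 2 := by omega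
  have d23 : X.dist p2 p3 = 1 := by omega
  have a23' : X.Adj p2 p3 := SimpleGraph.dist_eq_one_iff_adj.1 d23
  have d02 : X.dist p0 p2 = 2 := by
    have t1 := hc.dist_triangle (u := p0) (v := p1) (w := p2)
    have t2 := hc.dist_triangle (u := p0) (v := p2) (w := p3)
    omega
  have l0 : X.dist p p0 = l := h p0 (by rw [SimpleGraph.dist_self]; omega)
  have l1 : X.dist p p1 = l := h p1 (by omega)
  have l2 : X.dist p p2 = l := h p2 (by omega)
  have l3 : X.dist p p3 = l := h p3 (by rw [SimpleGraph.dist_self]; omega)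
  obtain ⟨k, rfl⟩ : ∃ k, l = k + 1 := by
    rcases Nat.eq_zero_or_pos l with h0 | h0
    · exfalso
      have e0 : p = p0 := hc.dist_eq_zero_iff.1 (by omega)
      have e3 : p = p3 := hc.dist_eq_zero_iff.1 (by omega)
      exact h03 (e0.symm.trans e3)
    · exact ⟨l - 1, by omega⟩
  obtain ⟨z01, b0, b1, lz01⟩ := hX.tc p p0 p1 k l0 l1 a00
  obtain ⟨z12, c1, c2, lz12⟩ := hX.tc p p1 p2 k l1 l2 a12
  obtain ⟨z23, e2, e3, lz23⟩ := hX.tc p p2 p3 k l2 l3 a23'
  have N : ∀ z, X.dist p z = k → X.dist p0 z + X.dist z p3 ≠ 3 := by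
    intro z hz hs
    have := h z hs
    omega
  have n02 : ¬ X.Adj z01 p2 := by
    intro hh
    have t0 := adj1 b0.symm
    have t1 := hc.dist_triangle (u := z01) (v := p2) (w := p3)
    have t2 := hc.dist_triangle (u := p0) (v := z01) (w := p3)
    have t3 := adj1 hh
    exact N z01 lz01 (by omega)
  have n13 : ¬ X.Adj p1 z23 := by
    intro hh
    have t0 := adj1 e3
    have t1 := hc.dist_triangle (u := p0) (v := p1) (w := z23)
    have t2 := hc.dist_triangle (u := p0) (v := z23) (w := p3)
    have t3 := adj1 hh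
    exact N z23 lz23 (by omega)
  have m0 : ¬ X.Adj z12 p0 := by
    intro hh
    have t0 := adj1 hh.symm
    have t1 := hc.dist_triangle (u := z12) (v := p2) (w := p3)
    have t2 := hc.dist_triangle (u := p0) (v := z12) (w := p3)
    have t3 := adj1 c2
    exact N z12 lz12 (by omega)
  have m3 : ¬ X.Adj z12 p3 := by
    intro hh
    have t0 := adj1 hh
    have t1 := hc.dist_triangle (u := p0) (v := p1) (w := z12)
    have t2 := hc.dist_triangle (u := p0) (v := z12) (w := p3)
    have t3 := adj1 c1.symm
    exact N z12 lz12 (by omega)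
  have q1 : z01 ≠ z12 := by
    rintro rfl
    exact m0 b0
  have q2 : z12 ≠ z23 := by
    rintro rfl
    exact m3 e3
  have q3 : z01 ≠ z23 := by
    rintro rfl
    have t0 := adj1 b0.symm
    have t1 := adj1 e3
    have t2 := hc.dist_triangle (u := p0) (v := z01) (w := p3)
    omega
  have n03 : ¬ X.Adj z01 z23 := by
    intro hh
    have t0 := adj1 b0.symm
    have t1 := adj1 e3
    have t2 := adj1 hh
    have t3 := hc.dist_triangle (u := z01) (v := z23) (w := p3)
    have t4 := hc.dist_triangle (u := p0) (v := z01) (w := p3)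
    exact N z01 lz01 (by omega)
  have r1 : X.Adj z01 z12 := (upc hX l1 lz01 lz12 b1.symm c1.symm).resolve_left q1
  have r2 : X.Adj z12 z23 := (upc hX l2 lz12 lz23 c2.symm e2.symm).resolve_left q2
  obtain ⟨j, rfl⟩ : ∃ j, k = j + 1 := by
    rcases Nat.eq_zero_or_pos k with h0 | h0
    · exfalso
      have t0 : p = z01 := hc.dist_eq_zero_iff.1 (by omega)
      have t3 : p = z12 := hc.dist_eq_zero_iff.1 (by omega)
      exact q1 (t0.symm.trans t3)
    · exact ⟨k - 1, by omega⟩
  obtain ⟨y1, f1, f2, ly1⟩ := hX.tc p z01 z12 j lz01 lz12 r1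
  obtain ⟨y2, g1, g2, ly2⟩ := hX.tc p z12 z23 j lz12 lz23 r2
  have M : ∀ y, X.dist p y = j → X.Adj y z01 → X.Adj y z23 → False := by
    intro y hy hy1 hy2
    have t0 := adj1 b0.symm
    have t1 := adj1 hy1.symm
    have t2 := adj1 hy2
    have t3 := adj1 e3
    have t4 := hc.dist_triangle (u := p0) (v := z01) (w := y)
    have t5 := hc.dist_triangle (u := p0) (v := y) (w := z23)
    have t6 := hc.dist_triangle (u := p0) (v := z23) (w := p3)
    have t7 := N z23 lz23
    have t8 : X.dist p0 z23 = 2 + 1 := by omega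
    have t9 : X.dist p0 y = 2 := by omega
    rcases upc hX t8 t9 d02 hy2.symm e2 with rfl | h9
    · omega
    · have := lev h9.symm
      omega
  have q4 : y1 ≠ y2 := by
    rintro rfl
    exact M y1 ly1 f1 g2
  have a45 : X.Adj y2 y1 := ((upc hX lz12 ly1 ly2 f2.symm g1.symm).resolve_left q4).symm
  have n04 : ¬ X.Adj z01 y2 := fun hh => M y2 ly2 hh.symm g2
  have n35 : ¬ X.Adj z23 y1 := fun hh => M y1 ly1 f1 hh.symm
  have n14 : ¬ X.Adj p1 y2 := fun hh => by have := lev hh; omega
  have n15 : ¬ X.Adj p1 y1 := fun hh => by have := lev hh; omega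
  have n24 : ¬ X.Adj p2 y2 := fun hh => by have := lev hh; omega
  have n25 : ¬ X.Adj p2 y1 := fun hh => by have := lev hh; omega
  have a01 : X.Adj z01 p1 := b1
  have a23 : X.Adj p2 z23 := e2.symm
  have a34 : X.Adj z23 y2 := g2.symm
  have a50 : X.Adj y1 z01 := f1
  have neL : ∀ {a b : V}, X.dist p a ≠ X.dist p b → a ≠ b := fun hh hab => hh (by rw [hab])
  have u01 : z01 ≠ p1 := neL (by omega)
  have u02 : z01 ≠ p2 := neL (by omega)
  have u04 : z01 ≠ y2 := neL (by omega)
  have u05 : z01 ≠ y1 := neL (by omega)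
  have u12 : p1 ≠ p2 := a12.ne
  have u13 : p1 ≠ z23 := neL (by omega)
  have u14 : p1 ≠ y2 := neL (by omega)
  have u15 : p1 ≠ y1 := neL (by omega)
  have u23 : p2 ≠ z23 := neL (by omega)
  have u24 : p2 ≠ y2 := neL (by omega)
  have u25 : p2 ≠ y1 := neL (by omega)
  have u34 : z23 ≠ y2 := neL (by omega)
  have u35 : z23 ≠ y1 := neL (by omega)
  refine h6 ![z01, p1, p2, z23, y2, y1] z12 ?_ ?_ ?_
  · intro i j hij
    fin_cases i <;> fin_cases j <;>
    first
    | rfl
    | exact absurd hij u01
    | exact absurd hij u01.symm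
    | exact absurd hij u02
    | exact absurd hij u02.symm
    | exact absurd hij q3
    | exact absurd hij q3.symm
    | exact absurd hij u04
    | exact absurd hij u04.symm
    | exact absurd hij u05
    | exact absurd hij u05.symm
    | exact absurd hij u12
    | exact absurd hij u12.symm
    | exact absurd hij u13
    | exact absurd hij u13.symm
    | exact absurd hij u14
    | exact absurd hij u14.symm
    | exact absurd hij u15
    | exact absurd hij u15.symm
    | exact absurd hij u23
    | exact absurd hij u23.symm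
    | exact absurd hij u24
    | exact absurd hij u24.symm
    | exact absurd hij u25
    | exact absurd hij u25.symm
    | exact absurd hij u34
    | exact absurd hij u34.symm
    | exact absurd hij u35
    | exact absurd hij u35.symm
    | exact absurd hij q4
    | exact absurd hij q4.symm
  · intro i
    fin_cases i
    · exact r1.symm
    · exact c1
    · exact c2
    · exact r2
    · exact g1.symm
    · exact f2.symm
  · intro i j
    fin_cases i <;> fin_cases j <;>
    first
    | exact iff_of_true a01 (by decide)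
    | exact iff_of_true a01.symm (by decide)
    | exact iff_of_true a12 (by decide)
    | exact iff_of_true a12.symm (by decide)
    | exact iff_of_true a23 (by decide)
    | exact iff_of_true a23.symm (by decide)
    | exact iff_of_true a34 (by decide)
    | exact iff_of_true a34.symm (by decide)
    | exact iff_of_true a45 (by decide)
    | exact iff_of_true a45.symm (by decide)
    | exact iff_of_true a50 (by decide)
    | exact iff_of_true a50.symm (by decide)
    | exact iff_of_false n02 (by decide)
    | exact iff_of_false (fun h => n02 h.symm) (by decide)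
    | exact iff_of_false n03 (by decide)
    | exact iff_of_false (fun h => n03 h.symm) (by decide)
    | exact iff_of_false n04 (by decide)
    | exact iff_of_false (fun h => n04 h.symm) (by decide)
    | exact iff_of_false n13 (by decide)
    | exact iff_of_false (fun h => n13 h.symm) (by decide)
    | exact iff_of_false n14 (by decide)
    | exact iff_of_false (fun h => n14 h.symm) (by decide)
    | exact iff_of_false n15 (by decide)
    | exact iff_of_false (fun h => n15 h.symm) (by decide)
    | exact iff_of_false n24 (by decide)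
    | exact iff_of_false (fun h => n24 h.symm) (by decide)
    | exact iff_of_false n25 (by decide)
    | exact iff_of_false (fun h => n25 h.symm) (by decide)
    | exact iff_of_false n35 (by decide)
    | exact iff_of_false (fun h => n35 h.symm) (by decide)
    | exact iff_of_false (SimpleGraph.irrefl X) (by decide)

end Pool.Agent.Lib.MP_1211f9_al.WB
end
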